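import Pool.Agent.H46.RG.CharA

/-!
# CharB: the characteristic polynomial of a close return is irreducible

`gcd (|I|, d) = 1`, `y` invertible, `y * im U = diagonal (flow I (-m)) * ((1 + E) * y)`, `E` small and
block triangular.  Then `im U = y⁻¹ T y` with `T = diagonal (flow I (-m)) * (1 + E)`, so the integral
characteristic polynomial `f` of `U` maps to that of `T` (`Matrix.charpoly_units_conj` or
`charpoly` of similar matrices; `Matrix.charpoly_map`).
Suppose `f = q r` with monic `q, r ∈ ℤ[X]`, `0 < deg q < d`.  `f(0) = ± det U = ±1`, so `q(0) = ±1`.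
The complex roots of `q` form a sub-multiset of `A + B` (`roots_split`), `k₁` of them in `A`, `k₂` in `B`
(a sub-multiset `C ≤ A + B` is `C = A' + B'` with `A' ≤ A`, `B' ≤ B`, e.g. `Multiset.le_add`-type lemma or
`A' = C ∩ A`, `B' = C - A`), `k₁ + k₂ = deg q`.
`1 = |q(0)| = ∏ ‖root‖`, so `0 = Σ log ‖root‖ = m (k₂ p - k₁ (d - p)) + θ`, `|θ| ≤ (k₁ + k₂) / (4 d) ≤ 1 / 4`; the integer
`k₂ p - k₁ (d - p)` is `0` because `m ≥ 1`.  So `p (k₁ + k₂) = d k₁`, `d ∣ p deg q`, `d ∣ deg q`, a
contradiction.  So `f` is irreducible over `ℤ` (`Polynomial.Monic.irreducible_iff_natDegree'`), hence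
over `ℚ` (`Polynomial.Monic.irreducible_iff_irreducible_map_fraction_map`).
-/

set_option autoImplicit false

namespace Pool.Agent.H46.RG

open Matrix Filter Topology Polynomial Pool.Agent.H89.CSD

variable {d : ℕ}

private theorem cb_sum (c e : ℝ) (S : Multiset ℂ) (h : ∀ z ∈ S, |Real.log ‖z‖ - c| ≤ e) :
    |(S.map fun z => Real.log ‖z‖).sum - (S.card : ℝ) * c| ≤ (S.card : ℝ) * e := by
  induction S using Multiset.induction with
  | empty => simp
  | cons a S ih =>
    have h1 := ih fun z hz => h z (Multiset.mem_cons_of_mem hz)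
    have h2 := h a (Multiset.mem_cons_self a S)
    rw [Multiset.map_cons, Multiset.sum_cons, Multiset.card_cons, Nat.cast_add, Nat.cast_one]
    have h3 : Real.log ‖a‖ + (S.map fun z => Real.log ‖z‖).sum - ((S.card : ℝ) + 1) * c =
        (Real.log ‖a‖ - c) + ((S.map fun z => Real.log ‖z‖).sum - (S.card : ℝ) * c) := by ring
    rw [h3]
    refine (abs_add_le _ _).trans ?_
    linarith

private theorem cb_log (S : Multiset ℂ) (h : ‖S.prod‖ = 1) :
    (S.map fun z => Real.log ‖z‖).sum = 0 := by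
  have h1 : (S.map fun z => ‖z‖).prod = 1 := by
    rw [← h]
    exact (map_multiset_prod (normHom : ℂ →*₀ ℝ) S).symm
  have h2 : ∀ x ∈ S.map (fun z => ‖z‖), x ≠ 0 := by
    intro x hx h0
    rw [h0] at hx
    rw [Multiset.prod_eq_zero hx] at h1
    exact zero_ne_one h1
  have h3 := Real.log_multiset_prod h2
  rw [h1, Real.log_one, Multiset.map_map] at h3
  exact h3.symm

theorem irr_return (hd : 2 ≤ d) (I : Finset (Fin d)) (hI : I.card.Coprime d) {m : ℕ} (hm : 1 ≤ m)
    (E : Matrix (Fin d) (Fin d) ℝ) (hE : ∀ i j, |E i j| < 1 / (8 * (d : ℝ) ^ 2))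
    (hE0 : ∀ a ∈ I, ∀ b, b ∉ I → E a b = 0) {y : Matrix (Fin d) (Fin d) ℝ} (hy : y.det ≠ 0)
    (U : (Matrix (Fin d) (Fin d) ℤ)ˣ)
    (h : y * im (U : Matrix (Fin d) (Fin d) ℤ) = diagonal (flow I (-m)) * ((1 + E) * y)) :
    Irreducible ((U : Matrix (Fin d) (Fin d) ℤ).map (Int.cast : ℤ → ℚ)).charpoly := by
  classical
  obtain ⟨T, hT⟩ : ∃ T : Matrix (Fin d) (Fin d) ℝ, T = diagonal (flow I (-m)) * (1 + E) :=
    ⟨_, rfl⟩
  have hTy : y * im (U : Matrix (Fin d) (Fin d) ℤ) = T * y := by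
    rw [h, hT, Matrix.mul_assoc]
  have hyu : IsUnit y.det := isUnit_iff_ne_zero.2 hy
  have hyy : y⁻¹ * y = 1 := Matrix.nonsing_inv_mul y hyu
  have hyy' : y * y⁻¹ = 1 := Matrix.mul_nonsing_inv y hyu
  have hchar : (im (U : Matrix (Fin d) (Fin d) ℤ)).charpoly = T.charpoly := by
    have h1 : im (U : Matrix (Fin d) (Fin d) ℤ) = y⁻¹ * (T * y) := by
      rw [← hTy, ← Matrix.mul_assoc, hyy, Matrix.one_mul]
    rw [h1, Matrix.charpoly_mul_comm, Matrix.mul_assoc, hyy', Matrix.mul_one]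
  obtain ⟨A, B, hAB, hA, hB, hAl, hBl⟩ := roots_split (by omega) I hm E hE hE0
  rw [← hT] at hAB
  obtain ⟨f, hf⟩ : ∃ f : ℤ[X], f = (U : Matrix (Fin d) (Fin d) ℤ).charpoly := ⟨_, rfl⟩
  have hfm : f.Monic := by
    rw [hf]
    exact Matrix.charpoly_monic _
  have hfd : f.natDegree = d := by
    rw [hf, Matrix.charpoly_natDegree_eq_dim, Fintype.card_fin]
  have hfC : (f.map (Int.castRingHom ℂ)).roots = A + B := by
    rw [← hAB]
    have h1 : (T.map (algebraMap ℝ ℂ)).charpoly = T.charpoly.map (algebraMap ℝ ℂ) :=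
      Matrix.charpoly_map T (algebraMap ℝ ℂ)
    have h2 : (im (U : Matrix (Fin d) (Fin d) ℤ)).charpoly = f.map (Int.castRingHom ℝ) := by
      rw [hf]
      exact Matrix.charpoly_map _ (Int.castRingHom ℝ)
    rw [h1, ← hchar, h2, Polynomial.map_map]
    congr 2
  have hf0 : IsUnit (f.coeff 0) := by
    have h1 := Matrix.det_eq_sign_charpoly_coeff (U : Matrix (Fin d) (Fin d) ℤ)
    rw [← hf] at h1
    have h2 := isUnit_det_unit U
    rw [h1] at h2
    exact isUnit_of_mul_isUnit_right h2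
  have hQ : ((U : Matrix (Fin d) (Fin d) ℤ).map (Int.cast : ℤ → ℚ)).charpoly =
      f.map (algebraMap ℤ ℚ) := by
    rw [hf]
    exact Matrix.charpoly_map _ (Int.castRingHom ℚ)
  rw [hQ, ← hfm.irreducible_iff_irreducible_map_fraction_map, hfm.irreducible_iff_natDegree']
  refine ⟨?_, ?_⟩
  · intro h1
    rw [h1, natDegree_one] at hfd
    omega
  · intro g r hg hr hgr hdeg
    rw [hfd, Finset.mem_Ioc] at hdeg
    have hr0 : IsUnit (r.coeff 0) := by
      have h1 : g.coeff 0 * r.coeff 0 = f.coeff 0 := by rw [← Polynomial.mul_coeff_zero, hgr]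
      rw [← h1] at hf0
      exact isUnit_of_mul_isUnit_right hf0
    obtain ⟨S, hS⟩ : ∃ S, S = (r.map (Int.castRingHom ℂ)).roots := ⟨_, rfl⟩
    have hrm : (r.map (Int.castRingHom ℂ)).Monic := hr.map _
    have hsp : (r.map (Int.castRingHom ℂ)).Splits := IsAlgClosed.splits _
    have hSc : S.card = r.natDegree := by
      rw [hS, ← hsp.natDegree_eq_card_roots, hr.natDegree_map]
    have hSle : S ≤ A + B := by
      rw [hS, ← hfC]
      refine Polynomial.roots.le_of_dvd (hfm.map _).ne_zero ?_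
      rw [← hgr, Polynomial.map_mul]
      exact dvd_mul_left _ _
    have hSn : ‖S.prod‖ = 1 := by
      have h1 := hsp.coeff_zero_eq_prod_roots_of_monic hrm
      rw [← hS, Polynomial.coeff_map] at h1
      have h2 : ‖(Int.castRingHom ℂ) (r.coeff 0)‖ = 1 := by
        rcases Int.isUnit_iff.1 hr0 with h3 | h3 <;> rw [h3] <;> simp
      rw [h1, norm_mul, norm_pow, norm_neg, norm_one, one_pow, one_mul] at h2
      exact h2
    have hlog := cb_log S hSn
    have hsplit : S = (S - A) + (S ∩ A) := (Multiset.sub_add_inter S A).symm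
    have hB' : S - A ≤ B := by
      rw [Multiset.sub_le_iff_le_add, add_comm]
      exact hSle
    have hA' : S ∩ A ≤ A := Multiset.inter_le_right
    have h1 := cb_sum (-(m * ((d : ℝ) - I.card))) (1 / (4 * d)) (S ∩ A) fun z hz => by
      rw [sub_neg_eq_add]
      exact hAl z (Multiset.mem_of_le hA' hz)
    have h2 := cb_sum (m * (I.card : ℝ)) (1 / (4 * d)) (S - A) fun z hz =>
      hBl z (Multiset.mem_of_le hB' hz)
    rw [hsplit, Multiset.map_add, Multiset.sum_add] at hlog
    have hcard : (S - A).card + (S ∩ A).card = r.natDegree := by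
      rw [← Multiset.card_add, ← hsplit, hSc]
    obtain ⟨k1, hk1⟩ : ∃ k1, k1 = (S ∩ A).card := ⟨_, rfl⟩
    obtain ⟨k2, hk2⟩ : ∃ k2, k2 = (S - A).card := ⟨_, rfl⟩
    rw [← hk1] at h1 hcard
    rw [← hk2] at h2 hcard
    have hdR : (0 : ℝ) < d := by
      have : 0 < d := by omega
      exact_mod_cast this
    have h3 : |(m : ℝ) * ((k2 : ℝ) * I.card - k1 * ((d : ℝ) - I.card))| ≤
        ((k1 : ℝ) + k2) * (1 / (4 * d)) := by
      have h4 := abs_add_le ((Multiset.map (fun z => Real.log ‖z‖) (S ∩ A)).sum -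
        (k1 : ℝ) * -(m * ((d : ℝ) - I.card))) ((Multiset.map (fun z => Real.log ‖z‖) (S - A)).sum -
        (k2 : ℝ) * (m * (I.card : ℝ)))
      have h5 : (Multiset.map (fun z => Real.log ‖z‖) (S ∩ A)).sum -
          (k1 : ℝ) * -(m * ((d : ℝ) - I.card)) + ((Multiset.map (fun z => Real.log ‖z‖) (S - A)).sum -
          (k2 : ℝ) * (m * (I.card : ℝ))) =
          -((m : ℝ) * ((k2 : ℝ) * I.card - k1 * ((d : ℝ) - I.card))) := by
        linear_combination hlog
      rw [h5, abs_neg] at h4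
      linarith
    have hk : (k1 : ℝ) + k2 < d := by
      have : k1 + k2 < d := by omega
      exact_mod_cast this
    have h4 : ((k1 : ℝ) + k2) * (1 / (4 * d)) < 1 := by
      rw [mul_one_div, div_lt_one (by positivity)]
      linarith
    -- the integer vanishes
    obtain ⟨N, hN⟩ : ∃ N : ℤ, N = (k2 : ℤ) * I.card - k1 * ((d : ℤ) - I.card) := ⟨_, rfl⟩
    have hNR : ((m : ℤ) * N : ℤ) = ((m : ℝ) * ((k2 : ℝ) * I.card - k1 * ((d : ℝ) - I.card))) := by
      rw [hN]
      push_cast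
      ring
    have h5 : |(((m : ℤ) * N : ℤ) : ℝ)| < 1 := by
      rw [hNR]
      exact lt_of_le_of_lt h3 h4
    have h6 : (m : ℤ) * N = 0 := by
      rw [← Int.cast_abs] at h5
      have h7 : |(m : ℤ) * N| < 1 := by exact_mod_cast h5
      exact Int.abs_lt_one_iff.1 h7
    have h7 : N = 0 := by
      rcases mul_eq_zero.1 h6 with h8 | h8
      · omega
      · exact h8
    rw [hN] at h7
    have h8 : (I.card : ℤ) * (r.natDegree : ℤ) = d * k1 := by
      rw [← hcard]
      push_cast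
      linarith
    have h9 : I.card * r.natDegree = d * k1 := by exact_mod_cast h8
    have h10 : d ∣ r.natDegree := by
      have h11 : d ∣ I.card * r.natDegree := ⟨k1, h9⟩
      exact (Nat.Coprime.dvd_of_dvd_mul_left hI.symm h11)
    have h11 := Nat.le_of_dvd hdeg.1 h10
    omega

end Pool.Agent.H46.RG
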