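import Pool.Agent.H46.RG.Comp

/-!
# Ret: close returns of the block flow

Take `h ∈ Z`, `z n = diagonal (flow I n) * h ∈ Z` and `subseq`: `z (φ n) * im (U n) → w ∈ Z`.
For `k < n` large, `y = z (φ k) * im (U k)` and `y' = z (φ n) * im (U n)` are both in `Z` and near `w`;
with `E = y' * y⁻¹ - 1` we have `y' = (1 + E) * y` and `E` is small (the inverse is continuous at `w`,
`det w ≠ 0`, `continuousAt_inv` in `H89.CSD.Return`).  With `m = φ n - φ k ≥ 1` and `U = U k ⁻¹ * U n`: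
`diagonal (flow I m) * (y * im U) = (1 + E) * y` (`flow_add`), i.e.
`y * im U = diagonal (flow I (-m)) * ((1 + E) * y)`.
-/

set_option autoImplicit false

namespace Pool.Agent.H46.RG

open Matrix Filter Topology Pool.Agent.H89.CSD

variable {d : ℕ}

theorem ret {g : Matrix (Fin d) (Fin d) ℝ} (hg : g.det ≠ 0) {c : ℝ} (hc : 0 < c)
    (hp : Pos c g) (I : Finset (Fin d)) {Z : Set (Matrix (Fin d) (Fin d) ℝ)}
    (hZ : Z ⊆ Om g) (hinv : IsInv (Flow I) Z) {δ : ℝ} (hδ : 0 < δ) :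
    ∃ y ∈ Z, ∃ E : Matrix (Fin d) (Fin d) ℝ, (∀ i j, |E i j| < δ) ∧ (1 + E) * y ∈ Z ∧
      ∃ (m : ℕ) (U : (Matrix (Fin d) (Fin d) ℤ)ˣ), 1 ≤ m ∧
        y * im (U : Matrix (Fin d) (Fin d) ℤ) = diagonal (flow I (-m)) * ((1 + E) * y) := by
  obtain ⟨h, hh⟩ := hinv.nonempty
  obtain ⟨z, hz⟩ : ∃ z : ℕ → Matrix (Fin d) (Fin d) ℝ, z = fun n : ℕ => diagonal (flow I (n : ℝ)) * h :=
    ⟨_, rfl⟩
  have hzZ : ∀ n, z n ∈ Z := fun n => by
    rw [hz]
    exact hinv.diag _ ⟨(n : ℝ), rfl⟩ h hh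
  obtain ⟨w, hw, φ, U, hφ, hlim⟩ := subseq hg hc hp hZ hinv z hzZ
  obtain ⟨y, hy⟩ : ∃ y : ℕ → Matrix (Fin d) (Fin d) ℝ,
    y = fun n => z (φ n) * im (U n : Matrix (Fin d) (Fin d) ℤ) := ⟨_, rfl⟩
  have hyZ : ∀ n, y n ∈ Z := fun n => by
    rw [hy]
    exact hinv.im (hzZ _) (U n)
  have hydet0 : ∀ n, (y n).det ≠ 0 := fun n => Om_det_ne hg (hZ (hyZ n))
  have hw0 : w.det ≠ 0 := Om_det_ne hg (hZ hw)
  have hlim' : Tendsto y atTop (𝓝 w) := by rw [hy]; exact hlim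
  obtain ⟨E, hE⟩ : ∃ E : ℕ → Matrix (Fin d) (Fin d) ℝ, E = fun n => y (n + 1) * (y n)⁻¹ - 1 :=
    ⟨_, rfl⟩
  have hEy : ∀ n, (1 + E n) * y n = y (n + 1) := by
    intro n
    rw [hE]
    show (1 + (y (n + 1) * (y n)⁻¹ - 1)) * y n = y (n + 1)
    rw [add_sub_cancel, Matrix.mul_assoc, Matrix.nonsing_inv_mul _
      (isUnit_iff_ne_zero.2 (hydet0 n)), Matrix.mul_one]
  have hElim : Tendsto E atTop (𝓝 0) := by
    have h1 : Tendsto (fun n => (y n)⁻¹) atTop (𝓝 w⁻¹) :=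
      (continuousAt_inv hw0).tendsto.comp hlim'
    have h2 : Tendsto (fun n => y (n + 1)) atTop (𝓝 w) := hlim'.comp (tendsto_add_atTop_nat 1)
    have h3 := (h2.mul h1).sub (tendsto_const_nhds (x := (1 : Matrix (Fin d) (Fin d) ℝ)))
    rw [Matrix.mul_nonsing_inv _ (isUnit_iff_ne_zero.2 hw0), sub_self] at h3
    rw [hE]
    exact h3
  have hsmall : ∀ᶠ n in atTop, ∀ i j : Fin d, |E n i j| < δ := by
    rw [eventually_all]
    intro i
    rw [eventually_all]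
    intro j
    have h1 : Tendsto (fun n => |E n i j|) atTop (𝓝 |(0 : Matrix (Fin d) (Fin d) ℝ) i j|) :=
      (((continuous_id.matrix_elem i j).tendsto (0 : Matrix (Fin d) (Fin d) ℝ)).comp hElim).abs
    rw [Matrix.zero_apply, abs_zero] at h1
    exact h1.eventually (gt_mem_nhds hδ)
  obtain ⟨n, hn⟩ := hsmall.exists
  have hlt : φ n < φ (n + 1) := hφ (Nat.lt_succ_self n)
  refine ⟨y n, hyZ n, E n, hn, ?_, φ (n + 1) - φ n, (U n)⁻¹ * U (n + 1), by omega, ?_⟩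
  · rw [hEy]
    exact hyZ _
  · rw [hEy]
    have e1 : im (((U n)⁻¹ * U (n + 1) : (Matrix (Fin d) (Fin d) ℤ)ˣ) :
        Matrix (Fin d) (Fin d) ℤ) =
        im (((U n)⁻¹ : (Matrix (Fin d) (Fin d) ℤ)ˣ) : Matrix (Fin d) (Fin d) ℤ) *
          im (U (n + 1) : Matrix (Fin d) (Fin d) ℤ) := by
      rw [Units.val_mul, im_mul]
    have e2 : im (U n : Matrix (Fin d) (Fin d) ℤ) *
        im (((U n)⁻¹ : (Matrix (Fin d) (Fin d) ℤ)ˣ) : Matrix (Fin d) (Fin d) ℤ) = 1 := by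
      rw [← im_mul, Units.mul_inv, im_one]
    have e3 : diagonal (flow I (-((φ (n + 1) - φ n : ℕ) : ℝ))) * diagonal (flow I (φ (n + 1))) =
        diagonal (flow I (φ n)) := by
      rw [Matrix.diagonal_mul_diagonal]
      congr 1
      funext i
      rw [← flow_add]
      congr 1
      rw [Nat.cast_sub hlt.le]
      ring
    have e4 : ∀ k, y k = diagonal (flow I (φ k)) * h * im (U k : Matrix (Fin d) (Fin d) ℤ) := by
      intro k
      rw [hy, hz]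
    rw [e1, e4 n, e4 (n + 1), ← Matrix.mul_assoc, Matrix.mul_assoc (diagonal (flow I (φ n)) * h),
      e2, Matrix.mul_one, Matrix.mul_assoc (diagonal (flow I (φ (n + 1)))), ← Matrix.mul_assoc,
      e3, Matrix.mul_assoc]

end Pool.Agent.H46.RG
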