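import Pool.Agent.H46.RG.Mag
import Pool.Agent.H46.RG.Ret
import Pool.Agent.H46.RG.CharB

/-!
# Sth: theorem S, shear pairs for every block flow

`near_int`: if `y ∈ Om g` is the product of an integral form (up to a factor), so is `g`.  Let
`h n = diag (a n) g γ n → y` with `|∏ a n| → 1`.  Then `Pos (c / 2) (h n)` for large `n`, `Pos (c / 2) y`, and
`H89.CSD.isolation` gives `h n = diagonal e * y` for some `n`; `y` has `HasT y` (`hasT_of_intForm`), so
`h n` has it (rows are multiples), hence `g` (rows of `g` are multiples of rows of `h n * im γ⁻¹`; see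
`eigen_transport` in `H89.CSD.Iso`), and `HasT.intForm` gives the claim.

`block_shear` (theorem S): `gcd (|I|, d) = 1`, `Z` invariant under the flow of `I`: there are `z ∈ Z`,
`v ≠ 0`, `Blk I v`, `(1 + v) z ∈ Z`, unless `g` is integral.  Otherwise take `δ` from `mag` and
`δ' = min δ (1 / (8 d ^ 2))` in `ret`: `y, E, m, U`; `E a b = 0` for `a ∈ I`, `b ∉ I`; `irr_return` gives an
irreducible characteristic polynomial; `H46.field_of_matrix` gives `K, Ψ, θ` with `Ψ θ = U`, and
`H46.main_K` applies to `y` (for `i ∈ I` row `i` of `y * im U` is a combination of the rows of `y` in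
`I`, because `E i b = 0` for `b ∉ I`): all rows of `y` are eigenvectors of `im U` with distinct
eigenvalues, `HasT y`; so `y` is integral and `near_int` gives that `g` is integral.
-/

set_option autoImplicit false

namespace Pool.Agent.H46.RG

open Matrix Filter Topology Pool.Agent.H89.CSD

variable {d : ℕ}

/-- Row `i` of a product with a matrix on the left. -/
private theorem mul_row (M y : Matrix (Fin d) (Fin d) ℝ) (i : Fin d) :
    (M * y) i = ∑ j, M i j • y j := by
  ext k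
  rw [Matrix.mul_apply, Finset.sum_apply]
  rfl

theorem near_int (hd : 3 ≤ d) {g : Matrix (Fin d) (Fin d) ℝ} (hg : g.det ≠ 0) {c : ℝ} (hc : 0 < c)
    (hp : Pos c g) {y : Matrix (Fin d) (Fin d) ℝ} (hy : y ∈ Om g) (hi : HasT y) : IntForm g := by
  have hy0 : y.det ≠ 0 := Om_det_ne hg hy
  have hpy : Pos c y := Om_pos hg hc hp hy
  have hpy2 : Pos (c / 2) y := fun x hx => le_trans (by linarith) (hpy x hx)
  have hint : IntForm y := hi.intForm hy0
  have hiso := isolation hd (half_pos hc) hy0 hpy2 hint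
  have hdet : ∀ᶠ z : Matrix (Fin d) (Fin d) ℝ in 𝓝 y, |g.det| / 2 < |z.det| := by
    have h1 : Tendsto (fun z : Matrix (Fin d) (Fin d) ℝ => |z.det|) (𝓝 y) (𝓝 |y.det|) :=
      ((continuous_id.matrix_det).abs).tendsto y
    apply h1.eventually (lt_mem_nhds _)
    rw [hy.2]
    exact half_lt_self (abs_pos.2 hg)
  rw [eventually_inf_principal] at hiso
  obtain ⟨z, hz, hzO⟩ := mem_closure_iff_nhds.1 hy.1 _ (hiso.and hdet)
  obtain ⟨hz1, hz2⟩ := hz
  obtain ⟨a, -, γ, hγ, hzeq⟩ := hzO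
  obtain ⟨U, hU⟩ := exists_unit hγ
  have hzeq' : z = diagonal a * g * im (U : Matrix (Fin d) (Fin d) ℤ) := by
    rw [hU]; exact hzeq
  have hdz : |z.det| = |∏ i, a i| * |g.det| := by
    rw [hzeq', Matrix.det_mul, Matrix.det_mul, Matrix.det_diagonal, abs_mul, abs_mul,
      abs_det_im_unit, mul_one]
  have hgp : 0 < |g.det| := abs_pos.2 hg
  have hprod : 1 / 2 < |∏ i, a i| := by
    rw [hdz] at hz2
    by_contra hcon
    have h1 := mul_le_mul_of_nonneg_right (not_lt.1 hcon) hgp.le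
    linarith
  have ha : ∀ i, a i ≠ 0 := by
    intro i h0
    have h1 : ∏ i, a i = 0 := Finset.prod_eq_zero (Finset.mem_univ i) h0
    rw [h1, abs_zero] at hprod
    linarith
  have hzpos : Pos (c / 2) z := by
    intro x hx
    have hdU : ((U : Matrix (Fin d) (Fin d) ℤ)).det ≠ 0 := (isUnit_det_unit U).ne_zero
    have h1 := hp _ (mulVec_ne hdU hx)
    rw [hzeq', P_mul_im, P_diag_mul, abs_mul]
    calc c / 2 = 1 / 2 * c := by ring
      _ ≤ |∏ i, a i| * |P g (ic ((U : Matrix (Fin d) (Fin d) ℤ) *ᵥ x))| :=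
        mul_le_mul hprod.le h1 hc.le (abs_nonneg _)
  obtain ⟨e, he⟩ := hz1 hzpos
  have hUU : im (U : Matrix (Fin d) (Fin d) ℤ) *
      im ((U⁻¹ : (Matrix (Fin d) (Fin d) ℤ)ˣ) : Matrix (Fin d) (Fin d) ℤ) = 1 := by
    rw [← im_mul, Units.mul_inv, im_one]
  have haa : diagonal (fun i => (a i)⁻¹) * diagonal a = (1 : Matrix (Fin d) (Fin d) ℝ) := by
    rw [Matrix.diagonal_mul_diagonal, ← Matrix.diagonal_one]
    congr 1
    ext i
    exact inv_mul_cancel₀ (ha i)
  have hgy : g = diagonal (fun i => (a i)⁻¹ * e i) * y *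
      im ((U⁻¹ : (Matrix (Fin d) (Fin d) ℤ)ˣ) : Matrix (Fin d) (Fin d) ℤ) := by
    calc g = (diagonal (fun i => (a i)⁻¹) * diagonal a) * g *
          (im (U : Matrix (Fin d) (Fin d) ℤ) *
            im ((U⁻¹ : (Matrix (Fin d) (Fin d) ℤ)ˣ) : Matrix (Fin d) (Fin d) ℤ)) := by
          rw [haa, hUU, Matrix.one_mul, Matrix.mul_one]
      _ = diagonal (fun i => (a i)⁻¹) * (diagonal a * g * im (U : Matrix (Fin d) (Fin d) ℤ)) *
            im ((U⁻¹ : (Matrix (Fin d) (Fin d) ℤ)ˣ) : Matrix (Fin d) (Fin d) ℤ) := by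
          simp only [Matrix.mul_assoc]
      _ = diagonal (fun i => (a i)⁻¹) * (diagonal e * y) *
            im ((U⁻¹ : (Matrix (Fin d) (Fin d) ℤ)ˣ) : Matrix (Fin d) (Fin d) ℤ) := by
          rw [← hzeq', he]
      _ = _ := by
          rw [← Matrix.mul_assoc, Matrix.diagonal_mul_diagonal]
  obtain ⟨T, lam, hlam, hT⟩ := hi
  have hTg : HasT g := by
    rw [hgy]
    exact ⟨_, lam, hlam, eigen_transport hT _ (U⁻¹)⟩
  exact hTg.intForm hg

theorem block_shear (hd : 3 ≤ d) {g : Matrix (Fin d) (Fin d) ℝ} (hg : g.det ≠ 0) {c : ℝ}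
    (hc : 0 < c) (hp : Pos c g) (hn : ¬ IntForm g) (I : Finset (Fin d)) (hI : I.card.Coprime d)
    {Z : Set (Matrix (Fin d) (Fin d) ℝ)} (hZ : Z ⊆ Om g) (hinv : IsInv (Flow I) Z) :
    ∃ z ∈ Z, ∃ v : Matrix (Fin d) (Fin d) ℝ, v ≠ 0 ∧ Blk I v ∧ (1 + v) * z ∈ Z := by
  by_contra hcon
  have hno : ∀ z ∈ Z, ∀ v : Matrix (Fin d) (Fin d) ℝ, v ≠ 0 → Blk I v → (1 + v) * z ∉ Z := by
    intro z hz v hv hb hm
    exact hcon ⟨z, hz, v, hv, hb, hm⟩
  obtain ⟨δ, hδ, hmag⟩ := mag hg hc hp I hZ hinv hno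
  have hdr : (0 : ℝ) < d := by
    have : 0 < d := by omega
    exact_mod_cast this
  have hδ' : 0 < min δ (1 / (8 * (d : ℝ) ^ 2)) := lt_min hδ (by positivity)
  obtain ⟨y, hyZ, E, hE, hEy, m, U, hm, hret⟩ := ret hg hc hp I hZ hinv hδ'
  have hE0 := hmag y hyZ E hEy fun i j => (hE i j).trans_le (min_le_left _ _)
  have hy0 : y.det ≠ 0 := Om_det_ne hg (hZ hyZ)
  have hpy : Pos c y := Om_pos hg hc hp (hZ hyZ)
  have hirr := irr_return (by omega) I hI hm E
    (fun i j => (hE i j).trans_le (min_le_right _ _)) hE0 hy0 U hret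
  obtain ⟨K, _, _, Ψ, θ, hK, hΨ, hθ⟩ := Pool.Agent.H46.field_of_matrix d _ hirr
  have hcast : (Ψ θ).map (Rat.cast : ℚ → ℝ) = im (U : Matrix (Fin d) (Fin d) ℤ) := by
    rw [hΨ]
    ext i j
    simp [im]
  obtain ⟨lam, hlam, heig⟩ := Pool.Agent.H46.main_K d hd hK Ψ y hy0 I hI θ hθ
    (by
      intro i hi
      rw [hcast]
      have h1 : vecMul (y i) (im (U : Matrix (Fin d) (Fin d) ℤ)) =
          (y * im (U : Matrix (Fin d) (Fin d) ℤ)) i := by
        ext k
        rw [Matrix.mul_apply]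
        rfl
      rw [h1, hret]
      have h2 : (diagonal (flow I (-(m : ℝ))) * ((1 + E) * y)) i =
          flow I (-(m : ℝ)) i • ∑ j, (1 + E) i j • y j := by
        rw [← mul_row]
        ext k
        rw [Matrix.diagonal_mul]
        rfl
      rw [h2]
      apply Submodule.smul_mem
      apply Submodule.sum_mem
      intro j _
      by_cases hj : j ∈ I
      · apply Submodule.smul_mem
        apply Submodule.subset_span
        exact ⟨j, hj, rfl⟩
      · have hij : i ≠ j := fun h => hj (h ▸ hi)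
        have h3 : (1 + E) i j = 0 := by
          rw [Matrix.add_apply, Matrix.one_apply_ne hij, hE0 i hi j hj, add_zero]
        rw [h3, zero_smul]
        exact Submodule.zero_mem _) c hc hpy
  rw [hcast] at heig
  exact hn (near_int hd hg hc hp (hZ hyZ) ⟨_, lam, hlam, heig⟩)

end Pool.Agent.H46.RG
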