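import Pool.Agent.H46.RG.Comp

/-!
# Pur: purification of a shear pair

Let `z, (1 + v) z ∈ Y`, `Y` invariant under `A1`, `v p k ≠ 0`, `p ≠ k`, and let `x : Fin d → ℝ` satisfy
`x p = x k` and `x a < x b` for every other pair `(a, b)` with `v a b ≠ 0`.  Then
`z', (1 + s E_pk) z' ∈ Y` for some `z'` and `s = ±1`.
Proof.  Let `μ` be the mean of `x`, `y₀ = - log |v p k| / 2` at `p`, `+ log |v p k| / 2` at `k` and `0` elsewhere,
`a n i = exp (n (x i - μ) + y₀ i)`, which is in `A1`.  `diag (a n) (1 + v) = (1 + v n) diag (a n)` with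
`v n a b = exp (n (x a - x b) + y₀ a - y₀ b) v a b`, which tends to `0` for `(a, b) ≠ (p, k)` and is
`v p k / |v p k| = s` for `(a, b) = (p, k)`.  `subseq` for `diag (a n) z` gives `w ∈ Y` and `U n` with
`diag (a n) z im (U n) → w` along a subsequence; `(1 + v n) diag (a n) z im (U n) = diag (a n) (1 + v) z im (U n) ∈ Y`
tends to `(1 + s E_pk) w`.
`pur_col`, `pur_row`: `v` with nonzero entries only in the column `k` (rows `≠ k`): `x = 0` at `p, k`,
`x = -1` elsewhere.  Row `k`: `x = 0` at `k, p`, `1` elsewhere.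
-/

set_option autoImplicit false

namespace Pool.Agent.H46.RG

open Matrix Filter Topology Pool.Agent.H89.CSD

variable {d : ℕ}

theorem purify {g : Matrix (Fin d) (Fin d) ℝ} (hg : g.det ≠ 0) {c : ℝ} (hc : 0 < c)
    (hp : Pos c g) {Y : Set (Matrix (Fin d) (Fin d) ℝ)} (hY : Y ⊆ Om g) (hinv : IsInv (A1 d) Y)
    {z v : Matrix (Fin d) (Fin d) ℝ} (hz : z ∈ Y) (hz' : (1 + v) * z ∈ Y) {p k : Fin d}
    (hpk : p ≠ k) (hv : v p k ≠ 0) (x : Fin d → ℝ) (hx : x p = x k)
    (hx' : ∀ a b, v a b ≠ 0 → (a = p ∧ b = k) ∨ x a < x b) :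
    ∃ z' ∈ Y, ∃ s : ℝ, |s| = 1 ∧ (1 + Matrix.single p k s) * z' ∈ Y := by
  classical
  have hd : (d : ℝ) ≠ 0 := by
    have : 0 < d := lt_of_le_of_lt (Nat.zero_le _) p.isLt
    exact_mod_cast this.ne'
  obtain ⟨μ, hμ⟩ : ∃ μ : ℝ, ∑ i, (x i - μ) = 0 := by
    refine ⟨(∑ i, x i) / d, ?_⟩
    rw [Finset.sum_sub_distrib, Finset.sum_const, Finset.card_univ, Fintype.card_fin,
      nsmul_eq_mul, mul_div_cancel₀ _ hd, sub_self]
  set ℓ : ℝ := Real.log |v p k| / 2 with hℓ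
  obtain ⟨y, hy⟩ : ∃ y : Fin d → ℝ,
      y = fun i => (if i = k then ℓ else 0) - (if i = p then ℓ else 0) := ⟨_, rfl⟩
  have hysum : ∑ i, y i = 0 := by
    rw [hy, Finset.sum_sub_distrib, Finset.sum_ite_eq', Finset.sum_ite_eq']
    simp
  have hyp : y p = -ℓ := by rw [hy]; simp [hpk]
  have hyk : y k = ℓ := by rw [hy]; simp [Ne.symm hpk]
  obtain ⟨a, ha⟩ : ∃ a : ℕ → Fin d → ℝ,
      a = fun (n : ℕ) (i : Fin d) => Real.exp ((n : ℝ) * (x i - μ) + y i) := ⟨_, rfl⟩
  have haA : ∀ n, a n ∈ A1 d := by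
    intro n
    rw [ha]
    refine ⟨fun i => Real.exp_pos _, ?_⟩
    show ∏ i, Real.exp ((n : ℝ) * (x i - μ) + y i) = 1
    rw [← Real.exp_sum, Finset.sum_add_distrib, ← Finset.mul_sum, hμ, hysum, mul_zero, add_zero,
      Real.exp_zero]
  obtain ⟨w, hw⟩ : ∃ w : ℕ → Matrix (Fin d) (Fin d) ℝ, w = fun (n : ℕ) => Matrix.of fun i j =>
      Real.exp ((n : ℝ) * (x i - x j) + (y i - y j)) * v i j := ⟨_, rfl⟩
  have hconj : ∀ n, diagonal (a n) * (1 + v) = (1 + w n) * diagonal (a n) := by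
    intro n
    rw [Matrix.mul_add, Matrix.add_mul, Matrix.mul_one, Matrix.one_mul]
    congr 1
    ext i j
    rw [Matrix.diagonal_mul, Matrix.mul_diagonal, ha, hw]
    show Real.exp ((n : ℝ) * (x i - μ) + y i) * v i j =
      Real.exp ((n : ℝ) * (x i - x j) + (y i - y j)) * v i j *
        Real.exp ((n : ℝ) * (x j - μ) + y j)
    have h1 : Real.exp ((n : ℝ) * (x i - μ) + y i) =
        Real.exp ((n : ℝ) * (x i - x j) + (y i - y j)) *
          Real.exp ((n : ℝ) * (x j - μ) + y j) := by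
      rw [← Real.exp_add]
      congr 1
      ring
    rw [h1]
    ring
  have hvp : 0 < |v p k| := abs_pos.2 hv
  have hs : abs (v p k / |v p k|) = 1 := by
    rw [abs_div, abs_abs, div_self hvp.ne']
  have hwlim : Tendsto w atTop (𝓝 (Matrix.single p k (v p k / |v p k|))) := by
    refine tendsto_pi_nhds.2 fun i => tendsto_pi_nhds.2 fun j => ?_
    rw [hw]
    show Tendsto (fun n : ℕ => Real.exp ((n : ℝ) * (x i - x j) + (y i - y j)) * v i j) atTop
      (𝓝 (Matrix.single p k (v p k / |v p k|) i j))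
    by_cases hij : p = i ∧ k = j
    · obtain ⟨rfl, rfl⟩ := hij
      rw [Matrix.single_apply_same, hx, hyp, hyk]
      have h1 : ∀ n : ℕ, Real.exp ((n : ℝ) * (x k - x k) + (-ℓ - ℓ)) * v p k =
          v p k / |v p k| := by
        intro n
        have h2 : (n : ℝ) * (x k - x k) + (-ℓ - ℓ) = -Real.log |v p k| := by
          rw [hℓ]; ring
        rw [h2, Real.exp_neg, Real.exp_log hvp, mul_comm, div_eq_mul_inv]
      simp only [h1]
      exact tendsto_const_nhds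
    · rw [Matrix.single_apply, if_neg hij]
      by_cases h0 : v i j = 0
      · simp only [h0, mul_zero]
        exact tendsto_const_nhds
      · have hlt : x i < x j := by
          rcases hx' i j h0 with h | h
          · exact absurd ⟨h.1.symm, h.2.symm⟩ hij
          · exact h
        have h1 : Tendsto (fun n : ℕ => (n : ℝ) * (x i - x j) + (y i - y j)) atTop atBot := by
          apply tendsto_atBot_add_const_right
          exact tendsto_natCast_atTop_atTop.atTop_mul_const_of_neg (by linarith)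
        have h2 := (Real.tendsto_exp_atBot.comp h1).mul_const (v i j)
        rw [zero_mul] at h2
        exact h2
  obtain ⟨z', hz'Y, φ, U, hφ, hlim⟩ := subseq hg hc hp hY hinv (fun n => diagonal (a n) * z)
    (fun n => hinv.diag _ (haA n) _ hz)
  refine ⟨z', hz'Y, v p k / |v p k|, hs, ?_⟩
  have hlim2 : Tendsto (fun n => (1 + w (φ n)) * (diagonal (a (φ n)) * z *
      im (U n : Matrix (Fin d) (Fin d) ℤ))) atTop
      (𝓝 ((1 + Matrix.single p k (v p k / |v p k|)) * z')) := by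
    have h1 : Tendsto (fun n => 1 + w (φ n)) atTop
        (𝓝 (1 + Matrix.single p k (v p k / |v p k|))) :=
      tendsto_const_nhds.add (hwlim.comp hφ.tendsto_atTop)
    exact h1.mul hlim
  refine hinv.closed.mem_of_tendsto hlim2 (Filter.Eventually.of_forall fun n => ?_)
  have h1 : (1 + w (φ n)) * (diagonal (a (φ n)) * z * im (U n : Matrix (Fin d) (Fin d) ℤ)) =
      diagonal (a (φ n)) * ((1 + v) * z) * im (U n : Matrix (Fin d) (Fin d) ℤ) := by
    rw [← Matrix.mul_assoc, ← Matrix.mul_assoc, ← hconj, Matrix.mul_assoc (diagonal (a (φ n)))]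
  rw [h1]
  exact hinv.im (hinv.diag _ (haA _) _ hz') (U n)

theorem pur_col {g : Matrix (Fin d) (Fin d) ℝ} (hg : g.det ≠ 0) {c : ℝ} (hc : 0 < c)
    (hp : Pos c g) {Y : Set (Matrix (Fin d) (Fin d) ℝ)} (hY : Y ⊆ Om g) (hinv : IsInv (A1 d) Y)
    {z v : Matrix (Fin d) (Fin d) ℝ} (hz : z ∈ Y) (hz' : (1 + v) * z ∈ Y) {p k : Fin d}
    (hv : v p k ≠ 0) (hcol : ∀ a b, v a b ≠ 0 → a ≠ k ∧ b = k) :
    ∃ z' ∈ Y, ∃ s : ℝ, |s| = 1 ∧ (1 + Matrix.single p k s) * z' ∈ Y := by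
  classical
  have hpk : p ≠ k := (hcol p k hv).1
  refine purify hg hc hp hY hinv hz hz' hpk hv (fun i => if i = p ∨ i = k then 0 else -1)
    (by simp) ?_
  intro a b hab
  obtain ⟨h1, h2⟩ := hcol a b hab
  subst h2
  by_cases ha : a = p
  · exact Or.inl ⟨ha, rfl⟩
  · right
    simp [ha, h1]

theorem pur_row {g : Matrix (Fin d) (Fin d) ℝ} (hg : g.det ≠ 0) {c : ℝ} (hc : 0 < c)
    (hp : Pos c g) {Y : Set (Matrix (Fin d) (Fin d) ℝ)} (hY : Y ⊆ Om g) (hinv : IsInv (A1 d) Y)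
    {z v : Matrix (Fin d) (Fin d) ℝ} (hz : z ∈ Y) (hz' : (1 + v) * z ∈ Y) {k p : Fin d}
    (hv : v k p ≠ 0) (hrow : ∀ a b, v a b ≠ 0 → a = k ∧ b ≠ k) :
    ∃ z' ∈ Y, ∃ s : ℝ, |s| = 1 ∧ (1 + Matrix.single k p s) * z' ∈ Y := by
  classical
  have hpk : k ≠ p := fun h => (hrow k p hv).2 h.symm
  refine purify hg hc hp hY hinv hz hz' hpk hv (fun i => if i = p ∨ i = k then 0 else 1)
    (by simp) ?_
  intro a b hab
  obtain ⟨h1, h2⟩ := hrow a b hab
  subst h1
  by_cases hb : b = p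
  · exact Or.inl ⟨rfl, hb⟩
  · right
    simp [hb, h2]

end Pool.Agent.H46.RG
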