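import Pool.Agent.H46.RG.Sth
import Pool.Agent.H46.RG.Pur

/-!
# Act: an active root which avoids a given index

Let `Y ⊆ Om g` be invariant under `A1`, `g` not integral, `m` an index, `d ≥ 3`.  There are `i ≠ j`, both
different from `m`, `z ∈ Y`, `s = ±1` with `(1 + s E_ij) z ∈ Y`.

Proof.  Let `k ≠ m`.  `block_shear` for `I = {k}` (coprime: `|I| = 1`) and `Z = Y` (`IsInv.mono`,
`Flow_subset_A1`) gives `z, (1 + v) z ∈ Y`, `v ≠ 0`, `v a b ≠ 0 → a = k, b ≠ k`.  If `v k p ≠ 0` for some `p ≠ m`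
then `pur_row` gives the pair `(k, p)`.  Otherwise `v k m ≠ 0` and `pur_row` gives `z₁ ∈ Y`, `s = ±1` with
`u z₁ ∈ Y`, `u = 1 + s E_km`.  Let `B = {z ∈ Y : u z ∈ Y}`: `IsInv (Aij k m) B` (`u` commutes with
`diagonal a` when `a k = a m`).  Let `l` be different from `k` and `m`, and `I = univ \ {l}` (`|I| = d - 1` is
coprime to `d`).  `Flow I ⊆ Aij k m` (`Flow_subset_Aij`), so `block_shear` for `B` gives `z, (1 + v) z ∈ B`, `v ≠ 0`,
`v a b ≠ 0 → a ≠ l, b = l`.  If `v p l ≠ 0` for some `p ≠ m` then `pur_col` (for `Y`) gives the pair `(p, l)`.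
Otherwise `v = v m l • E_ml` with `v m l ≠ 0` and
`u (1 + v) z = (1 + v') (u z)` with `v' = v + s * v m l • E_kl` (compute: `u v = v + s E_km v`, `v E_km = 0`).
Both `u z` and `(1 + v') (u z)` are in `Y`, `v'` has only entries in the column `l`, and
`v' k l = s * v m l ≠ 0`: `pur_col` gives the pair `(k, l)`.
-/

set_option autoImplicit false

namespace Pool.Agent.H46.RG

open Matrix Filter Topology Pool.Agent.H89.CSD

variable {d : ℕ}

private theorem act_comm {k m : Fin d} (s : ℝ) (a : Fin d → ℝ) (ha : a k = a m) :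
    (1 + Matrix.single k m s) * diagonal a = diagonal a * (1 + Matrix.single k m s) := by
  rw [Matrix.add_mul, Matrix.mul_add, Matrix.one_mul, Matrix.mul_one]
  congr 1
  ext i j
  rw [Matrix.mul_diagonal, Matrix.diagonal_mul, Matrix.single_apply]
  split_ifs with h
  · obtain ⟨rfl, rfl⟩ := h
    rw [ha, mul_comm]
  · rw [zero_mul, mul_zero]

private theorem act_shear {k m l : Fin d} (hkl : k ≠ l) (s : ℝ)
    {v : Matrix (Fin d) (Fin d) ℝ} (hcol : ∀ a b, v a b ≠ 0 → a ≠ l ∧ b = l) :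
    (1 + Matrix.single k m s) * (1 + v) =
      (1 + (v + Matrix.single k l (s * v m l))) * (1 + Matrix.single k m s) := by
  have h1 : Matrix.single k m s * v = Matrix.single k l (s * v m l) := by
    ext i j
    rw [Matrix.mul_apply, Matrix.single_apply]
    by_cases hi : k = i
    · by_cases hj : l = j
      · subst hi hj
        rw [if_pos ⟨rfl, rfl⟩, Finset.sum_eq_single m]
        · rw [Matrix.single_apply_same]
        · intro b _ hb
          rw [Matrix.single_apply, if_neg (fun h => hb h.2.symm), zero_mul]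
        · intro h
          exact absurd (Finset.mem_univ m) h
      · rw [if_neg (fun h => hj h.2)]
        refine Finset.sum_eq_zero fun b _ => ?_
        have h2 : v b j = 0 := by
          by_contra h3
          exact hj (hcol b j h3).2.symm
        rw [h2, mul_zero]
    · rw [if_neg (fun h => hi h.1)]
      refine Finset.sum_eq_zero fun b _ => ?_
      rw [Matrix.single_apply, if_neg (fun h => hi h.1), zero_mul]
  have h2 : (v + Matrix.single k l (s * v m l)) * Matrix.single k m s = 0 := by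
    ext i j
    rw [Matrix.mul_apply, Matrix.zero_apply]
    refine Finset.sum_eq_zero fun b _ => ?_
    by_cases hb : k = b
    · have h3 : v i b = 0 := by
        by_contra h4
        exact hkl (hb.trans (hcol i b h4).2)
      rw [Matrix.add_apply, h3, Matrix.single_apply, if_neg (fun h => hkl (hb.trans h.2.symm)),
        add_zero, zero_mul]
    · rw [Matrix.single_apply, if_neg (fun h => hb h.1), mul_zero]
  have h3 : ∀ E w : Matrix (Fin d) (Fin d) ℝ, (1 + E) * (1 + w) = 1 + w + E + E * w := by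
    intro E w
    noncomm_ring
  rw [h3, h3, h1, h2]
  abel

theorem active (hd : 3 ≤ d) {g : Matrix (Fin d) (Fin d) ℝ} (hg : g.det ≠ 0) {c : ℝ}
    (hc : 0 < c) (hp : Pos c g) (hn : ¬ IntForm g) {Y : Set (Matrix (Fin d) (Fin d) ℝ)}
    (hY : Y ⊆ Om g) (hinv : IsInv (A1 d) Y) (m : Fin d) :
    ∃ i j : Fin d, i ≠ j ∧ i ≠ m ∧ j ≠ m ∧
      ∃ z ∈ Y, ∃ s : ℝ, |s| = 1 ∧ (1 + Matrix.single i j s) * z ∈ Y := by
  classical
  obtain ⟨k, hk⟩ : ∃ k : Fin d, k ∉ ({m} : Finset (Fin d)) := by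
    by_contra h
    push Not at h
    have h1 : (Finset.univ : Finset (Fin d)) ⊆ {m} := fun x _ => h x
    have h2 := Finset.card_le_card h1
    rw [Finset.card_univ, Fintype.card_fin, Finset.card_singleton] at h2
    omega
  have hkm : k ≠ m := fun h => hk (Finset.mem_singleton.2 h)
  obtain ⟨l, hl⟩ : ∃ l : Fin d, l ∉ ({k, m} : Finset (Fin d)) := by
    by_contra h
    push Not at h
    have h1 : (Finset.univ : Finset (Fin d)) ⊆ {k, m} := fun x _ => h x
    have h2 := Finset.card_le_card h1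
    have h3 := Finset.card_le_two (a := k) (b := m)
    rw [Finset.card_univ, Fintype.card_fin] at h2
    omega
  have hlk : l ≠ k := fun h => hl (by rw [h]; simp)
  have hlm : l ≠ m := fun h => hl (by rw [h]; simp)
  -- the block `{k}`
  obtain ⟨z, hz, v, hv0, hB, hz'⟩ := block_shear hd hg hc hp hn {k} (by simp) hY
    (hinv.mono (Flow_subset_A1 {k}))
  have hrow : ∀ a b, v a b ≠ 0 → a = k ∧ b ≠ k := by
    intro a b hab
    obtain ⟨h1, h2⟩ := hB a b hab
    exact ⟨Finset.mem_singleton.1 h1, fun h => h2 (Finset.mem_singleton.2 h)⟩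
  by_cases hex : ∃ p, p ≠ m ∧ v k p ≠ 0
  · obtain ⟨p, hpm, hvp⟩ := hex
    obtain ⟨z', hz'1, s, hs, hz'2⟩ := pur_row hg hc hp hY hinv hz hz' hvp hrow
    exact ⟨k, p, fun h => (hrow k p hvp).2 h.symm, hkm, hpm, z', hz'1, s, hs, hz'2⟩
  push Not at hex
  have hvm : v k m ≠ 0 := by
    intro h0
    apply hv0
    ext a b
    by_contra h1
    obtain ⟨h2, h3⟩ := hrow a b h1
    subst h2
    by_cases h4 : b = m
    · rw [h4] at h1
      exact h1 h0
    · exact h1 (hex b h4)
  obtain ⟨z₁, hz₁, s, hs, hz₁'⟩ := pur_row hg hc hp hY hinv hz hz' hvm hrow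
  have hs0 : s ≠ 0 := by
    rintro rfl
    rw [abs_zero] at hs
    exact zero_ne_one hs
  obtain ⟨u, hu⟩ : ∃ u, u = (1 : Matrix (Fin d) (Fin d) ℝ) + Matrix.single k m s := ⟨_, rfl⟩
  rw [← hu] at hz₁'
  obtain ⟨B, hBdef⟩ : ∃ B : Set (Matrix (Fin d) (Fin d) ℝ), B = {z | z ∈ Y ∧ u * z ∈ Y} :=
    ⟨_, rfl⟩
  have hBY : B ⊆ Y := by
    rw [hBdef]
    exact fun z hz => hz.1
  have hBinv : IsInv (Aij k m) B := by
    rw [hBdef]
    refine ⟨⟨z₁, hz₁, hz₁'⟩, ?_, ?_, ?_⟩
    · have hcont : Continuous fun z : Matrix (Fin d) (Fin d) ℝ => u * z :=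
        continuous_const.matrix_mul continuous_id
      exact hinv.closed.inter (hinv.closed.preimage hcont)
    · rintro h ⟨h1, h2⟩ γ hγ
      refine ⟨hinv.units h h1 γ hγ, ?_⟩
      rw [← Matrix.mul_assoc]
      exact hinv.units _ h2 γ hγ
    · rintro a ⟨ha1, ha2⟩ h ⟨h1, h2⟩
      refine ⟨hinv.diag a ha1 h h1, ?_⟩
      rw [← Matrix.mul_assoc, hu, act_comm s a ha2, Matrix.mul_assoc, ← hu]
      exact hinv.diag a ha1 _ h2
  have hI : (Finset.univ \ {l} : Finset (Fin d)).card.Coprime d := by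
    rw [Finset.card_sdiff_of_subset (Finset.subset_univ _), Finset.card_univ, Fintype.card_fin,
      Finset.card_singleton]
    obtain ⟨e, rfl⟩ : ∃ e, d = e + 1 := ⟨d - 1, by omega⟩
    simp
  have hmem : k ∈ (Finset.univ \ {l} : Finset (Fin d)) ↔
      m ∈ (Finset.univ \ {l} : Finset (Fin d)) := by
    simp [hlk.symm, hlm.symm]
  obtain ⟨z, hz, v, hv0, hB, hz'⟩ := block_shear hd hg hc hp hn (Finset.univ \ {l}) hI
    (hBY.trans hY) (hBinv.mono (Flow_subset_Aij hmem))
  have hcol : ∀ a b, v a b ≠ 0 → a ≠ l ∧ b = l := by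
    intro a b hab
    obtain ⟨h1, h2⟩ := hB a b hab
    simp only [Finset.mem_sdiff, Finset.mem_univ, true_and, Finset.mem_singleton, not_not] at h1 h2
    exact ⟨h1, h2⟩
  by_cases hex2 : ∃ p, p ≠ m ∧ v p l ≠ 0
  · obtain ⟨p, hpm, hvp⟩ := hex2
    obtain ⟨z', hz'1, s', hs', hz'2⟩ := pur_col hg hc hp hY hinv (hBY hz) (hBY hz') hvp hcol
    exact ⟨p, l, (hcol p l hvp).1, hpm, hlm, z', hz'1, s', hs', hz'2⟩
  push Not at hex2
  have hvml : v m l ≠ 0 := by
    intro h0
    apply hv0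
    ext a b
    by_contra h1
    obtain ⟨h2, h3⟩ := hcol a b h1
    subst h3
    by_cases h4 : a = m
    · rw [h4] at h1
      exact h1 h0
    · exact h1 (hex2 a h4)
  have hvkl : v k l = 0 := hex2 k hkm
  rw [hBdef] at hz hz'
  have e1 : (1 + (v + Matrix.single k l (s * v m l))) * (u * z) ∈ Y := by
    have e2 := hz'.2
    rw [← Matrix.mul_assoc, hu, act_shear hlk.symm s hcol, Matrix.mul_assoc, ← hu] at e2
    exact e2
  have e3 : (v + Matrix.single k l (s * v m l)) k l ≠ 0 := by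
    rw [Matrix.add_apply, Matrix.single_apply_same, hvkl, zero_add]
    exact mul_ne_zero hs0 hvml
  have e4 : ∀ a b, (v + Matrix.single k l (s * v m l)) a b ≠ 0 → a ≠ l ∧ b = l := by
    intro a b hab
    by_cases h1 : k = a ∧ l = b
    · exact ⟨fun h => hlk (h1.1.trans h).symm, h1.2.symm⟩
    · rw [Matrix.add_apply, Matrix.single_apply, if_neg h1, add_zero] at hab
      exact hcol a b hab
  obtain ⟨z', hz'1, s', hs', hz'2⟩ := pur_col hg hc hp hY hinv hz.2 e1 e3 e4
  exact ⟨k, l, hlk.symm, hkm, hlm, z', hz'1, s', hs', hz'2⟩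

end Pool.Agent.H46.RG
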