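import Pool.Agent.H46.RG.Def

/-!
# Lm: images of invariant and minimal sets

`lm u M = {u h : h ∈ M}` for an invertible matrix `u` which commutes with `diagonal a` for `a ∈ S`.
It is closed (left multiplication by `u` is a homeomorphism; or: `lm u M = {h | u⁻¹ * h ∈ M}`), invariant
(`u * h * γ`, `diagonal a * (u * h) = u * (diagonal a * h)`), and minimal if `M` is (if `Z' ⊆ lm u M` is
invariant then `lm u⁻¹ Z' ⊆ M` is invariant, so it is `M`).
`min_eq`: two minimal sets which meet are equal (their intersection is invariant).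
-/

set_option autoImplicit false

namespace Pool.Agent.H46.RG

open Matrix Filter Topology Pool.Agent.H89.CSD

variable {d : ℕ}

/-- The image of a set of lattices under the matrix `u`. -/
def lm (u : Matrix (Fin d) (Fin d) ℝ) (M : Set (Matrix (Fin d) (Fin d) ℝ)) :
    Set (Matrix (Fin d) (Fin d) ℝ) := (fun h => u * h) '' M

theorem mem_lm {u : Matrix (Fin d) (Fin d) ℝ} (hu : u.det ≠ 0)
    {M : Set (Matrix (Fin d) (Fin d) ℝ)} {h : Matrix (Fin d) (Fin d) ℝ} :
    h ∈ lm u M ↔ u⁻¹ * h ∈ M := by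
  have hu' : IsUnit u.det := isUnit_iff_ne_zero.2 hu
  constructor
  · rintro ⟨x, hx, rfl⟩
    show u⁻¹ * (u * x) ∈ M
    rwa [← Matrix.mul_assoc, Matrix.nonsing_inv_mul _ hu', Matrix.one_mul]
  · intro hh
    refine ⟨u⁻¹ * h, hh, ?_⟩
    show u * (u⁻¹ * h) = h
    rw [← Matrix.mul_assoc, Matrix.mul_nonsing_inv _ hu', Matrix.one_mul]

theorem lm_lm (u v : Matrix (Fin d) (Fin d) ℝ) (M : Set (Matrix (Fin d) (Fin d) ℝ)) :
    lm u (lm v M) = lm (u * v) M := by
  unfold lm
  rw [Set.image_image]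
  simp only [Matrix.mul_assoc]

theorem lm_one (M : Set (Matrix (Fin d) (Fin d) ℝ)) : lm 1 M = M := by
  unfold lm
  simp

theorem isInv_lm {S : Set (Fin d → ℝ)} {u : Matrix (Fin d) (Fin d) ℝ} (hu : u.det ≠ 0)
    (hcomm : ∀ a ∈ S, diagonal a * u = u * diagonal a) {M : Set (Matrix (Fin d) (Fin d) ℝ)}
    (hM : IsInv S M) : IsInv S (lm u M) := by
  refine ⟨hM.nonempty.image _, ?_, ?_, ?_⟩
  · have h1 : lm u M = (fun h => u⁻¹ * h) ⁻¹' M := by
      ext h
      exact mem_lm hu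
    rw [h1]
    exact hM.closed.preimage (continuous_const.matrix_mul continuous_id)
  · rintro _ ⟨x, hx, rfl⟩ γ hγ
    exact ⟨x * γ.map (Int.cast : ℤ → ℝ), hM.units x hx γ hγ, (Matrix.mul_assoc _ _ _).symm⟩
  · rintro a ha _ ⟨x, hx, rfl⟩
    refine ⟨diagonal a * x, hM.diag a ha x hx, ?_⟩
    show u * (diagonal a * x) = diagonal a * (u * x)
    rw [← Matrix.mul_assoc, ← hcomm a ha, Matrix.mul_assoc]

theorem isMin_lm {S : Set (Fin d → ℝ)} {u : Matrix (Fin d) (Fin d) ℝ} (hu : u.det ≠ 0)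
    (hcomm : ∀ a ∈ S, diagonal a * u = u * diagonal a) {M : Set (Matrix (Fin d) (Fin d) ℝ)}
    (hM : IsMin S M) : IsMin S (lm u M) := by
  refine ⟨isInv_lm hu hcomm hM.1, ?_⟩
  intro Z' hZ' hinv
  have hu' : IsUnit u.det := isUnit_iff_ne_zero.2 hu
  have hui : (u⁻¹).det ≠ 0 := by
    have h := Matrix.det_nonsing_inv_mul_det u hu'
    intro h0
    rw [h0, zero_mul] at h
    exact zero_ne_one h
  have hcomm' : ∀ a ∈ S, diagonal a * u⁻¹ = u⁻¹ * diagonal a := by
    intro a ha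
    calc diagonal a * u⁻¹ = u⁻¹ * u * (diagonal a * u⁻¹) := by
          rw [Matrix.nonsing_inv_mul _ hu', Matrix.one_mul]
      _ = u⁻¹ * (u * diagonal a) * u⁻¹ := by simp only [Matrix.mul_assoc]
      _ = u⁻¹ * (diagonal a * u) * u⁻¹ := by rw [hcomm a ha]
      _ = u⁻¹ * diagonal a * (u * u⁻¹) := by simp only [Matrix.mul_assoc]
      _ = u⁻¹ * diagonal a := by rw [Matrix.mul_nonsing_inv _ hu', Matrix.mul_one]
  have h1 := isInv_lm hui hcomm' hinv
  have h2 : lm u⁻¹ Z' ⊆ M := by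
    rintro _ ⟨x, hx, rfl⟩
    exact (mem_lm hu).1 (hZ' hx)
  have h3 := hM.2 _ h2 h1
  rw [← h3, lm_lm, Matrix.mul_nonsing_inv _ hu', lm_one]

theorem min_eq {S : Set (Fin d → ℝ)} {M M' : Set (Matrix (Fin d) (Fin d) ℝ)} (hM : IsMin S M)
    (hM' : IsMin S M') (h : (M ∩ M').Nonempty) : M = M' := by
  have h1 : IsInv S (M ∩ M') :=
    ⟨h, hM.1.closed.inter hM'.1.closed,
      fun x hx γ hγ => ⟨hM.1.units x hx.1 γ hγ, hM'.1.units x hx.2 γ hγ⟩,
      fun a ha x hx => ⟨hM.1.diag a ha x hx.1, hM'.1.diag a ha x hx.2⟩⟩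
  exact (hM.2 _ Set.inter_subset_left h1).symm.trans (hM'.2 _ Set.inter_subset_right h1)

/-- A positive diagonal matrix commutes with all diagonal matrices. -/
theorem diag_comm (a b : Fin d → ℝ) : diagonal a * diagonal b = diagonal b * diagonal a := by
  rw [Matrix.diagonal_mul_diagonal, Matrix.diagonal_mul_diagonal]
  congr 1
  ext i
  ring

theorem shear_comm {i j : Fin d} (s : ℝ) {a : Fin d → ℝ} (ha : a i = a j) :
    diagonal a * (1 + Matrix.single i j s) = (1 + Matrix.single i j s) * diagonal a := by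
  rw [Matrix.mul_add, Matrix.add_mul, Matrix.mul_one, Matrix.one_mul]
  congr 1
  ext p q
  rw [Matrix.diagonal_mul, Matrix.mul_diagonal]
  by_cases h : i = p ∧ j = q
  · obtain ⟨rfl, rfl⟩ := h
    rw [ha, mul_comm]
  · rw [Matrix.single_apply, if_neg h, mul_zero, zero_mul]

theorem shear_det {i j : Fin d} (hij : i ≠ j) (s : ℝ) :
    (1 + Matrix.single i j s : Matrix (Fin d) (Fin d) ℝ).det = 1 :=
  Matrix.det_transvection_of_ne i j hij s

/-- `diag a (1 + x E_ij) diag a⁻¹ = 1 + (a i / a j) x E_ij`. -/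
theorem shear_conj {i j : Fin d} (x : ℝ) {a : Fin d → ℝ} (ha : ∀ i, a i ≠ 0) :
    diagonal a * (1 + Matrix.single i j x) =
      (1 + Matrix.single i j (a i / a j * x)) * diagonal a := by
  rw [Matrix.mul_add, Matrix.add_mul, Matrix.mul_one, Matrix.one_mul]
  congr 1
  ext p q
  rw [Matrix.diagonal_mul, Matrix.mul_diagonal]
  by_cases h : i = p ∧ j = q
  · obtain ⟨rfl, rfl⟩ := h
    rw [Matrix.single_apply_same, Matrix.single_apply_same]
    have := ha j
    field_simp
  · rw [Matrix.single_apply, Matrix.single_apply, if_neg h, if_neg h, mul_zero, zero_mul]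

theorem shear_mul {i j : Fin d} (hij : i ≠ j) (x y : ℝ) :
    (1 + Matrix.single i j x) * (1 + Matrix.single i j y : Matrix (Fin d) (Fin d) ℝ) =
      1 + Matrix.single i j (x + y) :=
  Matrix.transvection_mul_transvection_same i j hij x y

end Pool.Agent.H46.RG
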