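import Pool.Agent.H46.RG.Basic
import Pool.Agent.H46.RG.Lm

/-!
# Two: the two values at a shear pair

Let `z` and `(1 + s E_ij) z` satisfy `Pos c`, `|s| = 1`, `i ≠ j`, `0 < δ ≤ 1`, `a` positive with `∏ a = 1`,
`a i / a j = δ`, `h = diagonal a * z`, `x ≠ 0` an integer vector with `|(h x) k| ≤ R` for all `k` (`R ≥ 1`).  Let
`w₁ = P z x`, `w₂ = P ((1 + s E_ij) z) x`.  Then with `R' = R ^ d / c` (`≥ 1` because
`c ≤ |P z x| = |P h x| ≤ R ^ d`)
`|w₁| ≤ R ^ d`, `c δ / R' ≤ |w₂ - w₁| ≤ R ^ d * R' * δ`.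

Proof.  `w₁ = P h x` (`P_diag_mul`, `∏ a = 1`), `c ≤ |w₁| ≤ R ^ d`; each `|(h x) k| ≥ c / R ^ (d - 1)`
(product of the others at most `R ^ (d - 1)`), so `|(h x) j / (h x) i| ≤ R ^ d / c` and `≥ c / R ^ d`.
`w₂ = (∏_{k ≠ i} (z x) k) ((z x) i + s (z x) j)` (`shear_mulVec_ne`, `shear_mulVec_eq`), so
`w₂ - w₁ = s w₁ (z x) j / (z x) i` and `(z x) j / (z x) i = (a i / a j) (h x) j / (h x) i`.
-/

set_option autoImplicit false

namespace Pool.Agent.H46.RG

open Matrix Filter Topology Pool.Agent.H89.CSD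

variable {d : ℕ}

theorem two_values {c : ℝ} (hc : 0 < c) {z : Matrix (Fin d) (Fin d) ℝ} (hz : Pos c z)
    {i j : Fin d} (hij : i ≠ j) {s : ℝ} (hs : |s| = 1) {δ : ℝ} (hδ : 0 < δ)
    {a : Fin d → ℝ} (ha : a ∈ A1 d) (haδ : a i / a j = δ) {R : ℝ} (hR : 1 ≤ R)
    {x : Fin d → ℤ} (hx : x ≠ 0) (hxR : ∀ k, |((diagonal a * z) *ᵥ ic x) k| ≤ R) :
    |P z (ic x)| ≤ R ^ d ∧
    c * δ / (R ^ d / c) ≤ |P ((1 + Matrix.single i j s) * z) (ic x) - P z (ic x)| ∧
    |P ((1 + Matrix.single i j s) * z) (ic x) - P z (ic x)| ≤ R ^ d * (R ^ d / c) * δ := by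
  classical
  obtain ⟨hap, hprod⟩ := ha
  set y : Fin d → ℝ := z *ᵥ ic x with hy
  set u : Fin d → ℝ := (diagonal a * z) *ᵥ ic x with hu
  have hua : ∀ k, u k = a k * y k := by
    intro k
    rw [hu, ← Matrix.mulVec_mulVec, Matrix.mulVec_diagonal]
  have hw1 : P z (ic x) = ∏ k, y k := P_eq z (ic x)
  have hw1u : P z (ic x) = ∏ k, u k := by
    rw [Finset.prod_congr rfl fun k _ => hua k, Finset.prod_mul_distrib, hprod, one_mul, hw1]
  set w := P z (ic x) with hw
  have hcw : c ≤ |w| := hz x hx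
  have hR0 : 0 < R := by linarith
  have hd1 : d - 1 + 1 = d := by have := i.2; omega
  have hbound : ∀ k, |w| ≤ |u k| * R ^ (d - 1) := by
    intro k
    rw [hw1u, ← Finset.mul_prod_erase Finset.univ u (Finset.mem_univ k), abs_mul,
      Finset.abs_prod]
    refine mul_le_mul_of_nonneg_left ?_ (abs_nonneg _)
    refine (Finset.prod_le_prod (fun l _ => abs_nonneg _) fun l _ => hxR l).trans ?_
    rw [Finset.prod_const, Finset.card_erase_of_mem (Finset.mem_univ k), Finset.card_univ,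
      Fintype.card_fin]
  have hwR : |w| ≤ R ^ d := by
    refine (hbound i).trans ?_
    rw [← hd1, pow_succ', Nat.add_sub_cancel]
    exact mul_le_mul_of_nonneg_right (hxR i) (pow_nonneg hR0.le _)
  set w2 := P ((1 + Matrix.single i j s) * z) (ic x) with hw2
  obtain ⟨Q, hQ⟩ : ∃ Q, Q = ∏ k ∈ Finset.univ.erase i, y k := ⟨_, rfl⟩
  have e1 : w = y i * Q := by
    rw [hw1, hQ, Finset.mul_prod_erase Finset.univ y (Finset.mem_univ i)]
  have e2 : w2 = (y i + s * y j) * Q := by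
    rw [hw2, P_eq, ← Finset.mul_prod_erase Finset.univ _ (Finset.mem_univ i), shear_mulVec_eq, hQ]
    congr 1
    refine Finset.prod_congr rfl fun k hk => ?_
    rw [shear_mulVec_ne (Finset.ne_of_mem_erase hk)]
  have haj : a j ≠ 0 := (hap j).ne'
  have key : (w2 - w) * u i = s * w * δ * u j := by
    rw [e1, e2, hua, hua, ← haδ]
    field_simp
    ring
  set D := |w2 - w| with hD
  have hD0 : 0 ≤ D := abs_nonneg _
  have key2 : D * |u i| = |w| * δ * |u j| := by
    have := congrArg abs key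
    rw [abs_mul, abs_mul, abs_mul, abs_mul, hs, one_mul, abs_of_pos hδ] at this
    exact this
  have hRd : R ^ d = R * R ^ (d - 1) := by rw [← pow_succ', hd1]
  have hRp : 0 < R ^ (d - 1) := pow_pos hR0 _
  have hRdp : 0 < R ^ d := pow_pos hR0 _
  refine ⟨hwR, ?_, ?_⟩
  · have h1 : c * δ / (R ^ d / c) = c * c * δ / R ^ d := by field_simp
    rw [h1, div_le_iff₀ hRdp, hRd]
    have h2 : |w| * δ * |u j| ≤ D * R := by
      rw [← key2]
      exact mul_le_mul_of_nonneg_left (hxR i) hD0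
    have h3 : c * c * δ ≤ |w| * δ * |u j| * R ^ (d - 1) := by
      have h4 : c ≤ |u j| * R ^ (d - 1) := hcw.trans (hbound j)
      calc c * c * δ = (c * δ) * c := by ring
        _ ≤ (|w| * δ) * (|u j| * R ^ (d - 1)) :=
            mul_le_mul (mul_le_mul_of_nonneg_right hcw hδ.le) h4 hc.le (by positivity)
        _ = _ := by ring
    calc c * c * δ ≤ |w| * δ * |u j| * R ^ (d - 1) := h3
      _ ≤ D * R * R ^ (d - 1) := mul_le_mul_of_nonneg_right h2 hRp.le
      _ = D * (R * R ^ (d - 1)) := by ring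
  · have h1 : R ^ d * (R ^ d / c) * δ = R ^ d * R ^ d * δ / c := by field_simp
    rw [h1, le_div_iff₀ hc]
    calc D * c ≤ D * (|u i| * R ^ (d - 1)) :=
          mul_le_mul_of_nonneg_left (hcw.trans (hbound i)) hD0
      _ = |w| * δ * |u j| * R ^ (d - 1) := by rw [← key2]; ring
      _ ≤ R ^ d * δ * R * R ^ (d - 1) := by
          refine mul_le_mul_of_nonneg_right ?_ hRp.le
          exact mul_le_mul (mul_le_mul_of_nonneg_right hwR hδ.le) (hxR j) (abs_nonneg _)
            (by positivity)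
      _ = R ^ d * R ^ d * δ := by
          conv_rhs => rw [hRd]
          rw [hRd]
          ring

/-- An element of `A1` with prescribed ratio of the entries `i` and `j`. -/
theorem exists_ratio {i j : Fin d} (hij : i ≠ j) {δ : ℝ} (hδ : 0 < δ) :
    ∃ a ∈ A1 d, a i / a j = δ := by
  have hs : 0 < Real.sqrt δ := Real.sqrt_pos.2 hδ
  refine ⟨fun k => (if k = i then Real.sqrt δ else 1) * (if k = j then (Real.sqrt δ)⁻¹ else 1),
    ⟨?_, ?_⟩, ?_⟩
  · intro k
    have h1 : 0 < (if k = i then Real.sqrt δ else 1) := by split_ifs <;> positivity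
    have h2 : 0 < (if k = j then (Real.sqrt δ)⁻¹ else 1) := by split_ifs <;> positivity
    exact mul_pos h1 h2
  · rw [Finset.prod_mul_distrib, Finset.prod_ite_eq' Finset.univ i,
      Finset.prod_ite_eq' Finset.univ j, if_pos (Finset.mem_univ _), if_pos (Finset.mem_univ _),
      mul_inv_cancel₀ hs.ne']
  · simp only [if_true, if_neg hij, if_neg hij.symm, mul_one, one_mul]
    rw [div_inv_eq_mul, Real.mul_self_sqrt hδ.le]

end Pool.Agent.H46.RG
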