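import Pool.Agent.H46.RG.Comp

/-!
# Zorn: minimal invariant sets exist

Let `Z ⊆ Om g` satisfy `IsInv S Z`.  Let `R` be from `fund` and `K = KK d R |det g| |det g|`, compact;
every `IsInv S Z'` with `Z' ⊆ Om g` meets `K` (take `h ∈ Z'`, `h * im U ∈ K`).  Zorn's lemma for the
sets `Z' ⊆ Z` with `IsInv S Z'`, ordered by inclusion (`zorn_superset_nonempty` or
`zorn_superset`): the intersection `Z₀` of a nonempty chain is closed and invariant, and nonempty
because `Z₀ ∩ K` is the intersection of a chain of nonempty compact closed sets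
(`IsCompact.nonempty_sInter_of_directedOn_nonempty_isCompact_isClosed` or the version for indexed
families).
-/

set_option autoImplicit false

namespace Pool.Agent.H46.RG

open Matrix Filter Topology Pool.Agent.H89.CSD

variable {d : ℕ}

theorem exists_min {g : Matrix (Fin d) (Fin d) ℝ} (hg : g.det ≠ 0) {c : ℝ} (hc : 0 < c)
    (hp : Pos c g) {S : Set (Fin d → ℝ)} {Z : Set (Matrix (Fin d) (Fin d) ℝ)}
    (hZ : Z ⊆ Om g) (hinv : IsInv S Z) : ∃ M, M ⊆ Z ∧ IsMin S M := by
  obtain ⟨R, hR0, hR⟩ := fund hg hc hp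
  have hmeet : ∀ Y : Set (Matrix (Fin d) (Fin d) ℝ), Y ⊆ Z → IsInv S Y →
      (Y ∩ KK d R |g.det| |g.det|).Nonempty := by
    intro Y hYZ hY
    obtain ⟨y, hy⟩ := hY.nonempty
    obtain ⟨U, hU⟩ := hR y (hZ (hYZ hy))
    have h1 := hY.im hy U
    exact ⟨_, h1, hU, (hZ (hYZ h1)).2.ge, (hZ (hYZ h1)).2.le⟩
  have hz : ∃ Y, Minimal (· ∈ {Y : Set (Matrix (Fin d) (Fin d) ℝ) | Y ⊆ Z ∧ IsInv S Y}) Y := by
    apply zorn_superset
    intro C hC hchain
    rcases C.eq_empty_or_nonempty with rfl | hCne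
    · exact ⟨Z, ⟨subset_rfl, hinv⟩, by simp⟩
    · refine ⟨⋂₀ C, ⟨?_, ?_, ?_, ?_, ?_⟩, fun s hs => Set.sInter_subset_of_mem hs⟩
      · obtain ⟨Y, hY⟩ := hCne
        exact (Set.sInter_subset_of_mem hY).trans (hC hY).1
      · set C' : Set (Set (Matrix (Fin d) (Fin d) ℝ)) :=
          (fun Y => Y ∩ KK d R |g.det| |g.det|) '' C with hC'
        have hC'ne : C'.Nonempty := hCne.image _
        have : Nonempty C' := hC'ne.to_subtype
        have h1 : (⋂₀ C').Nonempty := by
          apply IsCompact.nonempty_sInter_of_directed_nonempty_isCompact_isClosed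
          · rintro _ ⟨Y, hY, rfl⟩ _ ⟨Y', hY', rfl⟩
            rcases hchain.total hY hY' with h | h
            · exact ⟨_, ⟨Y, hY, rfl⟩, subset_rfl, Set.inter_subset_inter_left _ h⟩
            · exact ⟨_, ⟨Y', hY', rfl⟩, Set.inter_subset_inter_left _ h, subset_rfl⟩
          · rintro _ ⟨Y, hY, rfl⟩
            exact hmeet Y (hC hY).1 (hC hY).2
          · rintro _ ⟨Y, hY, rfl⟩
            exact (isCompact_KK R |g.det| |g.det|).inter_left (hC hY).2.closed
          · rintro _ ⟨Y, hY, rfl⟩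
            exact (hC hY).2.closed.inter (isCompact_KK R |g.det| |g.det|).isClosed
        obtain ⟨z, hz⟩ := h1
        exact ⟨z, fun Y hY => (hz _ ⟨Y, hY, rfl⟩).1⟩
      · exact isClosed_sInter fun Y hY => (hC hY).2.closed
      · intro h hh γ hγ Y hY
        exact (hC hY).2.units h (hh Y hY) γ hγ
      · intro a ha h hh Y hY
        exact (hC hY).2.diag a ha h (hh Y hY)
  obtain ⟨Y, hY⟩ := hz
  refine ⟨Y, hY.prop.1, hY.prop.2, fun Z' hZ' hZi => ?_⟩
  exact subset_antisymm hZ' (hY.le_of_le ⟨hZ'.trans hY.prop.1, hZi⟩ hZ')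

end Pool.Agent.H46.RG
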