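import Pool.Agent.H46.RG.Hit
import Pool.Agent.H46.RG.Two
import Pool.Agent.H46.RG.Act
import Pool.Agent.H46.RG.Zorn

/-!
# Perf: the values of a minimal set form a perfect set (theorem T1)

`Vals Y` is the closure of the set of the values `P h x`, `h ∈ Y`, `x ≠ 0`.

`vals_acc`: `Y ⊆ Om g` is `A1`-minimal, `z, (1 + s E_ij) z ∈ Y`, `|s| = 1`, `i ≠ j`: for `v₀ ∈ Vals Y`, `η > 0`
there is `v ∈ Vals Y` with `v ≠ v₀` and `|v - v₀| < η`.  Proof: choose `h₁ ∈ Y`, `x₁ ≠ 0` with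
`|P h₁ x₁ - v₀| < η / 4`, and `R` from `hit` for `η / 4`.  Choose `0 < δ` so small that
`R ^ d * (R ^ d / c) * δ < η / 4`, `a ∈ A1` with `a i / a j = δ` (`exists_ratio`), `h = diagonal a * z ∈ Y`, and `x` from
`hit` for `h`: `P z x = P h x` is within `η / 2` of `v₀`.  By `two_values` the value
`P ((1 + s E_ij) z) x` differs from `P z x` by at most `η / 4` and is different from it; one of the two
is `≠ v₀`.

`vals_sub`: if `Y ⊆ closure (Orb (A1 d) g)` then `Vals Y ⊆ closure {P g x : x ≠ 0}`: for `h ∈ Y` and `x ≠ 0`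
take `h n = diagonal (a n) g (γ n) → h`, `a n ∈ A1`: `P (h n) x = P g (γ n x) → P h x`.

`values_perfect`: combine with `isInv_pos`, `exists_min`, `active`.  `K = closure (Vals Y ∩ Ioo (-b) b)` with
`b = C |det g|`, nonempty by `hC` applied to some `h ∈ Y`; perfect: `Preperfect.open_inter`,
`Preperfect.perfect_closure` (`Vals Y` is preperfect by `vals_acc`, `accPt_iff_nhds` or
`accPt_iff_frequently`); it is contained in `Icc (-b) b`.
-/

set_option autoImplicit false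

namespace Pool.Agent.H46.RG

open Matrix Filter Topology Pool.Agent.H89.CSD

variable {d : ℕ}

/-- The closure of the set of the values of the lattices in `Y`. -/
def Vals (Y : Set (Matrix (Fin d) (Fin d) ℝ)) : Set ℝ :=
  closure {v | ∃ h ∈ Y, ∃ x : Fin d → ℤ, x ≠ 0 ∧ v = P h (ic x)}

theorem vals_acc {g : Matrix (Fin d) (Fin d) ℝ} (hg : g.det ≠ 0) {c : ℝ} (hc : 0 < c)
    (hp : Pos c g) {Y : Set (Matrix (Fin d) (Fin d) ℝ)} (hY : Y ⊆ Om g) (hmin : IsMin (A1 d) Y)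
    {i j : Fin d} (hij : i ≠ j) {s : ℝ} (hs : |s| = 1) {z : Matrix (Fin d) (Fin d) ℝ}
    (hz : z ∈ Y) (hz' : (1 + Matrix.single i j s) * z ∈ Y) {v₀ : ℝ} (hv : v₀ ∈ Vals Y) {η : ℝ}
    (hη : 0 < η) : ∃ v ∈ Vals Y, v ≠ v₀ ∧ |v - v₀| < η := by
  obtain ⟨w, ⟨h₁, hh₁, x₁, hx₁, hw⟩, hwv⟩ := Metric.mem_closure_iff.1 hv (η / 4) (by linarith)
  obtain ⟨R, hR, hhit⟩ := hit hg hc hp hY hmin hh₁ hx₁ (show 0 < η / 4 by linarith)
  have hM : 0 < R ^ d * (R ^ d / c) := by positivity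
  obtain ⟨δ, hδ⟩ : ∃ δ, δ = η / (8 * (R ^ d * (R ^ d / c))) := ⟨_, rfl⟩
  have hδ0 : 0 < δ := by rw [hδ]; positivity
  have hMδ : R ^ d * (R ^ d / c) * δ = η / 8 := by
    rw [hδ]
    field_simp
  obtain ⟨a, ha, haδ⟩ := exists_ratio hij hδ0
  obtain ⟨x, hx, hxv, hxR⟩ := hhit _ (hmin.1.diag a ha z hz)
  obtain ⟨-, h2, h3⟩ := two_values hc (Om_pos hg hc hp (hY hz)) hij hs hδ0 ha haδ hR hx hxR
  rw [P_diag_mul, ha.2, one_mul] at hxv
  rw [hMδ] at h3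
  rw [Real.dist_eq, hw] at hwv
  set w1 := P z (ic x) with hw1
  set w2 := P ((1 + Matrix.single i j s) * z) (ic x) with hw2
  have hpos : 0 < |w2 - w1| := lt_of_lt_of_le (by positivity) h2
  have hne : w2 ≠ w1 := fun e => by rw [e, sub_self, abs_zero] at hpos; exact lt_irrefl _ hpos
  by_cases hwv0 : w1 = v₀
  · refine ⟨w2, subset_closure ⟨_, hz', x, hx, rfl⟩, ?_, ?_⟩
    · rw [← hwv0]
      exact hne
    · rw [← hwv0]
      linarith
  · refine ⟨w1, subset_closure ⟨_, hz, x, hx, rfl⟩, hwv0, ?_⟩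
    have h4 : |w1 - v₀| ≤ |w1 - P h₁ (ic x₁)| + |P h₁ (ic x₁) - v₀| := abs_sub_le _ _ _
    rw [abs_sub_comm v₀] at hwv
    linarith

theorem vals_sub {g : Matrix (Fin d) (Fin d) ℝ} {Y : Set (Matrix (Fin d) (Fin d) ℝ)}
    (hY : Y ⊆ closure (Orb (A1 d) g)) :
    Vals Y ⊆ closure {v | ∃ x : Fin d → ℤ, x ≠ 0 ∧ v = P g (ic x)} := by
  refine closure_minimal ?_ isClosed_closure
  rintro _ ⟨h, hh, x, hx, rfl⟩
  have hcont : Continuous fun h : Matrix (Fin d) (Fin d) ℝ => P h (ic x) := by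
    unfold P
    fun_prop
  have h1 : P h (ic x) ∈ closure ((fun h => P h (ic x)) '' (Orb (A1 d) g)) :=
    image_closure_subset_closure_image hcont ⟨h, hY hh, rfl⟩
  refine closure_mono ?_ h1
  rintro _ ⟨_, ⟨a, ha, γ, hγ, rfl⟩, rfl⟩
  refine ⟨γ *ᵥ x, mulVec_ne hγ.ne_zero hx, ?_⟩
  change P (diagonal a * g * im γ) (ic x) = _
  rw [Matrix.mul_assoc, P_diag_mul, ha.2, one_mul, P_mul_im]

theorem values_perfect (hd : 3 ≤ d) {g : Matrix (Fin d) (Fin d) ℝ} (hg : g.det ≠ 0) {c : ℝ}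
    (hc : 0 < c) (hp : Pos c g) (hn : ¬ IntForm g) (C : ℝ)
    (hC : ∀ h : Matrix (Fin d) (Fin d) ℝ, h.det ≠ 0 →
      ∃ x : Fin d → ℤ, x ≠ 0 ∧ |P h (ic x)| < C * |h.det|) :
    ∃ K : Set ℝ, Perfect K ∧ K.Nonempty ∧
      K ⊆ closure {v | ∃ x : Fin d → ℤ, x ≠ 0 ∧ v = P g (ic x)} ∧
      K ⊆ Set.Icc (-(C * |g.det|)) (C * |g.det|) := by
  obtain ⟨hinv, hsub⟩ := isInv_pos g
  obtain ⟨Y, hYZ, hYmin⟩ := exists_min hg hc hp hsub hinv
  have hYO : Y ⊆ Om g := hYZ.trans hsub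
  obtain ⟨i, j, hij, -, -, z, hz, s, hs, hz'⟩ := active hd hg hc hp hn hYO hYmin.1 ⟨0, by omega⟩
  have hpre : Preperfect (Vals Y) := by
    intro v₀ hv₀
    rw [accPt_iff_nhds]
    intro U hU
    obtain ⟨η, hη, hball⟩ := Metric.mem_nhds_iff.1 hU
    obtain ⟨v, hv, hne, hlt⟩ := vals_acc hg hc hp hYO hYmin hij hs hz hz' hv₀ hη
    exact ⟨v, ⟨hball (by rwa [Metric.mem_ball, Real.dist_eq]), hv⟩, hne⟩
  set b : ℝ := C * |g.det| with hb
  have hpre2 : Preperfect (Set.Ioo (-b) b ∩ Vals Y) := hpre.open_inter isOpen_Ioo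
  refine ⟨closure (Set.Ioo (-b) b ∩ Vals Y), hpre2.perfect_closure, ?_, ?_, ?_⟩
  · obtain ⟨h, hh⟩ := hYmin.1.nonempty
    obtain ⟨x, hx, hlt⟩ := hC h (Om_det_ne hg (hYO hh))
    rw [(hYO hh).2] at hlt
    exact ⟨P h (ic x), subset_closure ⟨abs_lt.1 hlt, subset_closure ⟨h, hh, x, hx, rfl⟩⟩⟩
  · refine (closure_mono Set.inter_subset_right).trans ?_
    refine closure_minimal ?_ isClosed_closure
    exact vals_sub hYZ
  · refine closure_minimal ?_ isClosed_Icc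
    exact Set.inter_subset_left.trans Set.Ioo_subset_Icc_self

end Pool.Agent.H46.RG
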