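import Pool.Agent.H46.RG.Dis
import Pool.Agent.H46.RG.Act
import Pool.Agent.H46.RG.Zorn

/-!
# Unc: uncountably many minimal sets of a singular one-parameter group (theorem T2)

`Y ⊆ Om g` invariant under `A1`, `g` not integral, `Pos c g`, `m` an index, `I = univ \ {m}`.  The set of the
`Flow I`-minimal subsets of `Y` is uncountable.

Proof.  Let `Y₀ ⊆ Y` be `A1`-minimal (`exists_min`).  `active` gives `i ≠ j`, both `≠ m`, `z ∈ Y₀`, `s = ±1` with
`u z ∈ Y₀`, `u = 1 + s E_ij`.  `B = {z ∈ Y₀ : u z ∈ Y₀}` satisfies `IsInv (Aij i j) B` (`shear_comm`); let `M ⊆ B` be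
`Aij i j`-minimal.  For real `r` let `e r ∈ A1` be `exp (r / 2)` at `i`, `exp (- r / 2)` at `j`, `1` elsewhere.  The
sets `M r = lm (diagonal (e r)) M ⊆ Y₀` are `Aij i j`-invariant, hence `Flow I`-invariant
(`Flow_subset_Aij`, `i, j ∈ I`), and pairwise disjoint (`disjoint_translate` for `e (r - r')`, `r ≠ r'`, and
translate by `e r'`).  Choose a `Flow I`-minimal set `N r ⊆ M r` (`exists_min`).  The map `r ↦ N r` is
injective (disjoint nonempty sets), so its range is uncountable (`Cardinal` or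
`Set.Countable.of_...`: an injective map from `ℝ` into a countable set would make `ℝ` countable,
`not_countable`).
-/

set_option autoImplicit false

namespace Pool.Agent.H46.RG

open Matrix Filter Topology Pool.Agent.H89.CSD

variable {d : ℕ}

private noncomputable def unc_e (i j : Fin d) (r : ℝ) : Fin d → ℝ := fun k =>
  Real.exp (r * ((if k = i then 1 / 2 else 0) + (if k = j then -(1 / 2) else 0)))

private theorem unc_e_add (i j : Fin d) (r r' : ℝ) :
    diagonal (unc_e i j (r + r')) = diagonal (unc_e i j r) * diagonal (unc_e i j r') := by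
  rw [Matrix.diagonal_mul_diagonal]
  congr 1
  ext k
  unfold unc_e
  rw [← Real.exp_add, add_mul]

private theorem unc_e_zero (i j : Fin d) : diagonal (unc_e i j 0) = 1 := by
  rw [← Matrix.diagonal_one]
  congr 1
  ext k
  unfold unc_e
  rw [zero_mul, Real.exp_zero]

private theorem unc_e_mem (i j : Fin d) (r : ℝ) : unc_e i j r ∈ A1 d := by
  refine ⟨fun k => Real.exp_pos _, ?_⟩
  unfold unc_e
  rw [← Real.exp_sum, ← Finset.mul_sum, Finset.sum_add_distrib, Finset.sum_ite_eq',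
    Finset.sum_ite_eq', if_pos (Finset.mem_univ _), if_pos (Finset.mem_univ _)]
  norm_num

private theorem unc_e_det (i j : Fin d) (r : ℝ) : (diagonal (unc_e i j r)).det ≠ 0 := by
  rw [Matrix.det_diagonal, (unc_e_mem i j r).2]
  exact one_ne_zero

private theorem unc_e_ne {i j : Fin d} (hij : i ≠ j) {r : ℝ} (hr : r ≠ 0) :
    unc_e i j r i ≠ unc_e i j r j := by
  intro h
  unfold unc_e at h
  have h1 := Real.exp_injective h
  rw [if_pos rfl, if_neg hij, if_neg hij.symm, if_pos rfl] at h1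
  apply hr
  linarith

theorem uncountable_min (hd : 3 ≤ d) {g : Matrix (Fin d) (Fin d) ℝ} (hg : g.det ≠ 0) {c : ℝ}
    (hc : 0 < c) (hp : Pos c g) (hn : ¬ IntForm g) {Y : Set (Matrix (Fin d) (Fin d) ℝ)}
    (hY : Y ⊆ Om g) (hinv : IsInv (A1 d) Y) (m : Fin d) :
    ¬ {N : Set (Matrix (Fin d) (Fin d) ℝ) | N ⊆ Y ∧ IsMin (Flow (Finset.univ.erase m)) N}.Countable
      := by
  obtain ⟨Y₀, hY₀Y, hY₀⟩ := exists_min hg hc hp hY hinv
  have hY₀Om : Y₀ ⊆ Om g := hY₀Y.trans hY
  obtain ⟨i, j, hij, him, hjm, z, hz, s, hs, huz⟩ := active hd hg hc hp hn hY₀Om hY₀.1 m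
  have hs0 : s ≠ 0 := by
    rintro rfl
    rw [abs_zero] at hs
    exact zero_ne_one hs
  have hB : IsInv (Aij i j) {w | w ∈ Y₀ ∧ (1 + Matrix.single i j s) * w ∈ Y₀} := by
    refine ⟨⟨z, hz, huz⟩, ?_, ?_, ?_⟩
    · have hcont : Continuous fun w : Matrix (Fin d) (Fin d) ℝ =>
          (1 + Matrix.single i j s) * w := continuous_const.matrix_mul continuous_id
      exact hY₀.1.closed.inter (hY₀.1.closed.preimage hcont)
    · rintro h ⟨h1, h2⟩ γ hγ
      refine ⟨hY₀.1.units h h1 γ hγ, ?_⟩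
      rw [← Matrix.mul_assoc]
      exact hY₀.1.units _ h2 γ hγ
    · rintro a ha h ⟨h1, h2⟩
      refine ⟨hY₀.1.diag a ha.1 h h1, ?_⟩
      rw [← Matrix.mul_assoc, ← shear_comm s ha.2, Matrix.mul_assoc]
      exact hY₀.1.diag a ha.1 _ h2
  obtain ⟨M, hMB, hM⟩ := exists_min hg hc hp
    (Z := {w | w ∈ Y₀ ∧ (1 + Matrix.single i j s) * w ∈ Y₀}) (fun w hw => hY₀Om hw.1) hB
  have hMY : M ⊆ Y₀ := fun w hw => (hMB hw).1
  have hMu : lm (1 + Matrix.single i j s) M ⊆ Y₀ := by
    rintro _ ⟨w, hw, rfl⟩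
    exact (hMB hw).2
  have hMr : ∀ r, lm (diagonal (unc_e i j r)) M ⊆ Y₀ := by
    rintro r _ ⟨w, hw, rfl⟩
    exact hY₀.1.diag _ (unc_e_mem i j r) w (hMY hw)
  have hinvr : ∀ r, IsInv (Flow (Finset.univ.erase m)) (lm (diagonal (unc_e i j r)) M) := by
    intro r
    refine (isInv_lm (unc_e_det i j r) (fun a _ => diag_comm a _) hM.1).mono
      (Flow_subset_Aij ?_)
    simp [him, hjm]
  have hdis : ∀ r r', r ≠ r' → Disjoint (lm (diagonal (unc_e i j r)) M)
      (lm (diagonal (unc_e i j r')) M) := by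
    intro r r' hrr
    rw [Set.disjoint_left]
    rintro h ⟨x, hx, hxh⟩ ⟨y, hy, hyh⟩
    have h1 := disjoint_translate hg hc hp hY₀Om hY₀ hij hs0 hM hMY hMu
      (unc_e_mem i j (r - r')) (unc_e_ne hij (sub_ne_zero.2 hrr))
    rw [Set.disjoint_left] at h1
    refine h1 ⟨x, hx, ?_⟩ hy
    have hxh' : diagonal (unc_e i j r) * x = h := hxh
    have hyh' : diagonal (unc_e i j r') * y = h := hyh
    show diagonal (unc_e i j (r - r')) * x = y
    have h2 : r - r' = -r' + r := by ring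
    rw [h2, unc_e_add, Matrix.mul_assoc, hxh', ← hyh', ← Matrix.mul_assoc, ← unc_e_add,
      neg_add_cancel, unc_e_zero, Matrix.one_mul]
  choose N hN hNmin using fun r => exists_min hg hc hp ((hMr r).trans hY₀Om) (hinvr r)
  intro hcount
  have hcT := hcount.to_subtype
  let f : ℝ → {N : Set (Matrix (Fin d) (Fin d) ℝ) | N ⊆ Y ∧
      IsMin (Flow (Finset.univ.erase m)) N} :=
    fun r => ⟨N r, ((hN r).trans (hMr r)).trans hY₀Y, hNmin r⟩
  have hf : Function.Injective f := by
    intro r r' hrr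
    by_contra hne
    have h1 : N r = N r' := congrArg Subtype.val hrr
    obtain ⟨w, hw⟩ := (hNmin r).1.nonempty
    exact Set.disjoint_left.1 (hdis r r' hne) (hN r hw) (hN r' (h1 ▸ hw))
  have hcR : Countable ℝ := hf.countable
  exact not_countable hcR

end Pool.Agent.H46.RG
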