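import Pool.Agent.H46.RG.Def

/-!
# Basic: the lattices in the closed orbit keep the lower bound

`h ∈ Om g`: `h = lim h n`, `h n = diag (a n) g γ n` (sequences: the matrix space is first countable,
instance in `H89.CSD.Magnify`).  `|det (h n)| = |∏ a n| |det g|` (`γ n` has determinant `±1`) tends to
`|det h| = |det g|`, so `|∏ a n| → 1`.  `P (h n) (ic x) = (∏ a n) * P g (ic (γ n *ᵥ x))` (`P_diag_mul`,
`P_mul_im`; write `diag a * g * im γ = diag a * (g * im γ)`), and `γ n *ᵥ x ≠ 0`, so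
`|P (h n) (ic x)| ≥ |∏ a n| c`.  Pass to the limit (`continuous_P`).
-/

set_option autoImplicit false

namespace Pool.Agent.H46.RG

open Matrix Filter Topology Pool.Agent.H89.CSD

variable {d : ℕ}

theorem Om_det_ne {g h : Matrix (Fin d) (Fin d) ℝ} (hg : g.det ≠ 0) (hh : h ∈ Om g) :
    h.det ≠ 0 := by
  intro h0
  have := hh.2
  rw [h0, abs_zero] at this
  exact hg (abs_eq_zero.1 this.symm)

private lemma abs_det_unit_im {γ : Matrix (Fin d) (Fin d) ℤ} (h : IsUnit γ.det) :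
    |(im γ).det| = 1 := by
  rw [det_im, ← Int.cast_abs, Int.isUnit_iff_abs_eq.1 h, Int.cast_one]

theorem Om_pos {g : Matrix (Fin d) (Fin d) ℝ} (hg : g.det ≠ 0) {c : ℝ} (hc : 0 < c)
    (hp : Pos c g) {h : Matrix (Fin d) (Fin d) ℝ} (hh : h ∈ Om g) : Pos c h := by
  intro x hx
  have hcl : IsClosed {M : Matrix (Fin d) (Fin d) ℝ | |M.det| * c ≤ |P M (ic x)| * |g.det|} :=
    isClosed_le (continuous_det'.abs.mul continuous_const)
      ((continuous_P _).abs.mul continuous_const)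
  have hsub : Orb Set.univ g ⊆
      {M : Matrix (Fin d) (Fin d) ℝ | |M.det| * c ≤ |P M (ic x)| * |g.det|} := by
    rintro M ⟨a, -, γ, hγ, rfl⟩
    have h1 : γ.map (Int.cast : ℤ → ℝ) = im γ := rfl
    have hγ0 : γ.det ≠ 0 := hγ.ne_zero
    rw [Set.mem_ofPred_eq, h1, P_mul_im, P_diag_mul, Matrix.det_mul, Matrix.det_mul,
      Matrix.det_diagonal, abs_mul, abs_mul, abs_mul, abs_det_unit_im hγ, mul_one]
    have h2 := hp (γ *ᵥ x) (mulVec_ne hγ0 hx)
    have h3 : 0 ≤ |∏ i, a i| * |g.det| := mul_nonneg (abs_nonneg _) (abs_nonneg _)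
    nlinarith [mul_le_mul_of_nonneg_left h2 h3]
  have h4 : |h.det| * c ≤ |P h (ic x)| * |g.det| := closure_minimal hsub hcl hh.1
  rw [hh.2, mul_comm] at h4
  exact le_of_mul_le_mul_right h4 (abs_pos.2 hg)

/-- The closure of the positive orbit is contained in `Om g`, and is invariant. -/
theorem isInv_pos (g : Matrix (Fin d) (Fin d) ℝ) :
    IsInv (A1 d) (closure (Orb (A1 d) g)) ∧ closure (Orb (A1 d) g) ⊆ Om g := by
  refine ⟨⟨?_, isClosed_closure, ?_, ?_⟩, ?_⟩
  · refine ⟨g, subset_closure ⟨1, ⟨fun i => one_pos, by simp⟩, 1, by simp, ?_⟩⟩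
    have h1 : (1 : Matrix (Fin d) (Fin d) ℤ).map (Int.cast : ℤ → ℝ) = 1 := im_one
    rw [h1, Matrix.mul_one]
    have h2 : diagonal (1 : Fin d → ℝ) = (1 : Matrix (Fin d) (Fin d) ℝ) := Matrix.diagonal_one
    rw [h2, Matrix.one_mul]
  · intro h hh γ hγ
    have hc : Continuous fun M : Matrix (Fin d) (Fin d) ℝ => M * γ.map (Int.cast : ℤ → ℝ) :=
      continuous_id.matrix_mul continuous_const
    refine map_mem_closure (f := fun M : Matrix (Fin d) (Fin d) ℝ =>
      M * γ.map (Int.cast : ℤ → ℝ)) hc hh ?_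
    rintro M ⟨a, ha, γ', hγ', rfl⟩
    refine ⟨a, ha, γ' * γ, ?_, ?_⟩
    · rw [Matrix.det_mul]
      exact hγ'.mul hγ
    · have h1 : (γ' * γ).map (Int.cast : ℤ → ℝ) = γ'.map (Int.cast : ℤ → ℝ) *
          γ.map (Int.cast : ℤ → ℝ) := im_mul γ' γ
      rw [h1]
      exact Matrix.mul_assoc (diagonal a * g) _ _
  · intro b hb h hh
    have hc : Continuous fun M : Matrix (Fin d) (Fin d) ℝ => diagonal b * M :=
      continuous_const.matrix_mul continuous_id
    refine map_mem_closure hc hh ?_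
    rintro M ⟨a, ha, γ', hγ', rfl⟩
    refine ⟨fun i => b i * a i, ⟨fun i => mul_pos (hb.1 i) (ha.1 i), ?_⟩, γ', hγ', ?_⟩
    · rw [Finset.prod_mul_distrib, hb.2, ha.2, one_mul]
    · rw [← Matrix.diagonal_mul_diagonal]
      simp only [Matrix.mul_assoc]
  · intro h hh
    refine ⟨closure_mono ?_ hh, ?_⟩
    · rintro M ⟨a, -, γ, hγ, rfl⟩
      exact ⟨a, Set.mem_univ _, γ, hγ, rfl⟩
    · have hcl : IsClosed {M : Matrix (Fin d) (Fin d) ℝ | |M.det| = |g.det|} :=
        isClosed_eq continuous_det'.abs continuous_const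
      have hsub : Orb (A1 d) g ⊆ {M : Matrix (Fin d) (Fin d) ℝ | |M.det| = |g.det|} := by
        rintro M ⟨a, ha, γ, hγ, rfl⟩
        have h1 : γ.map (Int.cast : ℤ → ℝ) = im γ := rfl
        rw [Set.mem_ofPred_eq, h1, Matrix.det_mul, Matrix.det_mul, Matrix.det_diagonal, abs_mul,
          abs_mul, abs_det_unit_im hγ, ha.2, abs_one, one_mul, mul_one]
      exact closure_minimal hsub hcl hh

end Pool.Agent.H46.RG
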