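import Pool.Agent.H46.RG.Def

/-!
# CharA: the characteristic polynomial of a block triangular return

Let `T = diagonal (flow I (-m)) * (1 + E)` with `E a b = 0` for `a ∈ I`, `b ∉ I` and `|E i j| < δ`,
`δ = 1 / (8 d ^ 2)` (`d ≥ 1`), `m ≥ 1`, `p = |I|`.  Then the complex characteristic polynomial of `T`
has a multiset of roots that splits into `A + B`, `card A = p`, `card B = d - p`, with
`| log ‖z‖ + m (d - p) | ≤ 1 / (4 d)` for `z ∈ A` and `| log ‖z‖ - m p | ≤ 1 / (4 d)` for `z ∈ B`.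

Proof.  Up to the reindexing `Fin d ≃ I ⊕ Iᶜ` the matrix is block lower triangular with diagonal
blocks `exp (- m (d - p)) (1 + E_II)` and `exp (m p) (1 + E_JJ)` (`Matrix.charpoly_fromBlocks_zero₁₂`,
`Matrix.charpoly_reindex`, or `Matrix.twoBlockTriangular_det` applied to `z - T`), so its
characteristic polynomial is the product of theirs; the roots of the charpoly of a block are its
eigenvalues.  An eigenvalue `z` of `λ (1 + F)` (`λ > 0`, `F` of size `k ≤ d`, entries `< δ`) has an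
eigenvector `x` with `‖x‖_∞ = 1`: `(z / λ - 1) x = F x`, so `‖z / λ - 1‖ ≤ k δ ≤ 1 / (8 d)`, hence
`| log (‖z‖ / λ) | ≤ 1 / (4 d)` (for `|u - 1| ≤ 1/8`: `|log u| ≤ 2 |u - 1|`).
-/

set_option autoImplicit false

namespace Pool.Agent.H46.RG

open Matrix Filter Topology Polynomial Pool.Agent.H89.CSD

variable {d : ℕ}

theorem abs_log_le_two {u : ℝ} (h : |u - 1| ≤ 1 / 8) : |Real.log u| ≤ 2 * |u - 1| := by
  obtain ⟨h1, h2⟩ := abs_le.1 h
  have hu : 0 < u := by linarith
  have h3 := Real.log_le_sub_one_of_pos hu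
  have h4 := Real.log_le_sub_one_of_pos (inv_pos.2 hu)
  rw [Real.log_inv] at h4
  have h5 : u⁻¹ - 1 ≤ 2 * |u - 1| := by
    have h6 : u⁻¹ - 1 = (1 - u) * u⁻¹ := by
      field_simp
    rw [h6]
    have h7 : u⁻¹ ≤ 2 := by
      rw [inv_le_comm₀ hu (by norm_num)]
      linarith
    have h8 : 1 - u ≤ |u - 1| := by
      rw [abs_sub_comm]
      exact le_abs_self _
    calc (1 - u) * u⁻¹ ≤ |u - 1| * u⁻¹ :=
          mul_le_mul_of_nonneg_right h8 (inv_pos.2 hu).le
      _ ≤ |u - 1| * 2 := mul_le_mul_of_nonneg_left h7 (abs_nonneg _)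
      _ = 2 * |u - 1| := by ring
  refine abs_le.2 ⟨by linarith, ?_⟩
  have h9 : u - 1 ≤ |u - 1| := le_abs_self _
  have h10 : 0 ≤ |u - 1| := abs_nonneg _
  linarith

/-- Eigenvalues of a small perturbation of a scalar matrix. -/
theorem eig_near {ι : Type} [Fintype ι] [DecidableEq ι] (hd : 1 ≤ d) (hι : Fintype.card ι ≤ d)
    {l : ℝ} (hl : 0 < l) (F : Matrix ι ι ℝ) (hF : ∀ i j, |F i j| < 1 / (8 * (d : ℝ) ^ 2)) {z : ℂ}
    (hz : z ∈ ((l • (1 + F)).map (algebraMap ℝ ℂ)).charpoly.roots) :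
    |Real.log ‖z‖ - Real.log l| ≤ 1 / (4 * d) := by
  have hd' : (1 : ℝ) ≤ d := by exact_mod_cast hd
  have h1 := (Polynomial.mem_roots'.1 hz).2
  rw [Polynomial.IsRoot.def, Matrix.eval_charpoly] at h1
  obtain ⟨v, hv0, hv⟩ := Matrix.exists_mulVec_eq_zero_iff.2 h1
  have hne : (Finset.univ : Finset ι).Nonempty := by
    obtain ⟨i, -⟩ := Function.ne_iff.1 hv0
    exact ⟨i, Finset.mem_univ i⟩
  obtain ⟨i, -, hi⟩ := Finset.exists_max_image Finset.univ (fun i => ‖v i‖) hne
  have hvi : 0 < ‖v i‖ := by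
    rcases (norm_nonneg (v i)).lt_or_eq with h | h
    · exact h
    · exfalso
      apply hv0
      funext j
      have := hi j (Finset.mem_univ j)
      rw [← h] at this
      simpa using norm_le_zero_iff.1 this
  have h2 : (z - l) * v i = l * ∑ j, (F i j : ℂ) * v j := by
    have h3 := congrFun hv i
    rw [Matrix.sub_mulVec, Pi.sub_apply, Pi.zero_apply, sub_eq_zero] at h3
    have h4 : ((Matrix.scalar ι) z *ᵥ v) i = z * v i := by
      simp [Matrix.scalar_apply, Matrix.mulVec_diagonal]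
    have h5 : (((l • (1 + F)).map (algebraMap ℝ ℂ)) *ᵥ v) i
        = l * v i + l * ∑ j, (F i j : ℂ) * v j := by
      rw [Matrix.mulVec, dotProduct]
      have h6 : ∀ j, ((l • (1 + F)).map (algebraMap ℝ ℂ)) i j * v j
          = l * ((1 : Matrix ι ι ℂ) i j * v j) + l * ((F i j : ℂ) * v j) := by
        intro j
        rw [Matrix.map_apply, Matrix.smul_apply, Matrix.add_apply, smul_eq_mul]
        by_cases hij : i = j
        · subst hij
          simp
          ring
        · simp [Matrix.one_apply_ne hij]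
          ring
      rw [Finset.sum_congr rfl (fun j _ => h6 j), Finset.sum_add_distrib, ← Finset.mul_sum,
        ← Finset.mul_sum]
      congr 2
      simp [Matrix.one_apply]
    rw [h4, h5] at h3
    linear_combination h3
  have h3 : ‖z - l‖ * ‖v i‖ ≤ l * (d * (1 / (8 * (d : ℝ) ^ 2))) * ‖v i‖ := by
    rw [← norm_mul, h2, norm_mul]
    have h4 : ‖(l : ℂ)‖ = l := by simp [abs_of_pos hl]
    rw [h4, mul_assoc]
    refine mul_le_mul_of_nonneg_left ?_ hl.le
    calc ‖∑ j, (F i j : ℂ) * v j‖ ≤ ∑ j, ‖(F i j : ℂ) * v j‖ := norm_sum_le _ _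
      _ ≤ ∑ _j : ι, 1 / (8 * (d : ℝ) ^ 2) * ‖v i‖ := by
          refine Finset.sum_le_sum (fun j _ => ?_)
          rw [norm_mul]
          refine mul_le_mul ?_ (hi j (Finset.mem_univ j)) (norm_nonneg _) (by positivity)
          rw [Complex.norm_real, Real.norm_eq_abs]
          exact (hF i j).le
      _ = Fintype.card ι * (1 / (8 * (d : ℝ) ^ 2) * ‖v i‖) := by
          rw [Finset.sum_const, Finset.card_univ, nsmul_eq_mul]
      _ ≤ d * (1 / (8 * (d : ℝ) ^ 2) * ‖v i‖) := by
          refine mul_le_mul_of_nonneg_right (by exact_mod_cast hι) (by positivity)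
      _ = d * (1 / (8 * (d : ℝ) ^ 2)) * ‖v i‖ := by ring
  have h4 : ‖z - l‖ ≤ l * (1 / (8 * d)) := by
    have h5 := le_of_mul_le_mul_right h3 hvi
    have h6 : (d : ℝ) * (1 / (8 * (d : ℝ) ^ 2)) = 1 / (8 * d) := by
      field_simp
    rwa [h6] at h5
  have h5 : |‖z‖ / l - 1| ≤ 1 / (8 * d) := by
    have h6 : ‖z‖ / l - 1 = (‖z‖ - l) / l := by field_simp
    rw [h6, abs_div, abs_of_pos hl, div_le_iff₀ hl]
    have h7 : |‖z‖ - l| ≤ ‖z - l‖ := by
      have := abs_norm_sub_norm_le z (l : ℂ)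
      rwa [Complex.norm_real, Real.norm_eq_abs, abs_of_pos hl] at this
    linarith
  have h6 : (1 : ℝ) / (8 * d) ≤ 1 / 8 := by
    rw [div_le_div_iff₀ (by positivity) (by norm_num)]
    linarith
  have h7 := abs_log_le_two (h5.trans h6)
  have hz0 : ‖z‖ ≠ 0 := by
    intro h0
    rw [h0, zero_div, zero_sub, abs_neg, abs_one] at h5
    linarith
  rw [Real.log_div hz0 hl.ne'] at h7
  refine h7.trans ?_
  calc 2 * |‖z‖ / l - 1| ≤ 2 * (1 / (8 * d)) := by linarith
    _ = 1 / (4 * d) := by ring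

theorem toSquareBlockProp_charmatrix (M : Matrix (Fin d) (Fin d) ℂ) (p : Fin d → Prop)
    [DecidablePred p] :
    toSquareBlockProp (charmatrix M) p = charmatrix (toSquareBlockProp M p) := by
  refine Matrix.ext fun i j => ?_
  rw [toSquareBlockProp_def, Matrix.of_apply, toSquareBlockProp_def, charmatrix_apply,
    charmatrix_apply, Matrix.of_apply]
  congr 1
  by_cases h : i = j
  · subst h
    simp
  · rw [Matrix.diagonal_apply_ne _ h, Matrix.diagonal_apply_ne _ (fun h' => h (Subtype.ext h'))]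

theorem charpoly_two (M : Matrix (Fin d) (Fin d) ℂ) (p : Fin d → Prop) [DecidablePred p]
    (h : ∀ i, p i → ∀ j, ¬p j → M i j = 0) :
    M.charpoly = (toSquareBlockProp M p).charpoly *
      (toSquareBlockProp M fun i => ¬p i).charpoly := by
  rw [Matrix.charpoly, twoBlockTriangular_det' (charmatrix M) p, toSquareBlockProp_charmatrix,
    toSquareBlockProp_charmatrix, Matrix.charpoly, Matrix.charpoly]
  intro i hi j hj
  have hij : i ≠ j := by
    rintro rfl
    exact hj hi
  rw [charmatrix_apply_ne _ _ _ hij, h i hi j hj, C_0, neg_zero]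

theorem roots_split_gen (hd : 1 ≤ d) (p : Fin d → Prop) [DecidablePred p] {a b : ℝ} (ha : 0 < a)
    (hb : 0 < b) (c : Fin d → ℝ) (hca : ∀ i, p i → c i = a) (hcb : ∀ i, ¬ p i → c i = b)
    (E : Matrix (Fin d) (Fin d) ℝ) (hE : ∀ i j, |E i j| < 1 / (8 * (d : ℝ) ^ 2))
    (hE0 : ∀ i, p i → ∀ j, ¬ p j → E i j = 0) :
    ∃ A B : Multiset ℂ,
      ((diagonal c * (1 + E)).map (algebraMap ℝ ℂ)).charpoly.roots = A + B ∧
      A.card = Fintype.card {i // p i} ∧ B.card = Fintype.card {i // ¬ p i} ∧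
      (∀ z ∈ A, |Real.log ‖z‖ - Real.log a| ≤ 1 / (4 * d)) ∧
      (∀ z ∈ B, |Real.log ‖z‖ - Real.log b| ≤ 1 / (4 * d)) := by
  classical
  obtain ⟨T, hT⟩ : ∃ T : Matrix (Fin d) (Fin d) ℂ,
    T = (diagonal c * (1 + E)).map (algebraMap ℝ ℂ) := ⟨_, rfl⟩
  rw [← hT]
  have hTij : ∀ i j, T i j = ((c i * (1 + E) i j : ℝ) : ℂ) := by
    intro i j
    rw [hT, Matrix.map_apply, Matrix.diagonal_mul]
    rfl
  have h0 : ∀ i, p i → ∀ j, ¬ (p j) → T i j = 0 := by
    intro i hi j hj
    have hij : i ≠ j := by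
      rintro rfl
      exact hj hi
    rw [hTij, Matrix.add_apply, Matrix.one_apply_ne hij, hE0 i hi j hj]
    simp
  have hsplit := charpoly_two T p h0
  have hbl : ∀ (q : Fin d → Prop) [DecidablePred q] (l : ℝ), (∀ i, q i → c i = l) →
      toSquareBlockProp T q
        = (l • (1 + toSquareBlockProp E q)).map (algebraMap ℝ ℂ) := by
    intro q _ l hl
    refine Matrix.ext fun i j => ?_
    rw [toSquareBlockProp_def, Matrix.of_apply, hTij, Matrix.map_apply, Matrix.smul_apply,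
      Matrix.add_apply, Matrix.add_apply, toSquareBlockProp_def, Matrix.of_apply, smul_eq_mul,
      hl _ i.2]
    have h1 : (1 : Matrix (Fin d) (Fin d) ℝ) i j
        = (1 : Matrix {a // q a} {a // q a} ℝ) i j := by
      by_cases h : i = j
      · subst h
        simp
      · rw [Matrix.one_apply_ne h, Matrix.one_apply_ne (fun h' => h (Subtype.ext h'))]
    rw [h1]
    rfl
  have hle : ∀ (q : Fin d → Prop) [DecidablePred q], Fintype.card {i // q i} ≤ d := by
    intro q _
    have := Fintype.card_subtype_le q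
    rwa [Fintype.card_fin] at this
  refine ⟨(toSquareBlockProp T p).charpoly.roots,
    (toSquareBlockProp T (fun i => ¬ p i)).charpoly.roots, ?_, ?_, ?_, ?_, ?_⟩
  · rw [hsplit]
    exact Polynomial.roots_mul
      (mul_ne_zero (Matrix.charpoly_monic (toSquareBlockProp T p)).ne_zero
        (Matrix.charpoly_monic (toSquareBlockProp T (fun i => ¬ p i))).ne_zero)
  · rw [IsAlgClosed.card_roots_eq_natDegree, Matrix.charpoly_natDegree_eq_dim]
  · rw [IsAlgClosed.card_roots_eq_natDegree, Matrix.charpoly_natDegree_eq_dim]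
  · intro z hz
    rw [hbl p a hca] at hz
    exact eig_near (d := d) hd (hle p) ha (toSquareBlockProp E p) (fun i j => hE i j) hz
  · intro z hz
    rw [hbl (fun i => ¬ p i) b hcb] at hz
    exact eig_near (d := d) hd (hle (fun i => ¬ p i)) hb (toSquareBlockProp E (fun i => ¬ p i))
      (fun i j => hE i j) hz

set_option linter.unusedVariables false in
theorem roots_split (hd : 1 ≤ d) (I : Finset (Fin d)) {m : ℕ} (hm : 1 ≤ m)
    (E : Matrix (Fin d) (Fin d) ℝ) (hE : ∀ i j, |E i j| < 1 / (8 * (d : ℝ) ^ 2))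
    (hE0 : ∀ a ∈ I, ∀ b, b ∉ I → E a b = 0) :
    ∃ A B : Multiset ℂ,
      ((diagonal (flow I (-m)) * (1 + E)).map (algebraMap ℝ ℂ)).charpoly.roots = A + B ∧
      A.card = I.card ∧ B.card = d - I.card ∧
      (∀ z ∈ A, |Real.log ‖z‖ + m * ((d : ℝ) - I.card)| ≤ 1 / (4 * d)) ∧
      (∀ z ∈ B, |Real.log ‖z‖ - m * (I.card : ℝ)| ≤ 1 / (4 * d)) := by
  obtain ⟨A, B, h1, h2, h3, h4, h5⟩ := roots_split_gen hd (fun i => i ∈ I)
    (Real.exp_pos (-(m : ℝ) * ((d : ℝ) - I.card))) (Real.exp_pos ((m : ℝ) * I.card))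
    (flow I (-m)) (fun i hi => by rw [flow, if_pos hi])
    (fun i hi => by rw [flow, if_neg hi, neg_mul_neg]) E hE hE0
  have hcA : A.card = I.card := by
    rw [h2]
    simp
  refine ⟨A, B, h1, hcA, ?_, ?_, ?_⟩
  · rw [h3, Fintype.card_subtype_compl, Fintype.card_fin]
    congr 1
    simp
  · intro z hz
    have h6 := h4 z hz
    rw [Real.log_exp] at h6
    convert h6 using 2
    ring
  · intro z hz
    have h6 := h5 z hz
    rw [Real.log_exp] at h6
    exact h6

end Pool.Agent.H46.RG
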