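import Pool.Agent.H46.RG.Basic

/-!
# Comp: compactness modulo `GL_d(ℤ)`

`fund`: Mahler's criterion `H89.CSD.mahler` with `ρ = min c 1`, `δ = D = |det g|`, and `Pos.short`.
`subseq`: `z n ∈ Z ⊆ Om g`; choose `U n` with entries of `z n * im (U n)` in `[-R, R]`; these
matrices lie in the compact set `KK d R |det g| |det g|` (`isCompact_KK`; the determinant of
`im U` is `±1`, `abs_det_im_unit`), take a convergent subsequence (`IsCompact.tendsto_subseq`); the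
limit is in `Z` because `Z` is closed and invariant.
-/

set_option autoImplicit false

namespace Pool.Agent.H46.RG

open Matrix Filter Topology Pool.Agent.H89.CSD

variable {d : ℕ}

theorem fund {g : Matrix (Fin d) (Fin d) ℝ} (hg : g.det ≠ 0) {c : ℝ} (hc : 0 < c)
    (hp : Pos c g) : ∃ R : ℝ, 0 ≤ R ∧ ∀ h ∈ Om g, ∃ U : (Matrix (Fin d) (Fin d) ℤ)ˣ,
      ∀ i j, |(h * im (U : Matrix (Fin d) (Fin d) ℤ)) i j| ≤ R := by
  obtain ⟨R, hR0, hR⟩ := mahler d (min c 1) |g.det| |g.det| (lt_min hc one_pos) (abs_pos.2 hg)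
    (abs_nonneg _)
  exact ⟨R, hR0, fun h hh => hR h hh.2.ge hh.2.le fun x hx => (Om_pos hg hc hp hh).short hx⟩

theorem subseq {g : Matrix (Fin d) (Fin d) ℝ} (hg : g.det ≠ 0) {c : ℝ} (hc : 0 < c)
    (hp : Pos c g) {S : Set (Fin d → ℝ)} {Z : Set (Matrix (Fin d) (Fin d) ℝ)}
    (hZ : Z ⊆ Om g) (hinv : IsInv S Z) (z : ℕ → Matrix (Fin d) (Fin d) ℝ) (hz : ∀ n, z n ∈ Z) :
    ∃ w ∈ Z, ∃ (φ : ℕ → ℕ) (U : ℕ → (Matrix (Fin d) (Fin d) ℤ)ˣ), StrictMono φ ∧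
      Tendsto (fun n => z (φ n) * im (U n : Matrix (Fin d) (Fin d) ℤ)) atTop (𝓝 w) := by
  obtain ⟨R, hR0, hR⟩ := fund hg hc hp
  choose U hU using fun n => hR (z n) (hZ (hz n))
  have hK : ∀ n, z n * im (U n : Matrix (Fin d) (Fin d) ℤ) ∈ Z ∩ KK d R |g.det| |g.det| := by
    intro n
    have h1 := hinv.im (hz n) (U n)
    exact ⟨h1, hU n, (hZ h1).2.ge, (hZ h1).2.le⟩
  obtain ⟨w, hw, φ, hφ, hlim⟩ :=
    ((isCompact_KK R |g.det| |g.det|).inter_left hinv.closed).tendsto_subseq hK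
  exact ⟨w, hw.1, φ, fun n => U (φ n), hφ, hlim⟩

end Pool.Agent.H46.RG
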