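import Mathlib
import Pool.Agent.H89.CSD.Iso
import Pool.Agent.H89.CSD.Shear

/-!
# Rigidity of bounded orbits (MP_edeaa2_an): definitions

All lattices are given by real matrices `h`: the lattice `h ℤ^d`, two matrices give the same lattice
when they differ by an element of `GL_d(ℤ)` on the right.  Diagonal matrices act on the left.
-/

set_option autoImplicit false

namespace Pool.Agent.H46.RG

open Matrix Filter Topology Pool.Agent.H89.CSD

variable {d : ℕ}

/-- The matrices `diag(a) g γ` with `a ∈ S` and `γ ∈ GL_d(ℤ)`. -/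
def Orb (S : Set (Fin d → ℝ)) (g : Matrix (Fin d) (Fin d) ℝ) : Set (Matrix (Fin d) (Fin d) ℝ) :=
  {h | ∃ a ∈ S, ∃ γ : Matrix (Fin d) (Fin d) ℤ, IsUnit γ.det ∧
    h = diagonal a * g * γ.map (Int.cast : ℤ → ℝ)}

/-- The closure of the orbit of `g` under all real diagonal matrices and `GL_d(ℤ)`, normalised by
`|det h| = |det g|`. -/
def Om (g : Matrix (Fin d) (Fin d) ℝ) : Set (Matrix (Fin d) (Fin d) ℝ) :=
  {h | h ∈ closure (Orb Set.univ g) ∧ |h.det| = |g.det|}

/-- The positive diagonal matrices of determinant one. -/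
def A1 (d : ℕ) : Set (Fin d → ℝ) := {a | (∀ i, 0 < a i) ∧ ∏ i, a i = 1}

/-- The one-parameter group of the block `I`: `exp ((d - |I|) t)` on `I`, `exp (- |I| t)` off `I`. -/
noncomputable def flow (I : Finset (Fin d)) (t : ℝ) (i : Fin d) : ℝ :=
  Real.exp (t * (if i ∈ I then (d : ℝ) - I.card else -(I.card : ℝ)))

/-- The one-parameter group of the block `I` as a set. -/
def Flow (I : Finset (Fin d)) : Set (Fin d → ℝ) := Set.range (flow I)

/-- A nonempty closed set of lattices, invariant under the diagonal matrices in `S`. -/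
structure IsInv (S : Set (Fin d → ℝ)) (Z : Set (Matrix (Fin d) (Fin d) ℝ)) : Prop where
  nonempty : Z.Nonempty
  closed : IsClosed Z
  units : ∀ h ∈ Z, ∀ γ : Matrix (Fin d) (Fin d) ℤ, IsUnit γ.det →
    h * γ.map (Int.cast : ℤ → ℝ) ∈ Z
  diag : ∀ a ∈ S, ∀ h ∈ Z, diagonal a * h ∈ Z

/-- A minimal nonempty closed set of lattices, invariant under the diagonal matrices in `S`. -/
def IsMin (S : Set (Fin d → ℝ)) (Z : Set (Matrix (Fin d) (Fin d) ℝ)) : Prop :=
  IsInv S Z ∧ ∀ Z', Z' ⊆ Z → IsInv S Z' → Z' = Z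

/-- The elements of `A1` with equal entries at `i` and `j`. -/
def Aij (i j : Fin d) : Set (Fin d → ℝ) := {a | a ∈ A1 d ∧ a i = a j}

/-- The matrix `v` has its nonzero entries in the rows in `I` and the columns not in `I`. -/
def Blk (I : Finset (Fin d)) (v : Matrix (Fin d) (Fin d) ℝ) : Prop :=
  ∀ a b, v a b ≠ 0 → a ∈ I ∧ b ∉ I

theorem isUnit_det_unit (U : (Matrix (Fin d) (Fin d) ℤ)ˣ) :
    IsUnit (U : Matrix (Fin d) (Fin d) ℤ).det :=
  (Matrix.isUnit_iff_isUnit_det _).1 U.isUnit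

theorem IsInv.im {S : Set (Fin d → ℝ)} {Z : Set (Matrix (Fin d) (Fin d) ℝ)} (h : IsInv S Z)
    {z : Matrix (Fin d) (Fin d) ℝ} (hz : z ∈ Z) (U : (Matrix (Fin d) (Fin d) ℤ)ˣ) :
    z * im (U : Matrix (Fin d) (Fin d) ℤ) ∈ Z :=
  h.units z hz _ (isUnit_det_unit U)

theorem IsInv.mono {S S' : Set (Fin d → ℝ)} {Z : Set (Matrix (Fin d) (Fin d) ℝ)} (h : IsInv S Z)
    (hS : S' ⊆ S) : IsInv S' Z :=
  ⟨h.nonempty, h.closed, h.units, fun a ha => h.diag a (hS ha)⟩

theorem exists_unit {γ : Matrix (Fin d) (Fin d) ℤ} (h : IsUnit γ.det) :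
    ∃ U : (Matrix (Fin d) (Fin d) ℤ)ˣ, (U : Matrix (Fin d) (Fin d) ℤ) = γ := by
  obtain ⟨U, hU⟩ := (Matrix.isUnit_iff_isUnit_det _).2 h
  exact ⟨U, hU⟩

theorem flow_pos (I : Finset (Fin d)) (t : ℝ) (i : Fin d) : 0 < flow I t i := Real.exp_pos _

theorem flow_zero (I : Finset (Fin d)) : flow I 0 = 1 := by
  ext i
  simp [flow]

theorem flow_add (I : Finset (Fin d)) (s t : ℝ) (i : Fin d) :
    flow I (s + t) i = flow I s i * flow I t i := by
  rw [flow, flow, flow, ← Real.exp_add, add_mul]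

theorem flow_prod (I : Finset (Fin d)) (t : ℝ) : ∏ i, flow I t i = 1 := by
  classical
  unfold flow
  rw [← Real.exp_sum, ← Finset.mul_sum]
  have h : ∑ i : Fin d, (if i ∈ I then (d : ℝ) - I.card else -(I.card : ℝ)) = 0 := by
    rw [Finset.sum_ite, Finset.sum_const, Finset.sum_const]
    have h1 : (Finset.univ.filter (fun i : Fin d => i ∈ I)).card = I.card := by
      congr 1
      ext
      simp
    have h2 : (Finset.univ.filter (fun i : Fin d => i ∉ I)).card = d - I.card := by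
      have h3 := Finset.card_filter_add_card_filter_not (s := (Finset.univ : Finset (Fin d)))
        (fun i => i ∈ I)
      rw [h1, Finset.card_univ, Fintype.card_fin] at h3
      omega
    have h4 : I.card ≤ d := by simpa using Finset.card_le_univ I
    rw [h1, h2, nsmul_eq_mul, nsmul_eq_mul, Nat.cast_sub h4]
    ring
  rw [h, mul_zero, Real.exp_zero]

theorem flow_mem_A1 (I : Finset (Fin d)) (t : ℝ) : flow I t ∈ A1 d :=
  ⟨flow_pos I t, flow_prod I t⟩

theorem Flow_subset_A1 (I : Finset (Fin d)) : Flow I ⊆ A1 d := by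
  rintro _ ⟨t, rfl⟩
  exact flow_mem_A1 I t

theorem Flow_subset_Aij {I : Finset (Fin d)} {i j : Fin d} (h : i ∈ I ↔ j ∈ I) :
    Flow I ⊆ Aij i j := by
  rintro _ ⟨t, rfl⟩
  refine ⟨flow_mem_A1 I t, ?_⟩
  unfold flow
  simp only [h]

end Pool.Agent.H46.RG
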