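import Pool.Agent.H46.RG.Lm

/-!
# Grp: a shear and an expanding diagonal matrix preserve `M`

Let `M ≠ ∅` be closed, every `h ∈ M` satisfy `Pos c h` (`c > 0`), and let `M` be preserved by
`diagonal a` with `a > 0`, `a i ≠ a j`, and by `1 + κ E_ij` with `κ ≠ 0`, `i ≠ j`.  Contradiction.

Proof.  `N = {x : ℝ | lm (1 + x E_ij) M = M}` is an additive subgroup of `ℝ` (`shear_mul`, `lm_lm`,
`lm_one`), and it is closed: if `x n → x` in `N` and `h ∈ M` then `(1 + x n E_ij) h ∈ M` tends to
`(1 + x E_ij) h ∈ M`; the same for `- x`.  With `θ = a i / a j`, `θ > 0`, `θ ≠ 1`, `shear_conj` shows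
`x ∈ N → θ x ∈ N` and `x ∈ N → θ⁻¹ x ∈ N`; so `κ θ ^ n ∈ N` for all `n ∈ ℤ`, and `N` contains arbitrarily small
positive elements (replace `κ` by `-κ` if necessary, `θ` by `θ⁻¹`), hence `N` is dense
(`AddSubgroup.dense_of_not_isolated_zero`) and closed, so `N = ℝ`.  Take `h ∈ M` and any integer `x ≠ 0`
(`d ≥ 1`).  `(h x) j ≠ 0` (otherwise `P h x = 0 < c`), so for `s = - (h x) i / (h x) j` the matrix
`(1 + s E_ij) h` is in `M` but its product at `x` is zero (`shear_mulVec_eq`), contradicting `Pos c`.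
-/

set_option autoImplicit false

namespace Pool.Agent.H46.RG

open Matrix Filter Topology Pool.Agent.H89.CSD

variable {d : ℕ}

theorem no_group {i j : Fin d} (hij : i ≠ j) {M : Set (Matrix (Fin d) (Fin d) ℝ)}
    (hne : M.Nonempty) (hcl : IsClosed M) {c : ℝ} (hc : 0 < c) (hpos : ∀ h ∈ M, Pos c h)
    {a : Fin d → ℝ} (ha : ∀ k, 0 < a k) (haij : a i ≠ a j) (haM : lm (diagonal a) M = M)
    {κ : ℝ} (hκ : κ ≠ 0) (hκM : lm (1 + Matrix.single i j κ) M = M) : False := by
  have h10 : (1 + Matrix.single i j (0 : ℝ) : Matrix (Fin d) (Fin d) ℝ) = 1 := by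
    rw [Matrix.single_zero, add_zero]
  let N : AddSubgroup ℝ :=
    { carrier := {x | lm (1 + Matrix.single i j x) M = M}
      zero_mem' := by
        show lm (1 + Matrix.single i j (0 : ℝ)) M = M
        rw [h10, lm_one]
      add_mem' := by
        intro x y hx hy
        show lm (1 + Matrix.single i j (x + y)) M = M
        rw [← shear_mul hij, ← lm_lm, show lm (1 + Matrix.single i j y) M = M from hy]
        exact hx
      neg_mem' := by
        intro x hx
        show lm (1 + Matrix.single i j (-x)) M = M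
        have hx' : lm (1 + Matrix.single i j x) M = M := hx
        conv_lhs => rw [← hx']
        rw [lm_lm, shear_mul hij, neg_add_cancel, h10, lm_one] }
  have hN : ∀ x, x ∈ N ↔ lm (1 + Matrix.single i j x) M = M := fun x => Iff.rfl
  -- conjugation by diagonal matrices
  have hconj : ∀ b : Fin d → ℝ, (∀ k, b k ≠ 0) → lm (diagonal b) M = M → ∀ x ∈ N,
      b i / b j * x ∈ N := by
    intro b hb hbM x hx
    rw [hN] at hx ⊢
    have h1 : lm (1 + Matrix.single i j (b i / b j * x)) (lm (diagonal b) M) =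
        lm (diagonal b) (lm (1 + Matrix.single i j x) M) := by
      rw [lm_lm, lm_lm, shear_conj x hb]
    rwa [hbM, hx, hbM] at h1
  have hainv : lm (diagonal (fun k => (a k)⁻¹)) M = M := by
    conv_lhs => rw [← haM]
    rw [lm_lm, Matrix.diagonal_mul_diagonal]
    have : (diagonal (fun k => (a k)⁻¹ * a k) : Matrix (Fin d) (Fin d) ℝ) = 1 := by
      rw [← Matrix.diagonal_one]
      congr 1
      ext k
      exact inv_mul_cancel₀ (ha k).ne'
    rw [this, lm_one]
  -- a factor less than one
  obtain ⟨θ, hθ0, hθ1, hθ⟩ : ∃ θ : ℝ, 0 < θ ∧ θ < 1 ∧ ∀ x ∈ N, θ * x ∈ N := by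
    rcases lt_or_gt_of_ne haij with h | h
    · exact ⟨a i / a j, div_pos (ha i) (ha j), (div_lt_one (ha j)).2 h,
        hconj a (fun k => (ha k).ne') haM⟩
    · refine ⟨(a i)⁻¹ / (a j)⁻¹, div_pos (inv_pos.2 (ha i)) (inv_pos.2 (ha j)), ?_,
        hconj (fun k => (a k)⁻¹) (fun k => inv_ne_zero (ha k).ne') hainv⟩
      rw [div_lt_one (inv_pos.2 (ha j))]
      exact (inv_lt_inv₀ (ha i) (ha j)).2 h
  have hκN : |κ| ∈ N := by
    rcases abs_choice κ with h | h
    · rw [h]; exact hκM
    · rw [h]; exact N.neg_mem hκM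
  have hpow : ∀ n : ℕ, θ ^ n * |κ| ∈ N := by
    intro n
    induction n with
    | zero => rwa [pow_zero, one_mul]
    | succ n ih => rw [pow_succ', mul_assoc]; exact hθ _ ih
  have hκ0 : 0 < |κ| := abs_pos.2 hκ
  have hdense : Dense (N : Set ℝ) := by
    refine AddSubgroup.dense_of_not_isolated_zero N fun ε hε => ?_
    obtain ⟨n, hn⟩ := exists_pow_lt_of_lt_one (show 0 < ε / |κ| by positivity) hθ1
    refine ⟨θ ^ n * |κ|, hpow n, by positivity, ?_⟩
    rwa [lt_div_iff₀ hκ0] at hn
  obtain ⟨h, hh⟩ := hne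
  -- all shears of `h` are in `M`
  have hall : ∀ s : ℝ, (1 + Matrix.single i j s) * h ∈ M := by
    have hcont : Continuous fun s : ℝ => (1 + Matrix.single i j s) * h := by
      refine Continuous.mul (continuous_const.add ?_) continuous_const
      refine continuous_matrix fun p q => ?_
      simp only [Matrix.single, Matrix.of_apply]
      split_ifs
      · exact continuous_id
      · exact continuous_const
    have hclosed : IsClosed {s : ℝ | (1 + Matrix.single i j s) * h ∈ M} := hcl.preimage hcont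
    have hsub : (N : Set ℝ) ⊆ {s : ℝ | (1 + Matrix.single i j s) * h ∈ M} := by
      intro x hx
      have hx' : lm (1 + Matrix.single i j x) M = M := hx
      show (1 + Matrix.single i j x) * h ∈ M
      rw [← hx']
      exact ⟨h, hh, rfl⟩
    intro s
    have h2 := hclosed.closure_subset_iff.2 hsub
    exact h2 (hdense s)
  -- a vanishing product
  set x : Fin d → ℤ := Pi.single i 1 with hx
  have hx0 : x ≠ 0 := by
    intro h0
    have := congrFun h0 i
    rw [hx, Pi.single_eq_same, Pi.zero_apply] at this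
    exact one_ne_zero this
  have hj : (h *ᵥ ic x) j ≠ 0 := by
    intro h0
    have h1 := hpos h hh x hx0
    rw [P_eq, Finset.prod_eq_zero (Finset.mem_univ j) h0, abs_zero] at h1
    linarith
  have h3 := hpos _ (hall (-(h *ᵥ ic x) i / (h *ᵥ ic x) j)) x hx0
  have h4 : (((1 + Matrix.single i j (-(h *ᵥ ic x) i / (h *ᵥ ic x) j)) * h) *ᵥ ic x) i = 0 := by
    rw [shear_mulVec_eq, div_mul_cancel₀ _ hj, add_neg_cancel]
  rw [P_eq, Finset.prod_eq_zero (Finset.mem_univ i) h4, abs_zero] at h3
  linarith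

end Pool.Agent.H46.RG
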