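import Pool.Agent.H46.RG.Uni
import Pool.Agent.H46.RG.Grp
import Pool.Agent.H46.RG.Basic

/-!
# Dis: translates of a minimal set are disjoint

`Y ⊆ Om g` is `A1`-minimal, `i ≠ j`, `s ≠ 0`, `u = 1 + s E_ij`, `M` is `Aij i j`-minimal, `M ⊆ Y`,
`lm u M ⊆ Y`.  If `a ∈ A1`, `a i ≠ a j` then `lm (diagonal a) M` and `M` are disjoint.

Proof.  Otherwise they are equal (`isMin_lm` with `diag_comm`, `min_eq`).  By `isInv_union` the set
`Y' = ⋃ b ∈ A1, lm (diagonal b) M` is `A1`-invariant, contained in `Y`, so it is `Y`.  `lm u M ⊆ Y` is minimal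
(`isMin_lm` with `shear_comm`) and nonempty, so it meets some `lm (diagonal b) M`, `b ∈ A1`, which is
minimal too: `lm u M = lm (diagonal b) M`.  Let `c = (diagonal b)⁻¹ u`: `lm c M = M`.  The commutator of
`diagonal a` and `c` preserves `M`, and it equals `(diagonal b)⁻¹ (1 + (θ - 1) s E_ij) (diagonal b) = 1 + κ E_ij`
with `θ = a i / a j ≠ 1`, `κ = (θ - 1) s b j / b i ≠ 0`.  (Concretely: `diagonal a * u = (1 + θ s E_ij) * diagonal a`;
from `lm u M = lm (diagonal b) M` and `lm (diagonal a) M = M` one gets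
`lm (1 + θ s E_ij) M = lm (diagonal b) M = lm u M`, so `lm (1 + (θ - 1) s E_ij) (lm u M) = lm u M`; the set
`lm u M` is also preserved by `diagonal a` because it is `lm (diagonal b) M`.)  So `no_group` applies to
the set `lm u M` with `κ = (θ - 1) s`.
-/

set_option autoImplicit false

namespace Pool.Agent.H46.RG

open Matrix Filter Topology Pool.Agent.H89.CSD

variable {d : ℕ}

theorem disjoint_translate {g : Matrix (Fin d) (Fin d) ℝ} (hg : g.det ≠ 0) {c : ℝ} (hc : 0 < c)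
    (hp : Pos c g) {Y : Set (Matrix (Fin d) (Fin d) ℝ)} (hY : Y ⊆ Om g) (hmin : IsMin (A1 d) Y)
    {i j : Fin d} (hij : i ≠ j) {s : ℝ} (hs : s ≠ 0) {M : Set (Matrix (Fin d) (Fin d) ℝ)}
    (hM : IsMin (Aij i j) M) (hMY : M ⊆ Y) (hMu : lm (1 + Matrix.single i j s) M ⊆ Y)
    {a : Fin d → ℝ} (ha : a ∈ A1 d) (haij : a i ≠ a j) :
    Disjoint (lm (diagonal a) M) M := by
  by_contra hcon
  obtain ⟨x, hx1, hx2⟩ := Set.not_disjoint_iff.1 hcon
  have hdet : ∀ b ∈ A1 d, (diagonal b : Matrix (Fin d) (Fin d) ℝ).det ≠ 0 := by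
    intro b hb
    rw [Matrix.det_diagonal, hb.2]
    exact one_ne_zero
  have hMb : ∀ b ∈ A1 d, IsMin (Aij i j) (lm (diagonal b) M) := fun b hb =>
    isMin_lm (hdet b hb) (fun e _ => diag_comm e b) hM
  have haM : lm (diagonal a) M = M := min_eq (hMb a ha) hM ⟨x, hx1, hx2⟩
  have hU := isInv_union hij hM.1 ha haij haM
  have hUY : (⋃ b ∈ A1 d, lm (diagonal b) M) = Y := by
    refine hmin.2 _ ?_ hU
    refine Set.iUnion₂_subset fun b hb => ?_
    rintro _ ⟨h, hh, rfl⟩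
    exact hmin.1.diag b hb h (hMY hh)
  obtain ⟨h0, hh0⟩ := hM.1.nonempty
  have h1 : (1 + Matrix.single i j s) * h0 ∈ lm (1 + Matrix.single i j s) M := ⟨h0, hh0, rfl⟩
  have h2 : (1 + Matrix.single i j s) * h0 ∈ ⋃ b ∈ A1 d, lm (diagonal b) M := by
    rw [hUY]
    exact hMu h1
  obtain ⟨b, hb, hb2⟩ := Set.mem_iUnion₂.1 h2
  have hNmin : IsMin (Aij i j) (lm (1 + Matrix.single i j s) M) :=
    isMin_lm (by rw [shear_det hij]; exact one_ne_zero) (fun e he => shear_comm s he.2) hM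
  have hub : lm (1 + Matrix.single i j s) M = lm (diagonal b) M :=
    min_eq hNmin (hMb b hb) ⟨_, h1, hb2⟩
  have haN : lm (diagonal a) (lm (1 + Matrix.single i j s) M) =
      lm (1 + Matrix.single i j s) M := by
    rw [hub, lm_lm, diag_comm a b, ← lm_lm, haM]
  have hθM : lm (1 + Matrix.single i j (a i / a j * s)) M = lm (1 + Matrix.single i j s) M := by
    conv_rhs => rw [← haN, lm_lm, shear_conj s (fun k => (ha.1 k).ne'), ← lm_lm, haM]
  have haj : a j ≠ 0 := (ha.1 j).ne'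
  have hθ : a i / a j ≠ 1 := by
    intro h
    rw [div_eq_one_iff_eq haj] at h
    exact haij h
  refine no_group hij hNmin.1.nonempty hNmin.1.closed hc
    (fun h hh => Om_pos hg hc hp (hY (hMu hh))) ha.1 haij haN
    (κ := (a i / a j - 1) * s) (mul_ne_zero (sub_ne_zero.2 hθ) hs) ?_
  rw [lm_lm, shear_mul hij]
  have h3 : (a i / a j - 1) * s + s = a i / a j * s := by ring
  rw [h3, hθM]

end Pool.Agent.H46.RG
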