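import Mathlib

/-!
# For: a finite set of reals with distances at many scales is large

Let `N` be a finite set of reals, `0 < a ≤ b`, `L ≥ 4`, `L > 4 b / a`, and for `k < K` let `p k, q k ∈ N` with
`a L^(-k) ≤ |p k - q k| ≤ b L^(-k)`.  Then `K + 1 ≤ |N|` (`N` nonempty if `K = 0`).

Proof.  For `j ≤ K` there is `f : ℝ → ℝ` with `|f(N)| + j ≤ |N|` and `|x - y| ≤ D j` for `x, y ∈ N` with
`f x = f y`, where `D j = 2 b L^(-(K - j))` for `j ≥ 1` and `D 0 = 0`.  `j = 0`: `f = id`.  Step `j → j + 1`:
let `k = K - 1 - j`.  `D j ≤ 2 b L^(-(k+1)) < a L^(-k)` by `L > 4 b / a`, so `f (p k) ≠ f (q k)`.  Let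
`f' x = f (q k)` if `f x = f (p k)` and `f' x = f x` otherwise.  Then `f'(N) ⊆ f(N) \ {f (p k)}`, so
`|f'(N)| + (j + 1) ≤ |N|`.  If `f' x = f' y` then either `f x = f y`, or `x` is in the fibre of `p k` and
`y` in the fibre of `q k` (or conversely), and `|x - y| ≤ D j + b L^(-k) + D j ≤ 4 b L^(-(k+1)) + b L^(-k) ≤ 2 b L^(-k)`
because `L ≥ 4`.  For `j = K`: `|f(N)| ≥ 1` because `N` is nonempty.
-/

set_option autoImplicit false

namespace Pool.Agent.H46.RG

theorem forest (N : Finset ℝ) (hN : N.Nonempty) (a b L : ℝ) (ha : 0 < a) (hab : a ≤ b)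
    (hL : 4 ≤ L) (hLb : 4 * b / a < L) (K : ℕ) (p q : ℕ → ℝ)
    (h : ∀ k, k < K → p k ∈ N ∧ q k ∈ N ∧ a * (L ^ k)⁻¹ ≤ |p k - q k| ∧
      |p k - q k| ≤ b * (L ^ k)⁻¹) : K + 1 ≤ N.card := by
  classical
  have hb : 0 < b := lt_of_lt_of_le ha hab
  have hL0 : 0 < L := by linarith
  have h4 : 4 * b < a * L := by
    rw [div_lt_iff₀ ha] at hLb
    linarith
  have key : ∀ j : ℕ, j ≤ K → ∃ f : ℝ → ℝ, (N.image f).card + j ≤ N.card ∧
      ∀ x ∈ N, ∀ y ∈ N, f x = f y → |x - y| ≤ 2 * b * (L ^ (K - j))⁻¹ := by
    intro j
    induction j with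
    | zero =>
      intro _
      refine ⟨fun x => x, ?_, ?_⟩
      · simp
      · intro x _ y _ hxy
        have hxy' : x = y := hxy
        rw [hxy', sub_self, abs_zero]
        positivity
    | succ j ih =>
      intro hj
      obtain ⟨f, hf1, hf2⟩ := ih (by omega)
      obtain ⟨k, hk⟩ : ∃ k, K = k + 1 + j := ⟨K - 1 - j, by omega⟩
      have e1 : K - j = k + 1 := by omega
      have e2 : K - (j + 1) = k := by omega
      rw [e1] at hf2
      rw [e2]
      obtain ⟨hp, hq, h1, h2⟩ := h k (by omega)
      set u : ℝ := (L ^ k)⁻¹ with hu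
      have hu0 : 0 < u := by rw [hu]; positivity
      have hu1 : (L ^ (k + 1))⁻¹ = u / L := by
        rw [hu, pow_succ, mul_inv, div_eq_mul_inv]
      rw [hu1] at hf2
      have hD : 4 * b * (u / L) < a * u := by
        rw [← mul_div_assoc, div_lt_iff₀ hL0]
        nlinarith
      have hD' : 4 * b * (u / L) ≤ b * u := by
        rw [← mul_div_assoc, div_le_iff₀ hL0]
        nlinarith [mul_pos hb hu0]
      have hbu : 0 < b * (u / L) := by positivity
      have hne : f (p k) ≠ f (q k) := by
        intro hc
        have := hf2 _ hp _ hq hc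
        linarith
      refine ⟨fun x => if f x = f (p k) then f (q k) else f x, ?_, ?_⟩
      · have hsub : N.image (fun x => if f x = f (p k) then f (q k) else f x) ⊆
            (N.image f).erase (f (p k)) := by
          intro z hz
          rw [Finset.mem_image] at hz
          obtain ⟨x, hx, rfl⟩ := hz
          rw [Finset.mem_erase]
          by_cases hc : f x = f (p k)
          · simp only [hc, if_true]
            exact ⟨fun e => hne e.symm, Finset.mem_image_of_mem _ hq⟩
          · simp only [hc, if_false]
            exact ⟨hc, Finset.mem_image_of_mem _ hx⟩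
        have hc1 := Finset.card_le_card hsub
        have hc2 : ((N.image f).erase (f (p k))).card + 1 = (N.image f).card :=
          Finset.card_erase_add_one (Finset.mem_image_of_mem _ hp)
        omega
      · intro x hx y hy hxy
        simp only at hxy
        by_cases hcx : f x = f (p k) <;> by_cases hcy : f y = f (p k)
        · have := hf2 x hx y hy (hcx.trans hcy.symm)
          linarith
        · rw [if_pos hcx, if_neg hcy] at hxy
          have h3 := hf2 x hx _ hp hcx
          have h4' := hf2 _ hq y hy hxy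
          have h5 : x - y = (x - p k) + (p k - q k) + (q k - y) := by ring
          rw [h5]
          have h6 := abs_add_three (x - p k) (p k - q k) (q k - y)
          linarith
        · rw [if_neg hcx, if_pos hcy] at hxy
          have h3 := hf2 _ hp y hy hcy.symm
          have h4' := hf2 x hx _ hq hxy
          have h5 : x - y = (x - q k) + (q k - p k) + (p k - y) := by ring
          rw [h5]
          have h6 := abs_add_three (x - q k) (q k - p k) (p k - y)
          have h7 : |q k - p k| = |p k - q k| := abs_sub_comm _ _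
          rw [h7] at h6
          linarith
        · rw [if_neg hcx, if_neg hcy] at hxy
          have := hf2 x hx y hy hxy
          linarith
  obtain ⟨f, hf, -⟩ := key K le_rfl
  have h1 : 0 < (N.image f).card := Finset.card_pos.mpr (hN.image f)
  omega

end Pool.Agent.H46.RG
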