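import Pool.Agent.H46.RG.Comp

/-!
# Hit: a given value is nearly attained at every place of a minimal set

`Y ⊆ Om g` is `A1`-minimal, `h₁ ∈ Y`, `x₁ ≠ 0`, `η > 0`.  There is `R` such that every `h ∈ Y` has an integer
vector `x ≠ 0` with `|P h x - P h₁ x₁| < η` and `|(h x) i| ≤ R` for all `i`.

Proof.  Let `O = {h | |P h x₁ - P h₁ x₁| < η ∧ ∀ i, |(h x₁) i| < R₁}` with `R₁ = 1 + max |(h₁ x₁) i|`, open,
`h₁ ∈ O`.  For `a ∈ A1` let `V a = {h | ∃ U unit, diagonal a * h * im U ∈ O}`, open (a union of preimages of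
`O` under continuous maps).  For `h ∈ Y` the closure of `{diagonal a * h * im U : a ∈ A1, U}` is
`A1`-invariant and contained in `Y` (`IsInv`: closure of an invariant set; left and right
multiplications are continuous), so it is `Y ∋ h₁`, so `h ∈ V a` for some `a ∈ A1`.  Let `K = Y ∩ KK`, compact
(`isCompact_KK`, `KK d R₀ |det g| |det g|` with `R₀` from `fund`): finitely many `a ∈ F` with
`K ⊆ ⋃ a ∈ F, V a` (`IsCompact.elim_finite_subcover`).  `R = R₁ * max (a i)⁻¹` over `a ∈ F`, `i` (or a sum).  For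
`h ∈ Y` take `U₀` with `h * im U₀ ∈ K`, `a ∈ F`, `U` with `diagonal a * (h * im U₀) * im U ∈ O`, and
`x = (U₀ * U) *ᵥ x₁ ≠ 0` (`mulVec_ne`, `det_unit_ne`): `P h x = P (diagonal a * h * im U₀ * im U) x₁`
(`P_mul_im`, `P_diag_mul`, `∏ a = 1`), and `(h x) i = (a i)⁻¹ * (diagonal a * h * im U₀ * im U) x₁) i`.
-/

set_option autoImplicit false

namespace Pool.Agent.H46.RG

open Matrix Filter Topology Pool.Agent.H89.CSD

variable {d : ℕ}

theorem hit {g : Matrix (Fin d) (Fin d) ℝ} (hg : g.det ≠ 0) {c : ℝ} (hc : 0 < c)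
    (hp : Pos c g) {Y : Set (Matrix (Fin d) (Fin d) ℝ)} (hY : Y ⊆ Om g) (hmin : IsMin (A1 d) Y)
    {h₁ : Matrix (Fin d) (Fin d) ℝ} (hh : h₁ ∈ Y) {x₁ : Fin d → ℤ} (hx : x₁ ≠ 0) {η : ℝ}
    (hη : 0 < η) :
    ∃ R : ℝ, 1 ≤ R ∧ ∀ h ∈ Y, ∃ x : Fin d → ℤ, x ≠ 0 ∧
      |P h (ic x) - P h₁ (ic x₁)| < η ∧ ∀ i, |(h *ᵥ ic x) i| ≤ R := by
  classical
  obtain ⟨R₀, hR₀, hfund⟩ := fund hg hc hp
  set R₁ : ℝ := 1 + ∑ i, |(h₁ *ᵥ ic x₁) i| with hR₁
  have hR₁1 : 1 ≤ R₁ := by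
    have : 0 ≤ ∑ i, |(h₁ *ᵥ ic x₁) i| := Finset.sum_nonneg fun i _ => abs_nonneg _
    linarith
  have hR₁i : ∀ i, |(h₁ *ᵥ ic x₁) i| < R₁ := by
    intro i
    have : |(h₁ *ᵥ ic x₁) i| ≤ ∑ i, |(h₁ *ᵥ ic x₁) i| :=
      Finset.single_le_sum (f := fun i => |(h₁ *ᵥ ic x₁) i|) (fun i _ => abs_nonneg _)
        (Finset.mem_univ i)
    linarith
  set O : Set (Matrix (Fin d) (Fin d) ℝ) :=
    {h | |P h (ic x₁) - P h₁ (ic x₁)| < η ∧ ∀ i, |(h *ᵥ ic x₁) i| < R₁} with hO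
  have hOo : IsOpen O := by
    have e1 : IsOpen {h : Matrix (Fin d) (Fin d) ℝ | |P h (ic x₁) - P h₁ (ic x₁)| < η} :=
      isOpen_lt ((continuous_P _).sub continuous_const).abs continuous_const
    have e2 : IsOpen {h : Matrix (Fin d) (Fin d) ℝ | ∀ i, |(h *ᵥ ic x₁) i| < R₁} := by
      have : {h : Matrix (Fin d) (Fin d) ℝ | ∀ i, |(h *ᵥ ic x₁) i| < R₁} =
          ⋂ i, {h : Matrix (Fin d) (Fin d) ℝ | |(h *ᵥ ic x₁) i| < R₁} := by
        ext h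
        simp
      rw [this]
      refine isOpen_iInter_of_finite fun i => ?_
      have e3 : Continuous fun h : Matrix (Fin d) (Fin d) ℝ => (h *ᵥ ic x₁) i := by
        have e4 : Continuous fun h : Matrix (Fin d) (Fin d) ℝ => ∑ j, h i j * ic x₁ j :=
          continuous_finsetSum _ fun j _ => (continuous_id.matrix_elem i j).mul continuous_const
        exact e4
      exact isOpen_lt e3.abs continuous_const
    exact e1.inter e2
  have hh₁O : h₁ ∈ O := ⟨by simpa using hη, hR₁i⟩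
  set V : (Fin d → ℝ) → Set (Matrix (Fin d) (Fin d) ℝ) := fun a =>
    {h | ∃ U : (Matrix (Fin d) (Fin d) ℤ)ˣ,
      diagonal a * h * im (U : Matrix (Fin d) (Fin d) ℤ) ∈ O} with hV
  have hVo : ∀ a, IsOpen (V a) := by
    intro a
    have : V a = ⋃ U : (Matrix (Fin d) (Fin d) ℤ)ˣ,
        (fun h : Matrix (Fin d) (Fin d) ℝ =>
          diagonal a * h * im (U : Matrix (Fin d) (Fin d) ℤ)) ⁻¹' O := by
      ext h
      simp [hV]
    rw [this]
    refine isOpen_iUnion fun U => hOo.preimage ?_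
    exact (continuous_const.matrix_mul continuous_id).matrix_mul continuous_const
  have hcov : ∀ h ∈ Y, ∃ a ∈ A1 d, h ∈ V a := by
    intro h hhY
    have e1 : closure (Orb (A1 d) h) ⊆ Y := by
      refine closure_minimal ?_ hmin.1.closed
      rintro M ⟨a, ha, γ, hγ, rfl⟩
      exact hmin.1.units _ (hmin.1.diag a ha h hhY) γ hγ
    have e2 : closure (Orb (A1 d) h) = Y := hmin.2 _ e1 (isInv_pos h).1
    have e3 : h₁ ∈ closure (Orb (A1 d) h) := by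
      rw [e2]
      exact hh
    obtain ⟨M, hMO, a, ha, γ, hγ, rfl⟩ := mem_closure_iff.1 e3 O hOo hh₁O
    obtain ⟨U, hU⟩ := exists_unit hγ
    refine ⟨a, ha, U, ?_⟩
    rw [hU]
    exact hMO
  have hK : IsCompact (Y ∩ KK d R₀ |g.det| |g.det|) :=
    (isCompact_KK R₀ |g.det| |g.det|).inter_left hmin.1.closed
  obtain ⟨F, hFA, hFfin, hF⟩ := hK.elim_finite_subcover_image (b := A1 d) (c := V)
    (fun a _ => hVo a) (by
      intro h hhK
      obtain ⟨a, ha, hav⟩ := hcov h hhK.1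
      exact Set.mem_biUnion ha hav)
  set S : ℝ := ∑ a ∈ hFfin.toFinset, ∑ i, |(a i)⁻¹| with hS
  have hS0 : 0 ≤ S := Finset.sum_nonneg fun a _ => Finset.sum_nonneg fun i _ => abs_nonneg _
  have hSi : ∀ a ∈ F, ∀ i, |(a i)⁻¹| ≤ S := by
    intro a ha i
    have e1 : |(a i)⁻¹| ≤ ∑ i, |(a i)⁻¹| :=
      Finset.single_le_sum (f := fun i => |(a i)⁻¹|) (fun i _ => abs_nonneg _) (Finset.mem_univ i)
    have e2 : ∑ i, |(a i)⁻¹| ≤ S :=
      Finset.single_le_sum (f := fun a : Fin d → ℝ => ∑ i, |(a i)⁻¹|)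
        (fun a _ => Finset.sum_nonneg fun i _ => abs_nonneg _) (hFfin.mem_toFinset.2 ha)
    exact e1.trans e2
  refine ⟨1 + S * R₁, ?_, ?_⟩
  · have : 0 ≤ S * R₁ := mul_nonneg hS0 (by linarith)
    linarith
  intro h hhY
  have hom : h ∈ Om g := hY hhY
  obtain ⟨U₀, hU₀⟩ := hfund h hom
  have e1 : h * im (U₀ : Matrix (Fin d) (Fin d) ℤ) ∈ Y ∩ KK d R₀ |g.det| |g.det| := by
    refine ⟨hmin.1.im hhY U₀, hU₀, ?_, ?_⟩
    · rw [Matrix.det_mul, abs_mul, abs_det_im_unit, mul_one, hom.2]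
    · rw [Matrix.det_mul, abs_mul, abs_det_im_unit, mul_one, hom.2]
  obtain ⟨a, haF, U, hU⟩ := Set.mem_iUnion₂.1 (hF e1)
  obtain ⟨hapos, haprod⟩ := hFA haF
  set x : Fin d → ℤ := ((U₀ : Matrix (Fin d) (Fin d) ℤ) * (U : Matrix (Fin d) (Fin d) ℤ)) *ᵥ x₁
    with hxdef
  have e2 : diagonal a * (h * im (U₀ : Matrix (Fin d) (Fin d) ℤ)) *
      im (U : Matrix (Fin d) (Fin d) ℤ) =
      diagonal a * (h * im ((U₀ : Matrix (Fin d) (Fin d) ℤ) *
        (U : Matrix (Fin d) (Fin d) ℤ))) := by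
    rw [im_mul]
    simp only [Matrix.mul_assoc]
  have e3 : h *ᵥ ic x = (h * im ((U₀ : Matrix (Fin d) (Fin d) ℤ) *
      (U : Matrix (Fin d) (Fin d) ℤ))) *ᵥ ic x₁ := by
    rw [← Matrix.mulVec_mulVec, im_mulVec]
  rw [e2] at hU
  obtain ⟨hU1, hU2⟩ := hU
  refine ⟨x, ?_, ?_, ?_⟩
  · have : (x : Fin d → ℤ) = (U₀ : Matrix (Fin d) (Fin d) ℤ) *ᵥ
        ((U : Matrix (Fin d) (Fin d) ℤ) *ᵥ x₁) := by
      rw [hxdef, Matrix.mulVec_mulVec]
    rw [this]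
    exact mulVec_ne (det_unit_ne _) (mulVec_ne (det_unit_ne _) hx)
  · rw [P_diag_mul, haprod, one_mul, P_mul_im] at hU1
    exact hU1
  · intro i
    have e4 := hU2 i
    rw [← Matrix.mulVec_mulVec, Matrix.mulVec_diagonal, ← e3] at e4
    have e5 : (h *ᵥ ic x) i = (a i)⁻¹ * (a i * (h *ᵥ ic x) i) := by
      rw [inv_mul_cancel_left₀ (hapos i).ne']
    rw [e5, abs_mul]
    have e6 : |(a i)⁻¹| * |a i * (h *ᵥ ic x) i| ≤ S * R₁ :=
      mul_le_mul (hSi a haF i) e4.le (abs_nonneg _) hS0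
    linarith

end Pool.Agent.H46.RG
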