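import Pool.Agent.H46.RG.Comp

/-!
# Mag: magnification of small returns

Let `Z` be invariant under the block flow of `I`, and suppose that `Z` contains no pair
`z, (1 + v) z` with `v ≠ 0`, `Blk I v` (nonzero entries only in rows in `I` and columns off `I`).
Then there is `δ > 0` such that `y, (1 + E) y ∈ Z`, `|E| < δ` imply `E a b = 0` for `a ∈ I`, `b ∉ I`.

Proof.  Otherwise for all `n` there are `y n ∈ Z`, `E n` with entries `< 1 / (n + 1)`, `(1 + E n) y n ∈ Z`
and `a ∈ I`, `b ∉ I` with `E n a b ≠ 0`.  Let `m n > 0` be the maximum of `|E n a b|` over `a ∈ I`,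
`b ∉ I` (positive, `< 1 / (n + 1)`), `t n = log (1 / m n) / d → ∞` (`d > 0`), `D n = diagonal (flow I (t n))`.
`D n * (1 + E n) = (1 + E' n) * D n` with `E' n a b = (flow a / flow b) * E n a b`, which is
`exp (d t) E n a b = E n a b / m n` for `a ∈ I, b ∉ I`, `exp (- d t) E n a b` for `a ∉ I, b ∈ I`, and `E n a b`
for the other entries.  So the entries of `E' n` are bounded by `1`, those outside `I × Iᶜ` tend to
`0`, and one of those in `I × Iᶜ` has absolute value `1`.  By compactness (entries in `[-1,1]`) a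
subsequence of `E' n` tends to `v` with `Blk I v` and `v ≠ 0` (the sum of the absolute values over
`I × Iᶜ` is at least `1`).  By `subseq` applied to `D n * y n ∈ Z` (along that subsequence) there are
`U n` and a further subsequence with `D n * y n * im (U n) → w ∈ Z`.  Then
`(1 + E' n) * (D n * y n * im (U n)) = D n * ((1 + E n) * y n) * im (U n) ∈ Z` tends to `(1 + v) * w`, which
is in `Z` because `Z` is closed.  Contradiction.
-/

set_option autoImplicit false

namespace Pool.Agent.H46.RG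

open Matrix Filter Topology Pool.Agent.H89.CSD

variable {d : ℕ}

private theorem mag_flow (I : Finset (Fin d)) (t : ℝ) (a b : Fin d) :
    flow I t a * (flow I t b)⁻¹ = Real.exp (t * d * ((if a ∈ I then 1 else 0) -
      (if b ∈ I then 1 else 0))) := by
  unfold flow
  rw [← Real.exp_neg, ← Real.exp_add]
  congr 1
  split_ifs <;> ring

theorem mag {g : Matrix (Fin d) (Fin d) ℝ} (hg : g.det ≠ 0) {c : ℝ} (hc : 0 < c)
    (hp : Pos c g) (I : Finset (Fin d)) {Z : Set (Matrix (Fin d) (Fin d) ℝ)}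
    (hZ : Z ⊆ Om g) (hinv : IsInv (Flow I) Z)
    (hno : ∀ z ∈ Z, ∀ v : Matrix (Fin d) (Fin d) ℝ, v ≠ 0 → Blk I v → (1 + v) * z ∉ Z) :
    ∃ δ : ℝ, 0 < δ ∧ ∀ y ∈ Z, ∀ E : Matrix (Fin d) (Fin d) ℝ, (1 + E) * y ∈ Z →
      (∀ i j, |E i j| < δ) → ∀ a ∈ I, ∀ b, b ∉ I → E a b = 0 := by
  classical
  by_contra hcon
  push Not at hcon
  have hex : ∀ n : ℕ, ∃ (y E : Matrix (Fin d) (Fin d) ℝ) (p q : Fin d), y ∈ Z ∧ (1 + E) * y ∈ Z ∧
      (∀ i j, |E i j| < 1 / ((n : ℝ) + 1)) ∧ p ∈ I ∧ q ∉ I ∧ E p q ≠ 0 ∧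
      ∀ i ∈ I, ∀ j, j ∉ I → |E i j| ≤ |E p q| := by
    intro n
    obtain ⟨y, hy, E, hE, hEs, a, ha, b, hb, hab⟩ := hcon (1 / ((n : ℝ) + 1)) (by positivity)
    obtain ⟨⟨p, q⟩, hpq, hmax⟩ := Finset.exists_max_image (I ×ˢ Iᶜ)
      (fun r : Fin d × Fin d => |E r.1 r.2|) ⟨(a, b), by simp [ha, hb]⟩
    have hpq' := Finset.mem_product.1 hpq
    refine ⟨y, E, p, q, hy, hE, hEs, hpq'.1, by simpa using hpq'.2, ?_, ?_⟩
    · intro h0
      have h1 := hmax (a, b) (by simp [ha, hb])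
      simp only [h0, abs_zero] at h1
      exact hab (abs_eq_zero.1 (le_antisymm h1 (abs_nonneg _)))
    · intro i hi j hj
      exact hmax (i, j) (by simp [hi, hj])
  choose y E p q hy hE hEs hp' hq' hpq hmax using hex
  have hd : (0 : ℝ) < d := by
    have h1 : 0 < d := lt_of_le_of_lt (Nat.zero_le _) (p 0).2
    exact_mod_cast h1
  have hm0 : ∀ n, 0 < |E n (p n) (q n)| := fun n => abs_pos.2 (hpq n)
  have hm1 : ∀ n, |E n (p n) (q n)| ≤ 1 := by
    intro n
    refine (hEs n _ _).le.trans ?_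
    rw [div_le_one (by positivity)]
    have : (0 : ℝ) ≤ n := Nat.cast_nonneg n
    linarith
  let t : ℕ → ℝ := fun n => -Real.log |E n (p n) (q n)| / d
  have ht : ∀ n, t n * d = -Real.log |E n (p n) (q n)| := by
    intro n
    show -Real.log |E n (p n) (q n)| / d * d = _
    field_simp
  let E' : ℕ → Matrix (Fin d) (Fin d) ℝ := fun n => Matrix.of fun a b =>
    flow I (t n) a * E n a b * (flow I (t n) b)⁻¹
  have hE' : ∀ n a b, E' n a b = flow I (t n) a * (flow I (t n) b)⁻¹ * E n a b := by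
    intro n a b
    show flow I (t n) a * E n a b * (flow I (t n) b)⁻¹ = _
    ring
  have hfac1 : ∀ n, ∀ a ∈ I, ∀ b, b ∉ I → flow I (t n) a * (flow I (t n) b)⁻¹ =
      |E n (p n) (q n)|⁻¹ := by
    intro n a ha b hb
    rw [mag_flow, if_pos ha, if_neg hb, sub_zero, mul_one, ht, Real.exp_neg,
      Real.exp_log (hm0 n)]
  have hfac2 : ∀ n a b, ¬ (a ∈ I ∧ b ∉ I) → |flow I (t n) a * (flow I (t n) b)⁻¹| ≤ 1 := by
    intro n a b hab
    rw [mag_flow, abs_of_pos (Real.exp_pos _), Real.exp_le_one_iff, ht]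
    have hl : Real.log |E n (p n) (q n)| ≤ 0 := Real.log_nonpos (hm0 n).le (hm1 n)
    by_cases ha : a ∈ I
    · have hb : b ∈ I := by
        by_contra hb
        exact hab ⟨ha, hb⟩
      rw [if_pos ha, if_pos hb]
      simp
    · rw [if_neg ha]
      split_ifs
      · linarith
      · simp
  have hcomm : ∀ n, (1 + E' n) * diagonal (flow I (t n)) =
      diagonal (flow I (t n)) * (1 + E n) := by
    intro n
    ext a b
    have hfb : flow I (t n) b ≠ 0 := (flow_pos I (t n) b).ne'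
    rw [Matrix.mul_diagonal, Matrix.diagonal_mul, Matrix.add_apply, Matrix.add_apply, hE']
    by_cases hab : a = b
    · subst hab
      rw [Matrix.one_apply_eq]
      field_simp
    · rw [Matrix.one_apply_ne hab, zero_add, zero_add]
      field_simp
  have hb1 : ∀ n a b, |E' n a b| ≤ 1 := by
    intro n a b
    rw [hE', abs_mul]
    by_cases hab : a ∈ I ∧ b ∉ I
    · rw [hfac1 n a hab.1 b hab.2, abs_inv, abs_abs, inv_mul_le_iff₀ (hm0 n), mul_one]
      exact hmax n a hab.1 b hab.2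
    · have h1 : |E n a b| ≤ 1 := by
        refine (hEs n a b).le.trans ?_
        rw [div_le_one (by positivity)]
        have : (0 : ℝ) ≤ n := Nat.cast_nonneg n
        linarith
      exact mul_le_one₀ (hfac2 n a b hab) (abs_nonneg _) h1
  have hsmall : ∀ n a b, ¬ (a ∈ I ∧ b ∉ I) → |E' n a b| ≤ 1 / ((n : ℝ) + 1) := by
    intro n a b hab
    rw [hE', abs_mul]
    calc _ ≤ 1 * |E n a b| := mul_le_mul_of_nonneg_right (hfac2 n a b hab) (abs_nonneg _)
      _ ≤ _ := by
        rw [one_mul]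
        exact (hEs n a b).le
  have hbig : ∀ n, |E' n (p n) (q n)| = 1 := by
    intro n
    rw [hE', abs_mul, hfac1 n _ (hp' n) _ (hq' n), abs_inv, abs_abs, inv_mul_cancel₀ (hm0 n).ne']
  -- a convergent subsequence
  have hK : IsCompact (Set.pi Set.univ fun _ : Fin d => Set.pi Set.univ fun _ : Fin d =>
      Set.Icc (-1 : ℝ) 1) := isCompact_univ_pi fun _ => isCompact_univ_pi fun _ => isCompact_Icc
  obtain ⟨v, -, φ, hφ, hv⟩ := hK.tendsto_subseq
    (x := fun (n : ℕ) (a b : Fin d) => E' n a b) (fun n i _ j _ => abs_le.1 (hb1 n i j))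
  have hvab : ∀ a b, Tendsto (fun n => E' (φ n) a b) atTop (𝓝 (v a b)) := by
    intro a b
    exact (tendsto_pi_nhds.1 ((tendsto_pi_nhds.1 hv) a)) b
  have hBlk : Blk I (v : Matrix (Fin d) (Fin d) ℝ) := by
    intro a b hab
    by_contra hn
    apply hab
    have h1 : Tendsto (fun n => E' (φ n) a b) atTop (𝓝 0) := by
      refine squeeze_zero_norm (fun n => ?_) ((tendsto_one_div_add_atTop_nhds_zero_nat (𝕜 := ℝ)).comp
        hφ.tendsto_atTop)
      exact hsmall (φ n) a b hn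
    exact tendsto_nhds_unique (hvab a b) h1
  have hv0 : (v : Matrix (Fin d) (Fin d) ℝ) ≠ 0 := by
    intro h0
    have h1 : Tendsto (fun n => ∑ a, ∑ b, |E' (φ n) a b|) atTop (𝓝 (∑ a, ∑ b, |v a b|)) :=
      tendsto_finsetSum _ fun a _ => tendsto_finsetSum _ fun b _ => (hvab a b).abs
    have h2 : ∑ a, ∑ b, |v a b| = 0 := by
      refine Finset.sum_eq_zero fun a _ => Finset.sum_eq_zero fun b _ => ?_
      have h3 : v a b = 0 := congrFun (congrFun h0 a) b
      rw [h3, abs_zero]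
    rw [h2] at h1
    have h3 : ∀ n, (1 : ℝ) ≤ ∑ a, ∑ b, |E' (φ n) a b| := by
      intro n
      rw [← hbig (φ n)]
      refine le_trans ?_ (Finset.single_le_sum (f := fun a => ∑ b, |E' (φ n) a b|)
        (fun a _ => Finset.sum_nonneg fun b _ => abs_nonneg _) (Finset.mem_univ (p (φ n))))
      exact Finset.single_le_sum (f := fun b => |E' (φ n) (p (φ n)) b|)
        (fun b _ => abs_nonneg _) (Finset.mem_univ (q (φ n)))
    have h4 : (1 : ℝ) ≤ 0 := ge_of_tendsto' h1 h3
    linarith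
  have hzZ : ∀ n, diagonal (flow I (t (φ n))) * y (φ n) ∈ Z := fun n =>
    hinv.diag _ ⟨t (φ n), rfl⟩ _ (hy (φ n))
  obtain ⟨w, hw, ψ, U, hψ, hlim⟩ := subseq hg hc hp hZ hinv
    (fun n => diagonal (flow I (t (φ n))) * y (φ n)) hzZ
  refine hno w hw v hv0 hBlk ?_
  have hE'lim : Tendsto (fun n => (1 : Matrix (Fin d) (Fin d) ℝ) + E' (φ (ψ n))) atTop
      (𝓝 (1 + (Matrix.of v : Matrix (Fin d) (Fin d) ℝ))) := by
    refine Tendsto.const_add _ ?_
    exact hv.comp hψ.tendsto_atTop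
  have hlim2 := hE'lim.mul hlim
  refine hinv.closed.mem_of_tendsto hlim2 (Eventually.of_forall fun n => ?_)
  have e : (1 + E' (φ (ψ n))) * (diagonal (flow I (t (φ (ψ n)))) * y (φ (ψ n)) *
      im (U n : Matrix (Fin d) (Fin d) ℤ)) =
      diagonal (flow I (t (φ (ψ n)))) * ((1 + E (φ (ψ n))) * y (φ (ψ n))) *
      im (U n : Matrix (Fin d) (Fin d) ℤ) := by
    rw [← Matrix.mul_assoc, ← Matrix.mul_assoc, hcomm, Matrix.mul_assoc (diagonal _)]
  show (1 + E' (φ (ψ n))) * (diagonal (flow I (t (φ (ψ n)))) * y (φ (ψ n)) *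
      im (U n : Matrix (Fin d) (Fin d) ℤ)) ∈ Z
  rw [e]
  exact hinv.im (hinv.diag _ ⟨_, rfl⟩ _ (hE (φ (ψ n)))) (U n)

end Pool.Agent.H46.RG
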