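import Pool.Agent.H46.RG.Sca
import Pool.Agent.H46.RG.For

/-!
# Qua: at least `κ log (1 / ε)` separated values

For `c > 0` there are `R, κ > 0` such that for every `g` (`det g ≠ 0`), not integral, with
`c |det g| ≤ |P g x|` for all `x ≠ 0`, and every `0 < ε < 1` there is a finite set `T` of nonzero integer
vectors with `κ log (1 / ε) ≤ |T|`, `|P g x| ≤ R |det g|` on `T`, and `|P g x - P g y| ≥ ε |det g|` for `x ≠ y` in `T`.

Proof.  First `|det g| = 1`.  `R ≥ 1` from `scale_pair`.  The values in `[-R, R]` have a maximal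
`ε`-separated subset `T` (finite, at most `2 R / ε + 1` elements; e.g. take `T` of maximal cardinality); `N` its
set of values, `|N| = |T|`; every value in `[-R, R]` is within `ε` of a point of `N`.
`a = 1 / (2 R)`, `b = 2 R`, `L = 16 R ^ 2 + 4`.  Let `K` be the largest natural number with
`L ^ (-(K - 1)) ≥ 4 R ε` (`K = 0` if `4 R ε > 1`).  For `k < K` and `δ = L ^ (-k)` replace the two values of
`scale_pair` by points of `N` within `ε`: the distance changes by at most `2 ε ≤ δ / (2 R)`, so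
`forest` gives `|T| ≥ K + 1 ≥ log (1 / (4 R ε)) / log L`, hence `|T| ≥ κ log (1 / ε)` for small `κ` (also using
`|T| ≥ 1`; for `ε > 1 / (16 R²)` it is enough that `κ log (16 R²) ≤ 1`).
General `g`: apply the case `|det| = 1` to `t g`, `t = |det g| ^ (-1 / d)` (`P (t • g) x = t ^ d P g x`; `t • g` is
integral iff `g` is).
-/

set_option autoImplicit false

namespace Pool.Agent.H46.RG

open Matrix Filter Topology Pool.Agent.H89.CSD

variable {d : ℕ}

theorem values_log_one (hd : 3 ≤ d) {c : ℝ} (hc : 0 < c) :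
    ∃ R κ : ℝ, 1 ≤ R ∧ 0 < κ ∧ ∀ g : Matrix (Fin d) (Fin d) ℝ, |g.det| = 1 → Pos c g →
      ¬ IntForm g → ∀ ε : ℝ, 0 < ε → ε < 1 → ∃ T : Finset (Fin d → ℤ),
        κ * Real.log (1 / ε) ≤ T.card ∧ (∀ x ∈ T, x ≠ 0 ∧ |P g (ic x)| ≤ R) ∧
        ∀ x ∈ T, ∀ y ∈ T, x ≠ y → ε ≤ |P g (ic x) - P g (ic y)| := by
  classical
  obtain ⟨R, hR1, hR⟩ := scale_pair (d := d) hd hc
  have hR0 : 0 < R := by linarith
  set L : ℝ := 16 * R ^ 2 + 4 with hL
  have hL4 : 4 ≤ L := by nlinarith [sq_nonneg R]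
  have hlogL : 0 < Real.log L := Real.log_pos (by linarith)
  refine ⟨R, 1 / (2 * Real.log L), hR1, by positivity, fun g hg hp hI ε hε hε1 => ?_⟩
  set Sep : Finset (Fin d → ℤ) → Prop := fun T => (∀ x ∈ T, x ≠ 0 ∧ |P g (ic x)| ≤ R) ∧
    ∀ x ∈ T, ∀ y ∈ T, x ≠ y → ε ≤ |P g (ic x) - P g (ic y)| with hSep
  have hbd : ∀ T, Sep T → T.card ≤ ⌊2 * R / ε⌋₊ + 1 := by
    intro T hT
    have h1 : T.card ≤ (Finset.range (⌊2 * R / ε⌋₊ + 1)).card := by
      refine Finset.card_le_card_of_injOn (fun x => ⌊(P g (ic x) + R) / ε⌋₊) ?_ ?_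
      · intro x hx
        have h2 := abs_le.1 (hT.1 x hx).2
        have h3 : (P g (ic x) + R) / ε ≤ 2 * R / ε := by
          gcongr
          linarith
        simp only [Finset.coe_range, Set.mem_Iio]
        exact Nat.lt_succ_of_le (Nat.floor_le_floor h3)
      · intro x hx y hy hxy
        by_contra hne
        have h3 := hT.2 x hx y hy hne
        have hx2 := abs_le.1 (hT.1 x hx).2
        have hy2 := abs_le.1 (hT.1 y hy).2
        have hx0 : 0 ≤ (P g (ic x) + R) / ε := div_nonneg (by linarith) hε.le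
        have hy0 : 0 ≤ (P g (ic y) + R) / ε := div_nonneg (by linarith) hε.le
        have a1 := Nat.floor_le hx0
        have a2 := Nat.lt_floor_add_one ((P g (ic x) + R) / ε)
        have b1 := Nat.floor_le hy0
        have b2 := Nat.lt_floor_add_one ((P g (ic y) + R) / ε)
        simp only at hxy
        rw [hxy] at a1 a2
        have h4 : |(P g (ic x) + R) / ε - (P g (ic y) + R) / ε| < 1 :=
          abs_lt.2 ⟨by linarith, by linarith⟩
        have h5 : (P g (ic x) + R) / ε - (P g (ic y) + R) / ε =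
            (P g (ic x) - P g (ic y)) / ε := by ring
        rw [h5, abs_div, abs_of_pos hε, div_lt_one hε] at h4
        linarith
    simpa using h1
  obtain ⟨T, hT, hTmax⟩ : ∃ T, Sep T ∧ ∀ T', Sep T' → T'.card ≤ T.card := by
    have hne : {n : ℕ | ∃ T, Sep T ∧ T.card = n}.Nonempty :=
      ⟨0, ∅, ⟨by simp, by simp⟩, by simp⟩
    have hba : BddAbove {n : ℕ | ∃ T, Sep T ∧ T.card = n} := by
      refine ⟨⌊2 * R / ε⌋₊ + 1, ?_⟩
      rintro n ⟨T, hT, rfl⟩
      exact hbd T hT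
    obtain ⟨T, hT, hTc⟩ := Nat.sSup_mem hne hba
    refine ⟨T, hT, fun T' hT' => ?_⟩
    rw [hTc]
    exact le_csSup hba ⟨T', hT', rfl⟩
  have hnear : ∀ x : Fin d → ℤ, x ≠ 0 → |P g (ic x)| ≤ R →
      ∃ y ∈ T, |P g (ic x) - P g (ic y)| < ε := by
    intro x hx0 hxR
    by_contra hcon
    push Not at hcon
    have hxT : x ∉ T := by
      intro hx
      have := hcon x hx
      rw [sub_self, abs_zero] at this
      linarith
    have hS : Sep (insert x T) := by
      constructor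
      · intro y hy
        rcases Finset.mem_insert.1 hy with rfl | hy
        · exact ⟨hx0, hxR⟩
        · exact hT.1 y hy
      · intro y hy z hz hyz
        rcases Finset.mem_insert.1 hy with hy | hy <;> rcases Finset.mem_insert.1 hz with hz | hz
        · exact absurd (hy.trans hz.symm) hyz
        · rw [hy]
          exact hcon z hz
        · rw [hz, abs_sub_comm]
          exact hcon y hy
        · exact hT.2 y hy z hz hyz
    have := hTmax _ hS
    rw [Finset.card_insert_of_notMem hxT] at this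
    omega
  refine ⟨T, ?_, hT.1, hT.2⟩
  set K : ℕ := ⌊Real.log (1 / ε) / (2 * Real.log L)⌋₊ with hK
  have hx0 : 0 < Real.log (1 / ε) := Real.log_pos (by rw [lt_div_iff₀ hε]; linarith)
  have hscale : ∀ k, k < K → 4 * R * ε ≤ (L ^ k)⁻¹ := by
    intro k hk
    have h1 : ((k + 1 : ℕ) : ℝ) ≤ Real.log (1 / ε) / (2 * Real.log L) :=
      le_trans (by exact_mod_cast hk) (Nat.floor_le (by positivity))
    rw [le_div_iff₀ (by positivity)] at h1
    have hLpos : 0 < L := by linarith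
    have h2 : Real.log (L ^ (2 * (k + 1))) ≤ Real.log (1 / ε) := by
      rw [Real.log_pow]
      push_cast at h1 ⊢
      linarith
    have h3 : L ^ (2 * (k + 1)) ≤ 1 / ε :=
      (Real.log_le_log_iff (by positivity) (by positivity)).1 h2
    have h4 : 4 * R * L ^ k ≤ L ^ (2 * (k + 1)) := by
      have h5 : 4 * R ≤ L := by nlinarith [sq_nonneg (R - 1)]
      have h6 : L ^ (k + 1) ≤ L ^ (2 * (k + 1)) :=
        pow_le_pow_right₀ (by linarith) (by omega)
      have h7 : 4 * R * L ^ k ≤ L * L ^ k := mul_le_mul_of_nonneg_right h5 (by positivity)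
      calc 4 * R * L ^ k ≤ L * L ^ k := h7
        _ = L ^ (k + 1) := by ring
        _ ≤ _ := h6
    have h5 : 4 * R * L ^ k ≤ 1 / ε := h4.trans h3
    rw [le_div_iff₀ hε] at h5
    rw [← one_div, le_div_iff₀ (by positivity)]
    linarith
  set N : Finset ℝ := T.image (fun x => P g (ic x)) with hN
  have hNcard : N.card = T.card := by
    rw [hN]
    refine Finset.card_image_of_injOn ?_
    intro x hx y hy hxy
    by_contra hne
    have h1 := hT.2 x hx y hy hne
    simp only at hxy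
    rw [hxy, sub_self, abs_zero] at h1
    linarith
  have hmem : ∀ x : Fin d → ℤ, x ≠ 0 → |P g (ic x)| ≤ R → ∃ p ∈ N, |P g (ic x) - p| < ε := by
    intro x h1 h2
    obtain ⟨y, hy, hy2⟩ := hnear x h1 h2
    exact ⟨_, Finset.mem_image_of_mem _ hy, hy2⟩
  have hNne : N.Nonempty := by
    obtain ⟨x, _, h1, _, h2, _⟩ := hR g hg hp hI 1 one_pos le_rfl
    obtain ⟨p, hp, _⟩ := hmem x h1 h2
    exact ⟨p, hp⟩
  have hpq : ∀ k : ℕ, ∃ p q : ℝ, k < K → p ∈ N ∧ q ∈ N ∧ 1 / (2 * R) * (L ^ k)⁻¹ ≤ |p - q| ∧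
      |p - q| ≤ 2 * R * (L ^ k)⁻¹ := by
    intro k
    by_cases hk : k < K
    · have hLpos : 0 < L := by linarith
      have hδ0 : 0 < (L ^ k)⁻¹ := by positivity
      have hδ1 : (L ^ k)⁻¹ ≤ 1 := inv_le_one_of_one_le₀ (one_le_pow₀ (by linarith))
      obtain ⟨x1, x2, h1, h2, h3, h4, h5, h6⟩ := hR g hg hp hI _ hδ0 hδ1
      obtain ⟨p, hpN, hp1⟩ := hmem x1 h1 h3
      obtain ⟨q, hqN, hq1⟩ := hmem x2 h2 h4
      refine ⟨p, q, fun _ => ⟨hpN, hqN, ?_, ?_⟩⟩
      · have h7 := hscale k hk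
        have h8 : |P g (ic x1) - P g (ic x2)| ≤
            |P g (ic x1) - p| + |p - q| + |q - P g (ic x2)| := by
          have := abs_add_three (P g (ic x1) - p) (p - q) (q - P g (ic x2))
          have h9 : P g (ic x1) - p + (p - q) + (q - P g (ic x2)) =
            P g (ic x1) - P g (ic x2) := by ring
          rwa [h9] at this
        rw [abs_sub_comm q] at h8
        have h9 : (L ^ k)⁻¹ / R - 1 / (2 * R) * (L ^ k)⁻¹ = (L ^ k)⁻¹ / (2 * R) := by
          field_simp
          ring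
        have h10 : 2 * ε ≤ (L ^ k)⁻¹ / (2 * R) := by
          rw [le_div_iff₀ (by positivity)]
          linarith
        linarith
      · have h7 := hscale k hk
        have h8 : |p - q| ≤ |p - P g (ic x1)| + |P g (ic x1) - P g (ic x2)| +
            |P g (ic x2) - q| := by
          have := abs_add_three (p - P g (ic x1)) (P g (ic x1) - P g (ic x2))
            (P g (ic x2) - q)
          have h9 : p - P g (ic x1) + (P g (ic x1) - P g (ic x2)) + (P g (ic x2) - q) =
            p - q := by ring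
          rwa [h9] at this
        rw [abs_sub_comm p (P g (ic x1))] at h8
        have h10 : 2 * ε ≤ R * (L ^ k)⁻¹ := by
          have h11 : 2 * ε ≤ (L ^ k)⁻¹ := by
            nlinarith
          have h12 : (L ^ k)⁻¹ ≤ R * (L ^ k)⁻¹ := le_mul_of_one_le_left hδ0.le hR1
          linarith
        linarith
    · exact ⟨0, 0, fun h => absurd h hk⟩
  choose p q hpq using hpq
  have hfor := forest N hNne (1 / (2 * R)) (2 * R) L (by positivity)
    (by rw [div_le_iff₀ (by positivity)]; nlinarith) hL4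
    (by rw [div_div_eq_mul_div, div_one, hL]; nlinarith [sq_nonneg R]) K p q hpq
  rw [hNcard] at hfor
  have h1 : Real.log (1 / ε) / (2 * Real.log L) < K + 1 := Nat.lt_floor_add_one _
  have h2 : ((K + 1 : ℕ) : ℝ) ≤ T.card := by exact_mod_cast hfor
  push_cast at h2
  have h3 : 1 / (2 * Real.log L) * Real.log (1 / ε) =
      Real.log (1 / ε) / (2 * Real.log L) := by ring
  rw [h3]
  linarith

private theorem qu2_P_smul (t : ℝ) (g : Matrix (Fin d) (Fin d) ℝ) (x : Fin d → ℝ) :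
    P (t • g) x = t ^ d * P g x := by
  unfold P
  have h1 : ∀ i : Fin d, ∑ j, (t • g) i j * x j = t * ∑ j, g i j * x j := by
    intro i
    rw [Finset.mul_sum]
    refine Finset.sum_congr rfl fun j _ => ?_
    rw [Matrix.smul_apply, smul_eq_mul, mul_assoc]
  simp_rw [h1]
  rw [Finset.prod_mul_distrib, Finset.prod_const, Finset.card_univ, Fintype.card_fin]

private theorem qu2_intForm {t : ℝ} (ht : t ≠ 0) {g : Matrix (Fin d) (Fin d) ℝ}
    (h : IntForm (t • g)) : IntForm g := by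
  obtain ⟨c, hc, hz⟩ := h
  refine ⟨c * t ^ d, mul_ne_zero hc (pow_ne_zero _ ht), fun m => ?_⟩
  obtain ⟨z, hz⟩ := hz m
  refine ⟨z, ?_⟩
  rw [← hz]
  congr 1
  have h1 : ∀ i : Fin d, (∑ j : Fin d, MvPolynomial.C ((t • g) i j) * MvPolynomial.X j :
      MvPolynomial (Fin d) ℝ) = MvPolynomial.C t * ∑ j : Fin d,
        MvPolynomial.C (g i j) * MvPolynomial.X j := by
    intro i
    rw [Finset.mul_sum]
    refine Finset.sum_congr rfl fun j _ => ?_
    rw [Matrix.smul_apply, smul_eq_mul, MvPolynomial.C_mul, mul_assoc]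
  simp_rw [h1]
  rw [Finset.prod_mul_distrib, Finset.prod_const, Finset.card_univ, Fintype.card_fin,
    ← MvPolynomial.C_pow, mul_smul]
  congr 1
  rw [MvPolynomial.smul_eq_C_mul]

theorem values_log (hd : 3 ≤ d) {c : ℝ} (hc : 0 < c) :
    ∃ R κ : ℝ, 1 ≤ R ∧ 0 < κ ∧ ∀ g : Matrix (Fin d) (Fin d) ℝ, g.det ≠ 0 →
      (∀ x : Fin d → ℤ, x ≠ 0 → c * |g.det| ≤ |P g (ic x)|) →
      ¬ IntForm g → ∀ ε : ℝ, 0 < ε → ε < 1 → ∃ T : Finset (Fin d → ℤ),
        κ * Real.log (1 / ε) ≤ T.card ∧ (∀ x ∈ T, x ≠ 0 ∧ |P g (ic x)| ≤ R * |g.det|) ∧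
        ∀ x ∈ T, ∀ y ∈ T, x ≠ y → ε * |g.det| ≤ |P g (ic x) - P g (ic y)| := by
  obtain ⟨R, κ, hR, hκ, hmain⟩ := values_log_one hd hc
  refine ⟨R, κ, hR, hκ, fun g hg hpos hn ε hε hε1 => ?_⟩
  have hD : 0 < |g.det| := abs_pos.2 hg
  set t : ℝ := |g.det|⁻¹ ^ ((d : ℝ)⁻¹) with ht
  have hd0 : d ≠ 0 := by omega
  have ht0 : 0 < t := Real.rpow_pos_of_pos (inv_pos.2 hD) _
  have htd : t ^ d = |g.det|⁻¹ := Real.rpow_inv_natCast_pow (inv_pos.2 hD).le hd0
  have hP : ∀ x : Fin d → ℝ, P (t • g) x = |g.det|⁻¹ * P g x := by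
    intro x
    rw [qu2_P_smul, htd]
  have hdet : |(t • g).det| = 1 := by
    rw [Matrix.det_smul, Fintype.card_fin, htd, abs_mul, abs_inv, abs_abs,
      inv_mul_cancel₀ hD.ne']
  have habs : ∀ y : ℝ, |(|g.det|⁻¹ * y)| = |y| / |g.det| := by
    intro y
    rw [abs_mul, abs_inv, abs_abs, div_eq_inv_mul]
  have hpos' : Pos c (t • g) := by
    intro x hx
    rw [hP, habs, le_div_iff₀ hD]
    exact hpos x hx
  obtain ⟨T, hT1, hT2, hT3⟩ := hmain (t • g) hdet hpos' (fun h => hn (qu2_intForm ht0.ne' h)) ε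
    hε hε1
  refine ⟨T, hT1, fun x hx => ⟨(hT2 x hx).1, ?_⟩, fun x hx y hy hxy => ?_⟩
  · have h := (hT2 x hx).2
    rwa [hP, habs, div_le_iff₀ hD] at h
  · have h := hT3 x hx y hy hxy
    rwa [hP, hP, ← mul_sub, habs, le_div_iff₀ hD] at h

end Pool.Agent.H46.RG
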