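import Pool.Agent.H46.RG.Perf

/-!
# Sca: two values at distance about `δ`, for every `δ`

For `c > 0` there is `R ≥ 1` such that every `g` with `|det g| = 1`, `Pos c g`, not integral, and every
`0 < δ ≤ 1` have integer vectors `x₁, x₂ ≠ 0` with `|P g x₁|, |P g x₂| ≤ R` and
`δ / R ≤ |P g x₁ - P g x₂| ≤ R δ`.

Proof.  Let `R₀ ≥ 1` be from `H89.CSD.mahler` for `ρ = min c 1`, determinants of absolute value `1` (it does
not depend on `g`).  `Y = closure (Orb (A1 d) g)` (`isInv_pos`); `active` (any `m`) gives `i ≠ j`, `z ∈ Y`, `|s| = 1`,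
`z' = (1 + s E_ij) z ∈ Y`.  Take `a ∈ A1` with `a i / a j = δ`, `U` with entries of `diagonal a * z * im U` in
`[-R₀, R₀]` (`Pos.short`; `diagonal a * z ∈ Y ⊆ Om g`), `x = U e_l` for some `l`.  `two_values` gives
`w₁ = P z x`, `w₂ = P z' x` with `|w₁| ≤ R₀ ^ d`, `c² δ / R₀ ^ d ≤ |w₁ - w₂| ≤ R₀ ^ (2 d) δ / c`.  Both are in the closure
of the values of `g` (`vals_sub`), so there are `x₁, x₂` whose values are as near as
`c² δ / (4 R₀ ^ d)` and `1`.  `R` = a large constant depending on `R₀`, `c`, `d`.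
-/

set_option autoImplicit false

namespace Pool.Agent.H46.RG

open Matrix Filter Topology Pool.Agent.H89.CSD

variable {d : ℕ}

private lemma sca_near {S : Set ℝ} {w ε : ℝ} (hw : w ∈ closure S) (hε : 0 < ε) :
    ∃ v ∈ S, |v - w| < ε := by
  obtain ⟨v, hv, h1⟩ := Metric.mem_closure_iff.1 hw ε hε
  refine ⟨v, hv, ?_⟩
  rw [dist_comm, Real.dist_eq] at h1
  exact h1

private lemma sca_est {A c δ w₁ w₂ p₁ p₂ R : ℝ} (hA : 1 ≤ A) (hc : 0 < c) (hδ : 0 < δ)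
    (hδ1 : δ ≤ 1) (h1 : |w₁| ≤ A) (h2 : c * δ / (A / c) ≤ |w₂ - w₁|)
    (h3 : |w₂ - w₁| ≤ A * (A / c) * δ) (h4 : |p₁ - w₁| < c ^ 2 * δ / (4 * A))
    (h5 : |p₂ - w₂| < c ^ 2 * δ / (4 * A))
    (hR : R = 1 + A + A * (A / c) + c ^ 2 + 2 * A / c ^ 2) :
    |p₁| ≤ R ∧ |p₂| ≤ R ∧ δ / R ≤ |p₁ - p₂| ∧ |p₁ - p₂| ≤ R * δ := by
  have hA0 : 0 < A := by linarith
  have hc2 : 0 < c ^ 2 := by positivity
  obtain ⟨e, he⟩ : ∃ e : ℝ, e = c ^ 2 * δ / (4 * A) := ⟨_, rfl⟩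
  rw [← he] at h4 h5
  have he1 : e ≤ c ^ 2 * δ / 4 := by
    rw [he]
    exact div_le_div_of_nonneg_left (by positivity) (by norm_num) (by linarith)
  have he2 : c ^ 2 * δ / 4 ≤ c ^ 2 / 4 := by
    have := mul_le_mul_of_nonneg_left hδ1 hc2.le
    linarith
  have h6 : c * δ / (A / c) = 4 * e := by
    rw [he]
    field_simp
  rw [h6] at h2
  obtain ⟨B, hB⟩ : ∃ B : ℝ, B = A * (A / c) := ⟨_, rfl⟩
  rw [← hB] at h3 hR
  have hB0 : 0 < B := by rw [hB]; positivity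
  obtain ⟨D, hD⟩ : ∃ D : ℝ, D = 2 * A / c ^ 2 := ⟨_, rfl⟩
  rw [← hD] at hR
  have hD0 : 0 < D := by rw [hD]; positivity
  have hDe : D * (2 * e) = δ := by
    rw [hD, he]
    field_simp
    ring
  have he0 : 0 < e := by rw [he]; positivity
  have hR0 : 0 < R := by rw [hR]; positivity
  have hBδ : B * δ ≤ B := by nlinarith
  have a1 := abs_lt.1 h4
  have a2 := abs_lt.1 h5
  have a3 := abs_le.1 h3
  have a4 := abs_le.1 h1
  refine ⟨?_, ?_, ?_, ?_⟩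
  · rw [hR, abs_le]
    constructor <;> linarith [a1.1, a1.2, a4.1, a4.2]
  · rw [hR, abs_le]
    constructor <;> linarith [a1.1, a1.2, a4.1, a4.2, a2.1, a2.2, a3.1, a3.2]
  · have h7 : 2 * e ≤ |p₁ - p₂| := by
      rcases le_or_gt 0 (w₂ - w₁) with h8 | h8
      · rw [abs_of_nonneg h8] at h2
        have h9 : 2 * e ≤ -(p₁ - p₂) := by linarith [a1.1, a1.2, a2.1, a2.2]
        exact h9.trans (neg_le_abs _)
      · rw [abs_of_neg h8] at h2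
        have h9 : 2 * e ≤ p₁ - p₂ := by linarith [a1.1, a1.2, a2.1, a2.2]
        exact h9.trans (le_abs_self _)
    refine le_trans ?_ h7
    rw [div_le_iff₀ hR0, ← hDe]
    have h8 : D ≤ R := by rw [hR]; linarith
    nlinarith
  · have h7 : R * δ = δ + A * δ + B * δ + c ^ 2 * δ + D * δ := by rw [hR]; ring
    have h8 : 0 < A * δ := by positivity
    have h9 : 0 < D * δ := by positivity
    rw [h7, abs_le]
    constructor <;> linarith [a1.1, a1.2, a2.1, a2.2, a3.1, a3.2]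

theorem scale_pair (hd : 3 ≤ d) {c : ℝ} (hc : 0 < c) :
    ∃ R : ℝ, 1 ≤ R ∧ ∀ g : Matrix (Fin d) (Fin d) ℝ, |g.det| = 1 → Pos c g → ¬ IntForm g →
      ∀ δ : ℝ, 0 < δ → δ ≤ 1 → ∃ x₁ x₂ : Fin d → ℤ, x₁ ≠ 0 ∧ x₂ ≠ 0 ∧
        |P g (ic x₁)| ≤ R ∧ |P g (ic x₂)| ≤ R ∧
        δ / R ≤ |P g (ic x₁) - P g (ic x₂)| ∧ |P g (ic x₁) - P g (ic x₂)| ≤ R * δ := by
  classical
  obtain ⟨R0, hR0, hM⟩ := mahler d (min c 1) 1 1 (lt_min hc one_pos) one_pos zero_le_one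
  obtain ⟨R1, hR1⟩ : ∃ R1 : ℝ, R1 = max R0 1 := ⟨_, rfl⟩
  have hR11 : 1 ≤ R1 := by rw [hR1]; exact le_max_right _ _
  have hR10 : R0 ≤ R1 := by rw [hR1]; exact le_max_left _ _
  obtain ⟨A, hA⟩ : ∃ A : ℝ, A = R1 ^ d := ⟨_, rfl⟩
  have hA1 : 1 ≤ A := by rw [hA]; exact one_le_pow₀ hR11
  obtain ⟨R, hR⟩ : ∃ R : ℝ, R = 1 + A + A * (A / c) + c ^ 2 + 2 * A / c ^ 2 := ⟨_, rfl⟩
  refine ⟨R, ?_, fun g hg hp hn δ hδ hδ1 => ?_⟩
  · have h1 : 0 < A * (A / c) := by positivity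
    have h2 : 0 < c ^ 2 := by positivity
    have h3 : 0 < 2 * A / c ^ 2 := by positivity
    rw [hR]
    linarith
  have hg0 : g.det ≠ 0 := by
    intro h0
    rw [h0, abs_zero] at hg
    exact zero_ne_one hg
  obtain ⟨hinv, hYO⟩ := isInv_pos g
  obtain ⟨i, j, hij, _, _, z, hz, s, hs, hz'⟩ := active hd hg0 hc hp hn hYO hinv ⟨0, by omega⟩
  obtain ⟨a, ha, haδ⟩ := exists_ratio hij hδ
  have hzO := hYO hz
  have haz : diagonal a * z ∈ Om g := hYO (hinv.diag a ha z hz)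
  have hpz : Pos c z := Om_pos hg0 hc hp hzO
  have hpaz : Pos c (diagonal a * z) := Om_pos hg0 hc hp haz
  have hdaz : |(diagonal a * z).det| = 1 := by rw [haz.2, hg]
  obtain ⟨U, hU⟩ := hM (diagonal a * z) (by rw [hdaz]) (by rw [hdaz])
    (fun x hx => hpaz.short hx)
  obtain ⟨l⟩ : Nonempty (Fin d) := ⟨⟨0, by omega⟩⟩
  obtain ⟨x, hx⟩ : ∃ x : Fin d → ℤ, x = (U : Matrix (Fin d) (Fin d) ℤ) *ᵥ Pi.single l 1 :=
    ⟨_, rfl⟩
  have hx0 : x ≠ 0 := by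
    rw [hx]
    refine mulVec_ne (det_unit_ne U) ?_
    intro h0
    have h1 := congrFun h0 l
    rw [Pi.single_eq_same] at h1
    exact one_ne_zero h1
  have hxR : ∀ k, |((diagonal a * z) *ᵥ ic x) k| ≤ R1 := by
    intro k
    have h1 : (diagonal a * z) *ᵥ ic x =
        ((diagonal a * z) * im (U : Matrix (Fin d) (Fin d) ℤ)) *ᵥ ic (Pi.single l 1) := by
      rw [hx, ← im_mulVec, Matrix.mulVec_mulVec]
    have h2 : ic (Pi.single l 1 : Fin d → ℤ) = Pi.single l (1 : ℝ) := by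
      ext j
      unfold ic
      rcases eq_or_ne j l with rfl | hj
      · rw [Pi.single_eq_same, Pi.single_eq_same, Int.cast_one]
      · rw [Pi.single_eq_of_ne hj, Pi.single_eq_of_ne hj, Int.cast_zero]
    rw [h1, h2, Matrix.mulVec_single_one]
    exact (hU k l).trans hR10
  obtain ⟨t1, t2, t3⟩ := two_values hc hpz hij hs hδ ha haδ hR11 hx0 hxR
  rw [← hA] at t1 t2 t3
  have hsub := vals_sub (g := g) (Y := closure (Orb (A1 d) g)) subset_rfl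
  have hw1 : P z (ic x) ∈ closure {v | ∃ x : Fin d → ℤ, x ≠ 0 ∧ v = P g (ic x)} :=
    hsub (subset_closure ⟨z, hz, x, hx0, rfl⟩)
  have hw2 : P ((1 + Matrix.single i j s) * z) (ic x) ∈
      closure {v | ∃ x : Fin d → ℤ, x ≠ 0 ∧ v = P g (ic x)} :=
    hsub (subset_closure ⟨_, hz', x, hx0, rfl⟩)
  have he : 0 < c ^ 2 * δ / (4 * A) := by positivity
  obtain ⟨v1, ⟨x1, hx1, rfl⟩, h1⟩ := sca_near hw1 he
  obtain ⟨v2, ⟨x2, hx2, rfl⟩, h2⟩ := sca_near hw2 he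
  obtain ⟨e1, e2, e3, e4⟩ := sca_est hA1 hc hδ hδ1 t1 t2 t3 h1 h2 hR
  exact ⟨x1, x2, hx1, hx2, e1, e2, e3, e4⟩

end Pool.Agent.H46.RG
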