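import Pool.Agent.H46.RG.Lm

/-!
# Uni: the union of the translates of a set with a large stabiliser

Let `i ≠ j`, `IsInv (Aij i j) M`, `a ∈ A1`, `a i ≠ a j`, `lm (diagonal a) M = M`.  Then
`Y' = ⋃ b ∈ A1, lm (diagonal b) M` satisfies `IsInv (A1 d) Y'`.

Proof.  Only closedness is not obvious.  For real `r` let `e r ∈ A1` be `exp (r / 2)` at `i`,
`exp (- r / 2)` at `j`, `1` elsewhere.  Let `l = log (a i / a j) ≠ 0`.  For `b ∈ A1` let `ρ = log (b i / b j)`,
`n = ⌊ρ / l⌋`, `r = ρ - n l`, `0 ≤ r / l < 1`; then `b = e r * a ^ n * c` (entrywise, `n ∈ ℤ`) with `c ∈ Aij i j`, and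
`lm (diagonal (a ^ n)) M = M`, `lm (diagonal c) M = M` (both inclusions from invariance under `c` and
`c⁻¹`), so `lm (diagonal b) M = lm (diagonal (e r)) M` with `|r| ≤ |l|`.  Hence
`Y' = ⋃ r ∈ [-|l|, |l|], lm (diagonal (e r)) M = {h | ∃ r ∈ [-|l|, |l|], diagonal (e (-r)) * h ∈ M}`, the
projection of a closed subset of `[-|l|, |l|] × Matrix` along a compact factor
(`isClosedMap_snd_of_compactSpace`), so it is closed.
-/

set_option autoImplicit false

namespace Pool.Agent.H46.RG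

open Matrix Filter Topology Pool.Agent.H89.CSD

variable {d : ℕ}

private theorem uni_diag_one : (diagonal (1 : Fin d → ℝ) : Matrix (Fin d) (Fin d) ℝ) = 1 :=
  Matrix.diagonal_one

private theorem uni_diag_mul (a b : Fin d → ℝ) :
    (diagonal a * diagonal b : Matrix (Fin d) (Fin d) ℝ) = diagonal (a * b) := by
  rw [Matrix.diagonal_mul_diagonal]
  rfl

/-- `exp (r / 2)` at `i`, `exp (-r / 2)` at `j`, `1` elsewhere -/
private noncomputable def uni_e (i j : Fin d) (r : ℝ) : Fin d → ℝ :=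
  fun k => Real.exp (r * ((Pi.single i (1 / 2 : ℝ) : Fin d → ℝ) k -
    (Pi.single j (1 / 2 : ℝ) : Fin d → ℝ) k))

private theorem uni_e_mem {i j : Fin d} (_hij : i ≠ j) (r : ℝ) : uni_e i j r ∈ A1 d := by
  refine ⟨fun k => Real.exp_pos _, ?_⟩
  unfold uni_e
  rw [← Real.exp_sum, ← Finset.mul_sum, Finset.sum_sub_distrib, Finset.sum_pi_single',
    Finset.sum_pi_single', if_pos (Finset.mem_univ _), if_pos (Finset.mem_univ _), sub_self,
    mul_zero, Real.exp_zero]

private theorem uni_e_neg (i j : Fin d) (r : ℝ) : uni_e i j r * uni_e i j (-r) = 1 := by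
  funext k
  show Real.exp _ * Real.exp _ = 1
  rw [← Real.exp_add, ← add_mul, add_neg_cancel, zero_mul, Real.exp_zero]

private theorem uni_e_div {i j : Fin d} (hij : i ≠ j) (r : ℝ) :
    uni_e i j r i = Real.exp r * uni_e i j r j := by
  unfold uni_e
  rw [← Real.exp_add, Pi.single_eq_same, Pi.single_eq_same, Pi.single_eq_of_ne hij,
    Pi.single_eq_of_ne hij.symm]
  congr 1
  ring

private theorem uni_zpow {M : Set (Matrix (Fin d) (Fin d) ℝ)} {a : Fin d → ℝ}
    (ha : ∀ k, a k ≠ 0) (haM : lm (diagonal a) M = M) (n : ℤ) :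
    lm (diagonal (fun k => a k ^ n)) M = M := by
  have h1 : lm (diagonal a⁻¹) M = M := by
    have h2 : lm (diagonal a⁻¹) (lm (diagonal a) M) = M := by
      have h3 : a⁻¹ * a = 1 := by
        funext k
        exact inv_mul_cancel₀ (ha k)
      rw [lm_lm, uni_diag_mul, h3, uni_diag_one, lm_one]
    rwa [haM] at h2
  induction n using Int.induction_on with
  | zero =>
    have h2 : (fun k => a k ^ (0 : ℤ)) = 1 := by
      funext k
      exact zpow_zero _
    rw [h2, uni_diag_one, lm_one]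
  | succ n ih =>
    have h2 : (fun k => a k ^ ((n : ℤ) + 1)) = (fun k => a k ^ (n : ℤ)) * a := by
      funext k
      exact zpow_add_one₀ (ha k) _
    rw [h2, ← uni_diag_mul, ← lm_lm, haM, ih]
  | pred n ih =>
    have h2 : (fun k => a k ^ (-(n : ℤ) - 1)) = (fun k => a k ^ (-(n : ℤ))) * a⁻¹ := by
      funext k
      exact zpow_sub_one₀ (ha k) _
    rw [h2, ← uni_diag_mul, ← lm_lm, h1, ih]

private theorem uni_stab {i j : Fin d} {M : Set (Matrix (Fin d) (Fin d) ℝ)}
    (hM : IsInv (Aij i j) M) {c : Fin d → ℝ} (hc : c ∈ Aij i j) : lm (diagonal c) M = M := by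
  have hc' : c⁻¹ ∈ Aij i j := by
    refine ⟨⟨fun k => inv_pos.2 (hc.1.1 k), ?_⟩, ?_⟩
    · show ∏ k, (c k)⁻¹ = 1
      rw [Finset.prod_inv_distrib, hc.1.2, inv_one]
    · show (c i)⁻¹ = (c j)⁻¹
      rw [hc.2]
  apply subset_antisymm
  · rintro _ ⟨x, hx, rfl⟩
    exact hM.diag c hc x hx
  · intro x hx
    refine ⟨diagonal c⁻¹ * x, hM.diag _ hc' x hx, ?_⟩
    show diagonal c * (diagonal c⁻¹ * x) = x
    have h3 : c * c⁻¹ = 1 := by
      funext k
      exact mul_inv_cancel₀ (hc.1.1 k).ne'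
    rw [← Matrix.mul_assoc, uni_diag_mul, h3, uni_diag_one, Matrix.one_mul]

private theorem uni_red {i j : Fin d} (hij : i ≠ j) {M : Set (Matrix (Fin d) (Fin d) ℝ)}
    (hM : IsInv (Aij i j) M) {a : Fin d → ℝ} (ha : a ∈ A1 d)
    (hl0 : Real.log (a i / a j) ≠ 0)
    (haM : lm (diagonal a) M = M) {b : Fin d → ℝ} (hb : b ∈ A1 d) :
    ∃ r : ℝ, |r| ≤ |Real.log (a i / a j)| ∧ lm (diagonal b) M = lm (diagonal (uni_e i j r)) M := by
  set l : ℝ := Real.log (a i / a j) with hl
  set ρ : ℝ := Real.log (b i / b j) with hρ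
  set n : ℤ := ⌊ρ / l⌋ with hn
  have he := uni_e_mem hij (ρ - n * l)
  have hab : 0 < a i / a j := div_pos (ha.1 i) (ha.1 j)
  have hbb : 0 < b i / b j := div_pos (hb.1 i) (hb.1 j)
  refine ⟨ρ - n * l, ?_, ?_⟩
  · have h1 : ρ - n * l = (ρ / l - n) * l := by
      field_simp
    rw [h1, abs_mul]
    have h2 : |ρ / l - n| ≤ 1 := by
      rw [abs_le]
      have h3 := Int.floor_le (ρ / l)
      have h4 := Int.lt_floor_add_one (ρ / l)
      rw [← hn] at h3 h4
      constructor
      · linarith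
      · linarith
    exact mul_le_of_le_one_left (abs_nonneg _) h2
  · set c : Fin d → ℝ := fun k => b k / (uni_e i j (ρ - n * l) k * a k ^ n) with hc
    have hcm : c ∈ Aij i j := by
      refine ⟨⟨fun k => div_pos (hb.1 k) (mul_pos (he.1 k) (zpow_pos (ha.1 k) _)), ?_⟩, ?_⟩
      · show ∏ k, b k / (uni_e i j (ρ - n * l) k * a k ^ n) = 1
        rw [Finset.prod_div_distrib, Finset.prod_mul_distrib, Finset.prod_zpow, hb.2, he.2, ha.2,
          _root_.one_zpow, one_mul, div_one]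
      · show b i / (uni_e i j (ρ - n * l) i * a i ^ n) = b j / (uni_e i j (ρ - n * l) j * a j ^ n)
        rw [div_eq_div_iff (mul_pos (he.1 i) (zpow_pos (ha.1 i) _)).ne'
          (mul_pos (he.1 j) (zpow_pos (ha.1 j) _)).ne', uni_e_div hij]
        have h1 : Real.exp ρ = Real.exp (ρ - n * l) * (a i / a j) ^ n := by
          have h2 : (a i / a j) ^ n = Real.exp (n * l) := by
            rw [mul_comm, Real.exp_mul, Real.rpow_intCast, hl, Real.exp_log hab]
          rw [h2, ← Real.exp_add]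
          congr 1
          ring
        rw [hρ, Real.exp_log hbb] at h1
        rw [div_zpow] at h1
        have h5 : b j ≠ 0 := (hb.1 j).ne'
        have h6 : a j ^ n ≠ 0 := (zpow_pos (ha.1 j) _).ne'
        field_simp at h1
        rw [← hρ] at h1
        linear_combination (uni_e i j (ρ - n * l) j) * h1
    have h1 : b = uni_e i j (ρ - n * l) * ((fun k => a k ^ n) * c) := by
      funext k
      show b k = uni_e i j (ρ - n * l) k * (a k ^ n * (b k / (uni_e i j (ρ - n * l) k * a k ^ n)))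
      have h2 := (he.1 k).ne'
      have h3 : a k ^ n ≠ 0 := (zpow_pos (ha.1 k) _).ne'
      field_simp
    conv_lhs => rw [h1]
    rw [← uni_diag_mul, ← uni_diag_mul, ← lm_lm, ← lm_lm, uni_stab hM hcm,
      uni_zpow (fun k => (ha.1 k).ne') haM]

theorem isInv_union {i j : Fin d} (hij : i ≠ j) {M : Set (Matrix (Fin d) (Fin d) ℝ)}
    (hM : IsInv (Aij i j) M) {a : Fin d → ℝ} (ha : a ∈ A1 d) (haij : a i ≠ a j)
    (haM : lm (diagonal a) M = M) : IsInv (A1 d) (⋃ b ∈ A1 d, lm (diagonal b) M) := by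
  have hone : (1 : Fin d → ℝ) ∈ A1 d := ⟨fun _ => one_pos, by simp⟩
  have hmul : ∀ {a b : Fin d → ℝ}, a ∈ A1 d → b ∈ A1 d → a * b ∈ A1 d := by
    intro a b ha hb
    refine ⟨fun k => mul_pos (ha.1 k) (hb.1 k), ?_⟩
    show ∏ k, a k * b k = 1
    rw [Finset.prod_mul_distrib, ha.2, hb.2, one_mul]
  have hinv : ∀ {a : Fin d → ℝ}, a ∈ A1 d → a⁻¹ ∈ A1 d := by
    intro a ha
    refine ⟨fun k => inv_pos.2 (ha.1 k), ?_⟩
    show ∏ k, (a k)⁻¹ = 1
    rw [Finset.prod_inv_distrib, ha.2, inv_one]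
  refine ⟨?_, ?_, ?_, ?_⟩
  · obtain ⟨x, hx⟩ := hM.nonempty
    refine ⟨x, Set.mem_iUnion₂.2 ⟨1, hone, x, hx, ?_⟩⟩
    show diagonal (1 : Fin d → ℝ) * x = x
    rw [uni_diag_one, Matrix.one_mul]
  · set l : ℝ := Real.log (a i / a j) with hl
    have hl0 : l ≠ 0 := by
      intro h0
      have h1 := Real.exp_log (div_pos (ha.1 i) (ha.1 j))
      rw [← hl, h0, Real.exp_zero] at h1
      exact haij ((div_eq_one_iff_eq (ha.1 j).ne').1 h1.symm)
    set T : Set (Set.Icc (-|l|) |l| × Matrix (Fin d) (Fin d) ℝ) :=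
      {p | diagonal (uni_e i j (-(p.1 : ℝ))) * p.2 ∈ M} with hT
    have hTc : IsClosed T := by
      have h1 : Continuous fun p : Set.Icc (-|l|) |l| × Matrix (Fin d) (Fin d) ℝ =>
          diagonal (uni_e i j (-(p.1 : ℝ))) * p.2 := by
        apply Continuous.matrix_mul
        · apply Continuous.matrix_diagonal
          apply continuous_pi
          intro k
          unfold uni_e
          fun_prop
        · exact continuous_snd
      exact hM.closed.preimage h1
    have hEq : (⋃ b ∈ A1 d, lm (diagonal b) M) = Prod.snd '' T := by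
      ext h
      rw [Set.mem_iUnion₂]
      constructor
      · rintro ⟨b, hb, hh⟩
        obtain ⟨r, hr, hbr⟩ := uni_red hij hM ha hl0 haM hb
        rw [hbr] at hh
        obtain ⟨x, hx, rfl⟩ := hh
        refine ⟨(⟨r, abs_le.1 hr⟩, diagonal (uni_e i j r) * x), ?_, rfl⟩
        show diagonal (uni_e i j (-r)) * (diagonal (uni_e i j r) * x) ∈ M
        rw [← Matrix.mul_assoc, uni_diag_mul, mul_comm, uni_e_neg, uni_diag_one, Matrix.one_mul]
        exact hx
      · rintro ⟨⟨r, x⟩, hx, rfl⟩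
        refine ⟨uni_e i j r, uni_e_mem hij r, _, hx, ?_⟩
        show diagonal (uni_e i j r) * (diagonal (uni_e i j (-r)) * x) = x
        rw [← Matrix.mul_assoc, uni_diag_mul, uni_e_neg, uni_diag_one, Matrix.one_mul]
    rw [hEq]
    exact isClosedMap_snd_of_compactSpace _ hTc
  · intro h hh γ hγ
    obtain ⟨b, hb, x, hx, rfl⟩ := Set.mem_iUnion₂.1 hh
    refine Set.mem_iUnion₂.2 ⟨b, hb, x * γ.map (Int.cast : ℤ → ℝ), hM.units x hx γ hγ, ?_⟩
    show diagonal b * (x * γ.map (Int.cast : ℤ → ℝ)) = diagonal b * x * γ.map (Int.cast : ℤ → ℝ)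
    rw [Matrix.mul_assoc]
  · intro a' ha' h hh
    obtain ⟨b, hb, x, hx, rfl⟩ := Set.mem_iUnion₂.1 hh
    refine Set.mem_iUnion₂.2 ⟨a' * b, hmul ha' hb, x, hx, ?_⟩
    show diagonal (a' * b) * x = diagonal a' * (diagonal b * x)
    rw [← uni_diag_mul, Matrix.mul_assoc]

end Pool.Agent.H46.RG
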